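import Pool.Agent.PFL.Defs

/-!
# [PFL-A1] pointwise identities
-/

open scoped BigOperators

namespace PFL

variable {V : Type*} [AddCommGroup V] [Module ℝ V]
variable {br : V →ₗ[ℝ] V →ₗ[ℝ] V} {J : V →ₗ[ℝ] V} {g : V →ₗ[ℝ] V →ₗ[ℝ] ℝ}

theorem br_self (hb : LieB br) (X : V) : br X X = 0 := by
  have h := hb.skew X X
  have h2 : (2 : ℝ) • br X X = 0 := by
    rw [two_smul]
    nth_rewrite 1 [h]
    simp
  exact (smul_eq_zero.1 h2).resolve_left (by norm_num)

theorem gJ (hJ : CStr br J) (hg : Met J g) (X Y : V) : g (J X) Y = -g X (J Y) := by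
  have h := hg.herm X (J Y)
  rw [hJ.sq, map_neg] at h
  linarith

theorem Cf_swap (hb : LieB br) (X Y Z : V) : Cf br J g Y X Z = -Cf br J g X Y Z := by
  unfold Cf
  rw [hb.skew (J Y) (J X), hb.skew (J X) (J Z), hb.skew (J Z) (J Y)]
  simp only [map_neg, LinearMap.neg_apply]
  ring

theorem Cf_cyc (X Y Z : V) : Cf br J g Y Z X = Cf br J g X Y Z := by
  unfold Cf
  ring

theorem Cf_swap' (hb : LieB br) (X Y Z : V) : Cf br J g X Z Y = -Cf br J g X Y Z := by
  rw [← Cf_cyc X Z Y, Cf_swap hb Y Z X, Cf_cyc]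

theorem Cf_self (hb : LieB br) (X Y : V) : Cf br J g X Y Y = 0 := by
  have := Cf_swap' (J := J) (g := g) hb X Y Y
  linarith

theorem Cf_self' (hb : LieB br) (X Y : V) : Cf br J g X X Y = 0 := by
  have := Cf_swap (J := J) (g := g) hb X X Y
  linarith

/-- metric connection -/
theorem af_skew (hb : LieB br) (X Y Z : V) : af br J g X Z Y = -af br J g X Y Z := by
  unfold af
  rw [Cf_swap' hb X Y Z, hb.skew X Z, hb.skew Z Y, hb.skew Y X]
  simp only [map_neg, LinearMap.neg_apply]
  ring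

theorem af_self (hb : LieB br) (X Y : V) : af br J g X Y Y = 0 := by
  have := af_skew (J := J) (g := g) hb X Y Y
  linarith

/-- torsion -/
theorem br_eq_af (hb : LieB br) (X Y Z : V) :
    g (br X Y) Z = af br J g X Y Z - af br J g Y X Z - Cf br J g X Y Z := by
  unfold af
  rw [Cf_swap hb X Y Z, hb.skew Y X, hb.skew X Z, hb.skew Z Y]
  simp only [map_neg, LinearMap.neg_apply]
  ring

/-- `J` is parallel -/
theorem af_J (hJ : CStr br J) (hg : Met J g) (X Y Z : V) :
    af br J g X (J Y) Z = -af br J g X Y (J Z) := by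
  have h1 := hJ.int X Y
  have h2 := hJ.int Z X
  have e1 : g (br (J X) (J Y)) (J Z) = g (br X Y) (J Z) + g (br (J X) Y) Z + g (br X (J Y)) Z := by
    rw [h1, map_add, map_add, LinearMap.add_apply, LinearMap.add_apply, hg.herm, hg.herm]
  have e2 : g (br (J Z) (J X)) (J Y) = g (br Z X) (J Y) + g (br (J Z) X) Y + g (br Z (J X)) Y := by
    rw [h2, map_add, map_add, LinearMap.add_apply, LinearMap.add_apply, hg.herm, hg.herm]
  unfold af Cf
  simp only [hJ.sq, map_neg, LinearMap.neg_apply]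
  linarith

/-- `a(u,Y,u) = g([u,Y],u)` -/
theorem af_uYu (hb : LieB br) (u Y : V) : af br J g u Y u = g (br u Y) u := by
  unfold af Cf
  rw [br_self hb, br_self hb, hb.skew Y u, hb.skew (J Y) (J u)]
  simp only [map_neg, LinearMap.neg_apply, map_zero, LinearMap.zero_apply]
  ring

theorem Nf_self (hb : LieB br) (u X : V) : Nf br J g u X u = 0 := by
  unfold Nf
  rw [af_self hb, Cf_self hb]
  ring

/-- `N(X,Y) = g([X,u],Y) + a(u,X,Y)` -/
theorem Nf_eq (hb : LieB br) (u X Y : V) :
    Nf br J g u X Y = g (br X u) Y + af br J g u X Y := by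
  rw [br_eq_af (J := J) hb X u Y]
  unfold Nf
  ring

/-- `δ(X,Y) = -g([X,Y],u) = N(X,Y) - a(Y,u,X)` -/
theorem delta_eq (hb : LieB br) (u X Y : V) :
    -g (br X Y) u = Nf br J g u X Y - af br J g Y u X := by
  rw [br_eq_af (J := J) hb X Y u]
  unfold Nf
  rw [af_skew hb X Y u, af_skew hb Y X u, Cf_swap' hb X u Y]
  ring

/-- the explicit formula for `2 N` -/
theorem two_Nf (hb : LieB br) (u X Y : V) :
    2 * Nf br J g u X Y = g (br X u) Y + g (br Y u) X - g (br (J u) (J X)) Y
      - g (br (J Y) (J u)) X - g (br X Y) u - g (br (J X) (J Y)) u := by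
  rw [Nf_eq hb]
  unfold af Cf
  rw [hb.skew u X]
  simp only [map_neg, LinearMap.neg_apply]
  ring

/-- (I2) `g([X,JX],u) = N(JX,X) - g([Ju,X],X)` -/
theorem gamma_eq (hb : LieB br) (hJ : CStr br J) (hg : Met J g) (u X : V) :
    g (br X (J X)) u = Nf br J g u (J X) X - g (br (J u) X) X := by
  have h := two_Nf (J := J) (g := g) hb u (J X) X
  have hi := hJ.int u X
  have e1 : g (br (J u) (J X)) (J X)
      = g (br u X) (J X) + g (br (J u) X) X + g (br u (J X)) X := by
    rw [hi, map_add, map_add, LinearMap.add_apply, LinearMap.add_apply, hg.herm, hg.herm]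
  rw [hJ.sq, hb.skew (J X) u, hb.skew X u, hb.skew (J X) (J u), hb.skew (J X) X] at h
  simp only [map_neg, LinearMap.neg_apply] at h
  have e2 : g (br X u) (J X) = -g (br u X) (J X) := by
    rw [hb.skew X u]; simp
  linarith

end PFL
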