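import Pool.Agent.PFL.A8

/-!
# [PFL-A10] the flow preserves the Hermitian and the pluriclosed condition
-/

open scoped BigOperators

namespace PFL

variable {V : Type*} [AddCommGroup V] [Module ℝ V]
variable {br : V →ₗ[ℝ] V →ₗ[ℝ] V} {J : V →ₗ[ℝ] V} {g : V →ₗ[ℝ] V →ₗ[ℝ] ℝ}
variable {m : ℕ}

/-- `γ(X,Y) = (η([X,JY]) + η([Y,JX])) / 2` as a bilinear map -/
noncomputable def gaM (br : V →ₗ[ℝ] V →ₗ[ℝ] V) (J : V →ₗ[ℝ] V) (η : V →ₗ[ℝ] ℝ) :
    V →ₗ[ℝ] V →ₗ[ℝ] ℝ :=
  LinearMap.mk₂ ℝ (fun X Y => (η (br X (J Y)) + η (br Y (J X))) / 2)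
    (fun X X' Y => by simp only [map_add, LinearMap.add_apply]; ring)
    (fun c X Y => by simp only [map_smul, LinearMap.smul_apply, smul_eq_mul]; ring)
    (fun X Y Y' => by simp only [map_add, LinearMap.add_apply]; ring)
    (fun c X Y => by simp only [map_smul, LinearMap.smul_apply, smul_eq_mul]; ring)

theorem gaM_apply (η : V →ₗ[ℝ] ℝ) (X Y : V) :
    gaM br J η X Y = (η (br X (J Y)) + η (br Y (J X))) / 2 := rfl

theorem gaM_symm (η : V →ₗ[ℝ] ℝ) (X Y : V) : gaM br J η X Y = gaM br J η Y X := by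
  rw [gaM_apply, gaM_apply]; ring

theorem gaM_J (hb : LieB br) (hJ : CStr br J) (η : V →ₗ[ℝ] ℝ) (X Y : V) :
    gaM br J η (J X) (J Y) = gaM br J η X Y := by
  rw [gaM_apply, gaM_apply, hJ.sq, hJ.sq]
  simp only [map_neg]
  rw [hb.skew (J X) Y, hb.skew (J Y) X]
  simp only [map_neg, neg_neg]
  ring

theorem Fg_eq_gaM (b : Module.Basis (Fin m) ℝ V) (X Y : V) :
    Fg b br J g X Y = gaM br J (etaL b br J g) X Y := by
  rw [gaM_apply, etaL_apply, etaL_apply]; rfl

/-- the Jacobi identity in cyclic form -/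
theorem jac_cyc (hb : LieB br) (X Y Z : V) :
    br (br X Y) Z + br (br Y Z) X + br (br Z X) Y = 0 := by
  have h := hb.jac X Y Z
  rw [hb.skew X (br Y Z), hb.skew Y (br X Z), hb.skew X Z] at h
  simp only [map_neg, LinearMap.neg_apply, neg_neg] at h
  have h' : br (br Y Z) X = -(br (br X Y) Z + br (br Z X) Y) := by
    rw [← h, neg_neg]
  rw [h']; abel

/-- `dd = 0` on 2-forms -/
theorem dd_zero (hb : LieB br) (β : V →ₗ[ℝ] V →ₗ[ℝ] ℝ) (hβ : ∀ X Y, β X Y = -β Y X)
    (C : V → V → V → ℝ)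
    (hC : ∀ X Y Z, C X Y Z = -(β (br X Y) Z + β (br Y Z) X + β (br Z X) Y)) (X Y Z W : V) :
    C (br X Y) Z W - C (br X Z) Y W + C (br X W) Y Z
    + C (br Y Z) X W - C (br Y W) X Z + C (br Z W) X Y = 0 := by
  have j : ∀ A B D E : V, β (br (br A B) D) E + β (br (br B D) A) E - β (br (br A D) B) E = 0 := by
    intro A B D E
    have h := congrArg (fun v => β v E) (jac_cyc hb A B D)
    simp only [map_add, LinearMap.add_apply, map_zero, LinearMap.zero_apply] at h
    rw [hb.skew D A] at h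
    simp only [map_neg, LinearMap.neg_apply] at h
    linarith
  have s : ∀ A B D E : V, β (br A (br B D)) E = -β (br (br B D) A) E := by
    intro A B D E
    rw [hb.skew A (br B D)]
    simp only [map_neg, LinearMap.neg_apply]
  simp only [hC]
  have a1 := j X Y Z W
  have a2 := j X Y W Z
  have a3 := j X Z W Y
  have a4 := j Y Z W X
  have b1 := hβ (br Z W) (br X Y)
  have b2 := hβ (br Y W) (br X Z)
  have b3 := hβ (br Y Z) (br X W)
  simp only [s]
  linarith

/-- `C_γ = dβ` -/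
theorem Cf_gaM (hb : LieB br) (hJ : CStr br J) (η : V →ₗ[ℝ] ℝ) (X Y Z : V) :
    Cf br J (gaM br J η) X Y Z
      = (1 / 2) * (η (br (J (br X Y)) Z) + η (br (br X Y) (J Z))
        + η (br (J (br Y Z)) X) + η (br (br Y Z) (J X))
        + η (br (J (br Z X)) Y) + η (br (br Z X) (J Y))) := by
  have hJJ : ∀ A B : V, J (br (J A) (J B)) = J (br A B) - br (J A) B - br A (J B) := by
    intro A B
    rw [hJ.int, map_add, map_add, hJ.sq, hJ.sq]; abel
  have hη : ∀ A B D : V, η (br (br A B) D) + η (br (br B D) A) + η (br (br D A) B) = 0 := by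
    intro A B D
    rw [← map_add, ← map_add, jac_cyc hb, map_zero]
  have hs : ∀ A B : V, η (br A B) = -η (br B A) := by
    intro A B
    rw [hb.skew A B, map_neg]
  unfold Cf
  simp only [gaM_apply, hJJ]
  simp only [map_sub]
  have h0 := hη (J X) (J Y) (J Z)
  have h1 := hη (J X) Y Z
  have h2 := hη X (J Y) Z
  have h3 := hη X Y (J Z)
  have k1 := hs Z (J (br X Y))
  have k2 := hs X (J (br Y Z))
  have k3 := hs Y (J (br Z X))
  have l1 := hs Z (br (J X) Y)
  have l2 := hs Z (br X (J Y))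
  have l3 := hs X (br (J Y) Z)
  have l4 := hs X (br Y (J Z))
  have l5 := hs Y (br (J Z) X)
  have l6 := hs Y (br Z (J X))
  linarith

/-- `γ` is pluriclosed -/
theorem closed_gaM (hb : LieB br) (hJ : CStr br J) (η : V →ₗ[ℝ] ℝ) :
    Closed br J (gaM br J η) := by
  intro X Y Z W
  set β : V →ₗ[ℝ] V →ₗ[ℝ] ℝ := LinearMap.mk₂ ℝ
    (fun A B => -(1 / 2) * (η (br (J A) B) + η (br A (J B))))
    (fun X X' Y => by simp only [map_add, LinearMap.add_apply]; ring)
    (fun c X Y => by simp only [map_smul, LinearMap.smul_apply, smul_eq_mul]; ring)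
    (fun X Y Y' => by simp only [map_add]; ring)
    (fun c X Y => by simp only [map_smul, smul_eq_mul]; ring) with hβdef
  have hβ : ∀ A B, β A B = -(1 / 2) * (η (br (J A) B) + η (br A (J B))) := fun A B => rfl
  refine dd_zero hb β (fun A B => ?_) (fun X Y Z => Cf br J (gaM br J η) X Y Z) (fun X Y Z => ?_) X Y Z W
  · rw [hβ, hβ, hb.skew (J A) B, hb.skew A (J B), map_neg, map_neg]; ring
  · show Cf br J (gaM br J η) X Y Z = _
    rw [Cf_gaM hb hJ, hβ, hβ, hβ]; ring

/-- the expression in `Closed` -/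
noncomputable def dCf (br : V →ₗ[ℝ] V →ₗ[ℝ] V) (J : V →ₗ[ℝ] V) (g : V →ₗ[ℝ] V →ₗ[ℝ] ℝ)
    (X Y Z W : V) : ℝ :=
  Cf br J g (br X Y) Z W - Cf br J g (br X Z) Y W + Cf br J g (br X W) Y Z
    + Cf br J g (br Y Z) X W - Cf br J g (br Y W) X Z + Cf br J g (br Z W) X Y

/-- constancy from zero derivative within `Icc` -/
theorem const_of_deriv {f : ℝ → ℝ} {s : ℝ}
    (h : ∀ t ∈ Set.Icc 0 s, HasDerivWithinAt f 0 (Set.Icc 0 s) t) :
    ∀ t ∈ Set.Icc 0 s, f t = f 0 := by
  intro t ht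
  rcases eq_or_lt_of_le ht.1 with h0 | h0
  · rw [← h0]
  · have hs : (0:ℝ) < s := h0.trans_le ht.2
    apply constant_of_derivWithin_zero (a := 0) (b := s)
    · exact fun x hx => (h x hx).differentiableWithinAt
    · intro x hx
      exact (h x ⟨hx.1, hx.2.le⟩).derivWithin (uniqueDiffOn_Icc hs x ⟨hx.1, hx.2.le⟩)
    · exact ht

/-- preservation of symmetry, `J`-invariance and the pluriclosed condition -/
theorem preserve (hb : LieB br) (hJ : CStr br J) (b : Module.Basis (Fin m) ℝ V)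
    {gt : ℝ → V →ₗ[ℝ] V →ₗ[ℝ] ℝ} {s : ℝ} (hg0 : Met J (gt 0)) (hc0 : Closed br J (gt 0))
    (hd : ∀ t ∈ Set.Icc 0 s, ∀ X Y,
      HasDerivWithinAt (fun t => gt t X Y) (Fg b br J (gt t) X Y) (Set.Icc 0 s) t) :
    ∀ t ∈ Set.Icc 0 s, (∀ X Y, gt t X Y = gt t Y X) ∧ (∀ X Y, gt t (J X) (J Y) = gt t X Y) ∧
      Closed br J (gt t) := by
  intro t ht
  refine ⟨fun X Y => ?_, fun X Y => ?_, fun X Y Z W => ?_⟩
  · have h := const_of_deriv (f := fun t => gt t X Y - gt t Y X) (s := s) (fun r hr => by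
      have := (hd r hr X Y).sub (hd r hr Y X)
      rwa [Fg_eq_gaM, Fg_eq_gaM, gaM_symm, sub_self] at this) t ht
    simp only [hg0.symm X Y, sub_self] at h
    linarith
  · have h := const_of_deriv (f := fun t => gt t (J X) (J Y) - gt t X Y) (s := s) (fun r hr => by
      have := (hd r hr (J X) (J Y)).sub (hd r hr X Y)
      rwa [Fg_eq_gaM, Fg_eq_gaM, gaM_J hb hJ, sub_self] at this) t ht
    simp only [hg0.herm X Y, sub_self] at h
    linarith
  · have hC : ∀ r ∈ Set.Icc 0 s, ∀ A B D : V, HasDerivWithinAt (fun t => Cf br J (gt t) A B D)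
        (Cf br J (gaM br J (etaL b br J (gt r))) A B D) (Set.Icc 0 s) r := by
      intro r hr A B D
      unfold Cf
      have h1 := hd r hr (br (J A) (J B)) D
      have h2 := hd r hr (br (J B) (J D)) A
      have h3 := hd r hr (br (J D) (J A)) B
      rw [Fg_eq_gaM] at h1 h2 h3
      exact ((h1.add h2).add h3).neg
    have h := const_of_deriv (f := fun t => dCf br J (gt t) X Y Z W) (s := s) (fun r hr => by
      have h1 := ((((((hC r hr (br X Y) Z W).sub (hC r hr (br X Z) Y W)).add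
        (hC r hr (br X W) Y Z)).add (hC r hr (br Y Z) X W)).sub
        (hC r hr (br Y W) X Z)).add (hC r hr (br Z W) X Y))
      have h2 := closed_gaM hb hJ (etaL b br J (gt r)) X Y Z W
      rw [h2] at h1
      exact h1) t ht
    have h0 : dCf br J (gt 0) X Y Z W = 0 := hc0 X Y Z W
    simp only [h0] at h
    exact h

end PFL
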