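import Pool.Agent.PFL.A9
import Pool.Agent.PFL.A10

/-!
# [PFL-A11] long-time existence of the left-invariant pluriclosed flow
-/

open scoped BigOperators Topology
open Set

namespace PFL

variable {V : Type*} [AddCommGroup V] [Module ℝ V]
variable {br : V →ₗ[ℝ] V →ₗ[ℝ] V} {J : V →ₗ[ℝ] V} {g : V →ₗ[ℝ] V →ₗ[ℝ] ℝ}
variable {m : ℕ}

/-- the bilinear form with Gram matrix `G` in the basis `b` -/
noncomputable def gm (b : Module.Basis (Fin m) ℝ V) (G : Fin m → Fin m → ℝ) :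
    V →ₗ[ℝ] V →ₗ[ℝ] ℝ :=
  LinearMap.mk₂ ℝ (fun X Y => ∑ i, ∑ j, b.repr X i * b.repr Y j * G i j)
    (fun X X' Y => by
      simp only [map_add, Finsupp.add_apply, add_mul, Finset.sum_add_distrib])
    (fun c X Y => by
      simp only [map_smul, Finsupp.smul_apply, smul_eq_mul, Finset.mul_sum, mul_assoc])
    (fun X Y Y' => by
      simp only [map_add, Finsupp.add_apply, mul_add, add_mul, Finset.sum_add_distrib])
    (fun c X Y => by
      simp only [map_smul, Finsupp.smul_apply, smul_eq_mul, Finset.mul_sum]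
      refine Finset.sum_congr rfl fun i _ => Finset.sum_congr rfl fun j _ => ?_
      ring)

theorem gm_apply (b : Module.Basis (Fin m) ℝ V) (G : Fin m → Fin m → ℝ) (X Y : V) :
    gm b G X Y = ∑ i, ∑ j, b.repr X i * b.repr Y j * G i j := rfl

theorem gm_basis (b : Module.Basis (Fin m) ℝ V) (G : Fin m → Fin m → ℝ) (i j : Fin m) :
    gm b G (b i) (b j) = G i j := by
  classical
  rw [gm_apply]
  simp only [Module.Basis.repr_self, Finsupp.single_apply]
  simp

theorem gm_of (b : Module.Basis (Fin m) ℝ V) (g : V →ₗ[ℝ] V →ₗ[ℝ] ℝ) :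
    gm b (fun i j => g (b i) (b j)) = g := by
  refine b.ext fun i => b.ext fun j => ?_
  rw [gm_basis]

theorem bil_exp (b : Module.Basis (Fin m) ℝ V) (β : V →ₗ[ℝ] V →ₗ[ℝ] ℝ) (X Y : V) :
    β X Y = ∑ i, ∑ j, b.repr X i * b.repr Y j * β (b i) (b j) := by
  conv_lhs => rw [← gm_of b β]
  rfl

/-- the open set of positive definite Gram matrices -/
def Up (b : Module.Basis (Fin m) ℝ V) : Set (Fin m → Fin m → ℝ) :=
  {G | ∃ c : ℝ, 0 < c ∧ ∀ X, c * ∑ i, (b.repr X i) ^ 2 ≤ gm b G X X}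

theorem sum_abs_sq (x : Fin m → ℝ) : (∑ i, |x i|) ^ 2 ≤ m * ∑ i, (x i) ^ 2 := by
  have h := sq_sum_le_card_mul_sum_sq (s := Finset.univ) (f := fun i => |x i|)
  simpa [sq_abs] using h

theorem isOpen_Up (b : Module.Basis (Fin m) ℝ V) : IsOpen (Up b) := by
  rw [Metric.isOpen_iff]
  rintro G ⟨c, hc, hG⟩
  refine ⟨c / (2 * (m + 1)), by positivity, fun G' hG' => ⟨c / 2, by positivity, fun X => ?_⟩⟩
  rw [Metric.mem_ball, dist_eq_norm] at hG'
  have h1 : |gm b G' X X - gm b G X X| ≤ ‖G' - G‖ * (∑ i, |b.repr X i|) ^ 2 := by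
    rw [gm_apply, gm_apply, ← Finset.sum_sub_distrib]
    have : (∑ i, |b.repr X i|) ^ 2 = ∑ i, ∑ j, |b.repr X i| * |b.repr X j| := by
      rw [sq, Finset.sum_mul_sum]
    rw [this, Finset.mul_sum]
    refine (Finset.abs_sum_le_sum_abs _ _).trans (Finset.sum_le_sum fun i _ => ?_)
    rw [← Finset.sum_sub_distrib, Finset.mul_sum]
    refine (Finset.abs_sum_le_sum_abs _ _).trans (Finset.sum_le_sum fun j _ => ?_)
    rw [← mul_sub, abs_mul, abs_mul, mul_comm ‖G' - G‖]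
    refine mul_le_mul_of_nonneg_left ?_ (by positivity)
    have h2 : ‖(G' - G) i‖ ≤ ‖G' - G‖ := norm_le_pi_norm _ i
    have h3 : ‖(G' - G) i j‖ ≤ ‖(G' - G) i‖ := norm_le_pi_norm ((G' - G) i) j
    exact h3.trans h2
  have h2 := sum_abs_sq (fun i => b.repr X i)
  have h3 := hG X
  have hS : 0 ≤ ∑ i, (b.repr X i) ^ 2 := Finset.sum_nonneg fun i _ => sq_nonneg _
  have h4 : ‖G' - G‖ * (∑ i, |b.repr X i|) ^ 2 ≤ (c / 2) * ∑ i, (b.repr X i) ^ 2 := by
    calc ‖G' - G‖ * (∑ i, |b.repr X i|) ^ 2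
        ≤ (c / (2 * (m + 1))) * (m * ∑ i, (b.repr X i) ^ 2) :=
          mul_le_mul hG'.le h2 (by positivity) (by positivity)
      _ = (c / 2) * (m / (m + 1)) * ∑ i, (b.repr X i) ^ 2 := by
          field_simp
      _ ≤ (c / 2) * 1 * ∑ i, (b.repr X i) ^ 2 := by
          refine mul_le_mul_of_nonneg_right (mul_le_mul_of_nonneg_left ?_ (by positivity)) hS
          rw [div_le_one (by positivity)]
          linarith
      _ = _ := by ring
  have h5 := (abs_le.1 h1).1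
  linarith

theorem Up_pos (b : Module.Basis (Fin m) ℝ V) {G : Fin m → Fin m → ℝ} (hG : G ∈ Up b) {X : V}
    (hX : X ≠ 0) : 0 < gm b G X X := by
  obtain ⟨c, hc, h⟩ := hG
  refine lt_of_lt_of_le (mul_pos hc ?_) (h X)
  by_contra hn
  apply hX
  have hS : ∑ i, (b.repr X i) ^ 2 = 0 :=
    le_antisymm (not_lt.1 hn) (Finset.sum_nonneg fun i _ => sq_nonneg _)
  rw [Finset.sum_eq_zero_iff_of_nonneg (fun i _ => sq_nonneg _)] at hS
  apply b.repr.injective
  ext i
  simpa using hS i (Finset.mem_univ i)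

theorem Up_det (b : Module.Basis (Fin m) ℝ V) {G : Fin m → Fin m → ℝ} (hG : G ∈ Up b) :
    (Matrix.of fun i j => G i j).det ≠ 0 := by
  intro h
  rw [← Matrix.exists_mulVec_eq_zero_iff] at h
  obtain ⟨v, hv, hv0⟩ := h
  have hX : (∑ i, v i • b i) ≠ 0 := by
    intro h0
    apply hv
    have := congrArg b.repr h0
    ext k
    have h1 := DFunLike.congr_fun this k
    simpa [Finsupp.single_apply] using h1
  have hr : ∀ i, b.repr (∑ k, v k • b k) i = v i := by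
    intro i
    simp [Finsupp.single_apply]
  have := Up_pos b hG hX
  rw [gm_apply] at this
  simp only [hr] at this
  have h2 : ∑ i, ∑ j, v i * v j * G i j = ∑ i, v i * ((Matrix.of fun i j => G i j).mulVec v) i := by
    refine Finset.sum_congr rfl fun i _ => ?_
    rw [Matrix.mulVec, dotProduct, Finset.mul_sum]
    refine Finset.sum_congr rfl fun j _ => ?_
    rw [Matrix.of_apply]; ring
  rw [h2, hv0] at this
  simp at this

/-- the right-hand side of the ODE in coordinates -/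
noncomputable def rhs (b : Module.Basis (Fin m) ℝ V) (br : V →ₗ[ℝ] V →ₗ[ℝ] V) (J : V →ₗ[ℝ] V)
    (G : Fin m → Fin m → ℝ) : Fin m → Fin m → ℝ :=
  fun i j => Fg b br J (gm b G) (b i) (b j)

theorem contDiffAt_gm (b : Module.Basis (Fin m) ℝ V) (X Y : V) {n : WithTop ℕ∞}
    (G : Fin m → Fin m → ℝ) : ContDiffAt ℝ n (fun G => gm b G X Y) G := by
  simp only [gm_apply]
  refine ContDiffAt.sum fun i _ => ContDiffAt.sum fun j _ => ?_
  refine contDiffAt_const.mul ?_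
  exact contDiffAt_pi.1 (contDiffAt_pi.1 contDiffAt_id i) j

theorem contDiffAt_eta (b : Module.Basis (Fin m) ℝ V) (X : V) {n : WithTop ℕ∞}
    {G : Fin m → Fin m → ℝ} (hG : G ∈ Up b) :
    ContDiffAt ℝ n (fun G => eta b br J (gm b G) X) G := by
  unfold eta trg
  refine contDiffAt_const.sub (contDiffAt_const.mul ?_)
  refine ContDiffAt.sum fun i _ => ContDiffAt.sum fun j _ => ?_
  refine ContDiffAt.mul ?_ (contDiffAt_gm b _ _ G)
  simp only [gm_basis]
  refine contDiffAt_inv (f := fun G : Fin m → Fin m → ℝ => Matrix.of fun i j => G i j)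
    (fun i j => ?_) (Up_det b hG) i j
  exact contDiffAt_pi.1 (contDiffAt_pi.1 contDiffAt_id i) j

theorem contDiffOn_rhs (b : Module.Basis (Fin m) ℝ V) {n : WithTop ℕ∞} :
    ContDiffOn ℝ n (rhs b br J) (Up b) := by
  intro G hG
  refine ContDiffAt.contDiffWithinAt ?_
  refine contDiffAt_pi.2 fun i => contDiffAt_pi.2 fun j => ?_
  unfold rhs Fg
  exact ((contDiffAt_eta b _ hG).add (contDiffAt_eta b _ hG)).div_const 2

/-- comparison of a metric with the coordinate metric -/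
theorem exists_lower (b : Module.Basis (Fin m) ℝ V) (hg : Met J g) :
    ∃ c : ℝ, 0 < c ∧ ∀ X, c * ∑ i, (b.repr X i) ^ 2 ≤ g X X := by
  obtain ⟨e, he⟩ := exists_orth b hg
  set S : ℝ := ∑ i, ∑ k, (b.repr (e k) i) ^ 2 with hS
  have hS0 : 0 ≤ S := Finset.sum_nonneg fun i _ => Finset.sum_nonneg fun k _ => sq_nonneg _
  have key : ∀ X, ∑ i, (b.repr X i) ^ 2 ≤ g X X * S := by
    intro X
    rw [hS, Finset.mul_sum]
    refine Finset.sum_le_sum fun i _ => ?_
    have h1 : b.repr X i = ∑ k, g X (e k) * b.repr (e k) i := by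
      conv_lhs => rw [orth_exp he X]
      rw [map_sum, Finsupp.finsetSum_apply]
      refine Finset.sum_congr rfl fun k _ => ?_
      rw [map_smul, Finsupp.smul_apply, smul_eq_mul]
    rw [h1]
    have h2 : g X X = ∑ k, (g X (e k)) ^ 2 := by
      rw [parseval he X X]
      exact Finset.sum_congr rfl fun k _ => (sq _).symm
    rw [h2]
    exact Finset.sum_mul_sq_le_sq_mul_sq _ _ _
  refine ⟨1 / (S + 1), by positivity, fun X => ?_⟩
  rw [one_div, inv_mul_le_iff₀ (by positivity)]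
  have := met_nonneg hg X
  nlinarith [key X]

/-- facts about a solution in `Up` -/
theorem sol (hb : LieB br) (hJ : CStr br J) (b : Module.Basis (Fin m) ℝ V)
    {g0 : V →ₗ[ℝ] V →ₗ[ℝ] ℝ} (hg0 : Met J g0) (hc0 : Closed br J g0) {s : ℝ}
    {x : ℝ → Fin m → Fin m → ℝ} (hx0 : x 0 = (fun i j => g0 (b i) (b j)))
    (hxU : ∀ t ∈ Icc 0 s, x t ∈ Up b)
    (hxd : ∀ t ∈ Icc 0 s, HasDerivWithinAt x (rhs b br J (x t)) (Icc 0 s) t) :
    (∀ t ∈ Icc 0 s, ∀ X Y, HasDerivWithinAt (fun t => gm b (x t) X Y)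
        (Fg b br J (gm b (x t)) X Y) (Icc 0 s) t) ∧
      ∀ t ∈ Icc 0 s, Met J (gm b (x t)) ∧ Closed br J (gm b (x t)) := by
  have hd : ∀ t ∈ Icc 0 s, ∀ X Y, HasDerivWithinAt (fun t => gm b (x t) X Y)
      (Fg b br J (gm b (x t)) X Y) (Icc 0 s) t := by
    intro t ht X Y
    have h1 : ∀ i j, HasDerivWithinAt (fun t => x t i j)
        (Fg b br J (gm b (x t)) (b i) (b j)) (Icc 0 s) t := by
      intro i j
      exact (hasDerivWithinAt_pi.1 ((hasDerivWithinAt_pi.1 (hxd t ht)) i)) j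
    rw [Fg_eq_gaM, bil_exp b (gaM br J (etaL b br J (gm b (x t)))) X Y]
    simp only [gm_apply]
    refine HasDerivWithinAt.fun_sum fun i _ => HasDerivWithinAt.fun_sum fun j _ => ?_
    rw [← Fg_eq_gaM]
    exact (h1 i j).const_mul _
  have hx0' : gm b (x 0) = g0 := by rw [hx0, gm_of]
  have hp := preserve hb hJ b (gt := fun t => gm b (x t)) (s := s)
    (by rw [hx0']; exact hg0) (by rw [hx0']; exact hc0) hd
  refine ⟨hd, fun t ht => ?_⟩
  obtain ⟨h1, h2, h3⟩ := hp t ht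
  exact ⟨⟨h1, h2, fun X hX => Up_pos b (hxU t ht) hX⟩, h3⟩

/-- the compact set in which a solution stays up to time `T` -/
def KT (b : Module.Basis (Fin m) ℝ V) (br : V →ₗ[ℝ] V →ₗ[ℝ] V) (J : V →ₗ[ℝ] V)
    (g0 : V →ₗ[ℝ] V →ₗ[ℝ] ℝ) (T : ℝ) : Set (Fin m → Fin m → ℝ) :=
  {G | (∀ i j, G i j ∈ Icc (-(Real.exp (Lam (En b br J g0) (kap b br g0) T) *
      ∑ k, g0 (b k) (b k))) (Real.exp (Lam (En b br J g0) (kap b br g0) T) *
      ∑ k, g0 (b k) (b k))) ∧
    ∀ X, g0 X X * Real.exp (-Lam (En b br J g0) (kap b br g0) T) ≤ gm b G X X}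

theorem KT_compact (b : Module.Basis (Fin m) ℝ V) (g0 : V →ₗ[ℝ] V →ₗ[ℝ] ℝ) (T : ℝ) :
    IsCompact (KT b br J g0 T) := by
  set Λ : ℝ := Lam (En b br J g0) (kap b br g0) T with hΛ
  set R : ℝ := Real.exp Λ * ∑ k, g0 (b k) (b k) with hR
  have hcontgm : ∀ X Y, Continuous (fun G => gm b G X Y) := fun X Y =>
    continuous_iff_continuousAt.2 fun G => (contDiffAt_gm (n := 0) b X Y G).continuousAt
  have h1 : IsCompact {G : Fin m → Fin m → ℝ | ∀ i j, G i j ∈ Icc (-R) R} := by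
    have := isCompact_univ_pi (fun _ : Fin m => isCompact_univ_pi (fun _ : Fin m =>
      (isCompact_Icc : IsCompact (Icc (-R) R))))
    convert this using 1
    ext G
    simp only [mem_ofPred_eq, mem_univ_pi]
  have h2 : IsClosed {G : Fin m → Fin m → ℝ | ∀ X, g0 X X * Real.exp (-Λ) ≤ gm b G X X} := by
    rw [ofPred_forall]
    exact isClosed_iInter fun X => isClosed_le continuous_const (hcontgm X X)
  exact h1.inter_right h2

theorem KT_subset (b : Module.Basis (Fin m) ℝ V) {g0 : V →ₗ[ℝ] V →ₗ[ℝ] ℝ} (hg0 : Met J g0)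
    (T : ℝ) : KT b br J g0 T ⊆ Up b := by
  obtain ⟨c0, hc0', hlow⟩ := exists_lower b hg0
  rintro G ⟨-, hG⟩
  refine ⟨c0 * Real.exp (-Lam (En b br J g0) (kap b br g0) T), by positivity, fun X => ?_⟩
  refine le_trans ?_ (hG X)
  have := mul_le_mul_of_nonneg_right (hlow X)
    (Real.exp_pos (-Lam (En b br J g0) (kap b br g0) T)).le
  linarith

theorem KT_apriori (hb : LieB br) (hJ : CStr br J) (b : Module.Basis (Fin m) ℝ V)
    {g0 : V →ₗ[ℝ] V →ₗ[ℝ] ℝ} (hg0 : Met J g0) (hc0 : Closed br J g0) {T s : ℝ} (hs : 0 ≤ s)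
    (hsT : s ≤ T) (x : ℝ → Fin m → Fin m → ℝ) (hx0 : x 0 = (fun i j => g0 (b i) (b j)))
    (hxU : ∀ t ∈ Icc 0 s, x t ∈ Up b)
    (hxd : ∀ t ∈ Icc 0 s, HasDerivWithinAt x (rhs b br J (x t)) (Icc 0 s) t) :
    ∀ t ∈ Icc 0 s, x t ∈ KT b br J g0 T := by
  intro t ht
  obtain ⟨hd, hmc⟩ := sol hb hJ b hg0 hc0 hx0 hxU hxd
  have hx0' : gm b (x 0) = g0 := by rw [hx0, gm_of]
  have hA := apriori hb hJ b (gt := fun t => gm b (x t)) hs hsT (fun t ht => (hmc t ht).1)
    (fun t ht => (hmc t ht).2) hd t ht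
  simp only [hx0'] at hA
  refine ⟨fun i j => ?_, fun X => (hA X).1⟩
  set R : ℝ := Real.exp (Lam (En b br J g0) (kap b br g0) T) * ∑ k, g0 (b k) (b k) with hR
  have hm := (hmc t ht).1
  have hnn := fun X => met_nonneg hm X
  have hb1 : ∀ i, gm b (x t) (b i) (b i) ≤ R := by
    intro i
    refine (hA (b i)).2.trans ?_
    rw [hR, mul_comm]
    refine mul_le_mul_of_nonneg_left ?_ (Real.exp_pos _).le
    exact Finset.single_le_sum (f := fun k => g0 (b k) (b k))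
      (fun k _ => met_nonneg hg0 (b k)) (Finset.mem_univ i)
  have hp := hnn (b i + b j)
  have hq := hnn (b i - b j)
  have hsy := hm.symm (b j) (b i)
  simp only [map_add, map_sub, LinearMap.add_apply, LinearMap.sub_apply] at hp hq
  have h1 := hb1 i
  have h2 := hb1 j
  rw [← gm_basis b (x t) i j]
  constructor <;> linarith

/-- **Long-time existence** of the left-invariant pluriclosed flow -/
theorem core (hb : LieB br) (hJ : CStr br J) (b : Module.Basis (Fin m) ℝ V)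
    {g0 : V →ₗ[ℝ] V →ₗ[ℝ] ℝ} (hg0 : Met J g0) (hc0 : Closed br J g0) :
    ∃ gt : ℝ → V →ₗ[ℝ] V →ₗ[ℝ] ℝ, gt 0 = g0 ∧
      (∀ t, 0 ≤ t → Met J (gt t) ∧ Closed br J (gt t)) ∧
      (∀ X Y, ContDiffOn ℝ (⊤ : ℕ∞) (fun t => gt t X Y) (Ici 0)) ∧
      ∀ t, 0 ≤ t → ∀ X Y,
        HasDerivWithinAt (fun t => gt t X Y) (Fg b br J (gt t) X Y) (Ici 0) t := by
  have hG0 : (fun i j => g0 (b i) (b j)) ∈ Up b := by
    obtain ⟨c, hc, h⟩ := exists_lower b hg0
    exact ⟨c, hc, fun X => by rw [gm_of]; exact h X⟩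
  have hap := fun (T : ℝ) (_ : 0 ≤ T) (s : ℝ) (hs : 0 ≤ s) (hsT : s ≤ T) x hx0 hxU hxd =>
    KT_apriori hb hJ b hg0 hc0 hs hsT x hx0 hxU hxd
  have h0 : ∀ T, 0 ≤ T → (fun i j => g0 (b i) (b j)) ∈ KT b br J g0 T := by
    intro T hT
    refine hap T hT 0 le_rfl hT (fun _ => fun i j => g0 (b i) (b j)) rfl (fun t _ => hG0)
      (fun t ht => ?_) 0 (left_mem_Icc.2 le_rfl)
    have : Icc (0:ℝ) 0 = {0} := Icc_self 0
    rw [this]
    exact HasFDerivWithinAt.of_subsingleton (by simp)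
  obtain ⟨x, hx0, hxU, hxd⟩ := ode_global (isOpen_Up b)
    (contDiffOn_rhs (br := br) (J := J) b (n := 1)) (x0 := fun i j => g0 (b i) (b j))
    (K := KT b br J g0) (fun T _ => KT_compact b g0 T) (fun T _ => KT_subset b hg0 T) h0 hap
  have hloc : ∀ t, 0 ≤ t →
      (∀ X Y, HasDerivWithinAt (fun t => gm b (x t) X Y)
        (Fg b br J (gm b (x t)) X Y) (Ici 0) t) ∧ Met J (gm b (x t)) ∧ Closed br J (gm b (x t)) := by
    intro t ht
    obtain ⟨hd, hmc⟩ := sol (s := t + 1) hb hJ b hg0 hc0 hx0 (fun r hr => hxU r hr.1)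
      (fun r hr => (hxd r hr.1).mono Icc_subset_Ici_self)
    have ht1 : t ∈ Icc 0 (t + 1) := ⟨ht, by linarith⟩
    refine ⟨fun X Y => ?_, hmc t ht1⟩
    refine (hd t ht1 X Y).mono_of_mem_nhdsWithin ?_
    rw [mem_nhdsWithin]
    exact ⟨Iio (t + 1), isOpen_Iio, by simp, fun r hr => ⟨hr.2, (le_of_lt hr.1)⟩⟩
  refine ⟨fun t => gm b (x t), by simp only [hx0, gm_of], fun t ht => (hloc t ht).2,
    fun X Y => ?_, fun t ht => (hloc t ht).1⟩
  have hs := ode_smooth_Ici (contDiffOn_rhs (br := br) (J := J) b (n := (⊤ : ℕ∞))) hxd hxU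
  intro t ht
  exact (contDiffAt_gm b X Y (x t)).comp_contDiffWithinAt t (hs t ht)

end PFL
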