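import Pool.Agent.PFL.A11

/-!
# [PFL-A12] the Bismut connection as an operator and its Ricci form
-/

open scoped BigOperators

namespace PFL

variable {V : Type*} [AddCommGroup V] [Module ℝ V]
variable {br : V →ₗ[ℝ] V →ₗ[ℝ] V} {J : V →ₗ[ℝ] V} {g : V →ₗ[ℝ] V →ₗ[ℝ] ℝ}
variable {m : ℕ} {e : Module.Basis (Fin m) ℝ V}

/-- the Bismut connection -/
noncomputable def LamM (br : V →ₗ[ℝ] V →ₗ[ℝ] V) (J : V →ₗ[ℝ] V) (g : V →ₗ[ℝ] V →ₗ[ℝ] ℝ)
    (e : Module.Basis (Fin m) ℝ V) : V →ₗ[ℝ] V →ₗ[ℝ] V :=
  LinearMap.mk₂ ℝ (fun X Y => ∑ k, af br J g X Y (e k) • e k)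
    (fun X X' Y => by
      rw [← Finset.sum_add_distrib]
      refine Finset.sum_congr rfl fun k _ => ?_
      rw [← add_smul]
      congr 1
      unfold af Cf
      simp only [map_add, LinearMap.add_apply]
      ring)
    (fun c X Y => by
      rw [Finset.smul_sum]
      refine Finset.sum_congr rfl fun k _ => ?_
      rw [smul_smul]
      congr 1
      unfold af Cf
      simp only [map_smul, LinearMap.smul_apply, smul_eq_mul]
      ring)
    (fun X Y Y' => by
      rw [← Finset.sum_add_distrib]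
      refine Finset.sum_congr rfl fun k _ => ?_
      rw [← add_smul]
      congr 1
      unfold af Cf
      simp only [map_add, LinearMap.add_apply]
      ring)
    (fun c X Y => by
      rw [Finset.smul_sum]
      refine Finset.sum_congr rfl fun k _ => ?_
      rw [smul_smul]
      congr 1
      unfold af Cf
      simp only [map_smul, LinearMap.smul_apply, smul_eq_mul]
      ring)

theorem LamM_apply (X Y : V) : LamM br J g e X Y = ∑ k, af br J g X Y (e k) • e k := rfl

theorem LamM_g (hg : Met J g) (he : Orth g e) (X Y Z : V) :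
    g (LamM br J g e X Y) Z = af br J g X Y Z := by
  have h : af br J g X Y Z = afR br J g X Y Z := rfl
  rw [h, orth_lin he (afR br J g X Y) Z, LamM_apply, map_sum, LinearMap.sum_apply]
  refine Finset.sum_congr rfl fun k _ => ?_
  rw [map_smul, LinearMap.smul_apply, smul_eq_mul, smul_eq_mul, hg.symm (e k) Z, mul_comm]
  rfl

theorem LamM_J (hJ : CStr br J) (hg : Met J g) (he : Orth g e) (X Y : V) :
    LamM br J g e X (J Y) = J (LamM br J g e X Y) := by
  apply eq_of_g hg
  intro Z
  rw [LamM_g hg he, af_J hJ hg, gJ hJ hg, LamM_g hg he]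

theorem trace_LamM (hb : LieB br) (hJ : CStr br J) (hg : Met J g) (he : Orth g e)
    (b : Module.Basis (Fin m) ℝ V) (X : V) :
    LinearMap.trace ℝ V (J ∘ₗ LamM br J g e X) = 2 * eta b br J g X := by
  rw [eta_orth he b, ← eta_af hb hJ hg he, trace_orth he]
  rw [← mul_assoc, mul_one_div_cancel (two_ne_zero), one_mul]
  refine Finset.sum_congr rfl fun i _ => ?_
  rw [LinearMap.comp_apply, ← LamM_J hJ hg he, LamM_g hg he]

/-- the Ricci form of the Bismut connection is `dη` -/
theorem trace_curv (hb : LieB br) (hJ : CStr br J) (hg : Met J g) (he : Orth g e)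
    (b : Module.Basis (Fin m) ℝ V) (X Y : V) :
    LinearMap.trace ℝ V (J ∘ₗ (LamM br J g e X ∘ₗ LamM br J g e Y
      - LamM br J g e Y ∘ₗ LamM br J g e X - LamM br J g e (br X Y)))
      = -(2 * eta b br J g (br X Y)) := by
  rw [LinearMap.comp_sub, LinearMap.comp_sub, map_sub, map_sub, trace_LamM hb hJ hg he b]
  have h1 : J ∘ₗ (LamM br J g e X ∘ₗ LamM br J g e Y)
      = LamM br J g e X ∘ₗ (J ∘ₗ LamM br J g e Y) := by
    ext Z
    simp only [LinearMap.comp_apply]
    rw [LamM_J hJ hg he]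
  have h2 : LinearMap.trace ℝ V (LamM br J g e X ∘ₗ (J ∘ₗ LamM br J g e Y))
      = LinearMap.trace ℝ V ((J ∘ₗ LamM br J g e Y) ∘ₗ LamM br J g e X) :=
    LinearMap.trace_mul_comm ℝ _ _
  rw [h1, h2, LinearMap.comp_assoc, sub_self, zero_sub]

theorem sum_repr_trace (b : Module.Basis (Fin m) ℝ V) (F : V →ₗ[ℝ] V) :
    ∑ k, b.repr (F (b k)) k = LinearMap.trace ℝ V F := by
  classical
  rw [LinearMap.trace_eq_matrix_trace ℝ b, Matrix.trace]
  refine Finset.sum_congr rfl fun k _ => ?_
  rw [Matrix.diag_apply, LinearMap.toMatrix_apply]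

end PFL
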