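import Mathlib

/-!
# Pluriclosed flow on a compact quotient of a Lie group: the definitions

`G` is a real Lie group, `Γ` a discrete subgroup, `M = Γ\G` the quotient by left translations.
The left-invariant vector fields of `G` descend to `M` and trivialise its tangent bundle, so a
smooth tensor field on `M` is the same as a `Γ`-invariant smooth tensor field on `G`, that is a
function on `G` with values in the tensors of the Lie algebra `V` of `G`, whose components are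
smooth and `Γ`-invariant.  The vectors `X Y Z W` below stand for left-invariant vector fields.

`J` is a left-invariant integrable almost complex structure; it makes `M` a complex manifold.
Nothing else in this file is left-invariant: all forms, metrics and connections are arbitrary
smooth ones on `M`.

The definitions are written for the four pieces of data collected in `Geo`; `quot Γ` is `Γ\G`.
-/

open scoped Manifold

namespace PFG

/-- The data through which the differential geometry of `M = Γ\G` enters the definitions below.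
`V` is the space of left-invariant vector fields and functions on `M` are functions on `G`. -/
structure Geo (V G : Type*) where
  /-- the Lie bracket of vector fields -/
  bk : V → V → V
  /-- the derivative `D X f` of the function `f` along the vector field `X` -/
  D : V → (G → ℝ) → G → ℝ
  /-- the smooth functions on `M` -/
  Sm : (G → ℝ) → Prop
  /-- the smooth functions on `[0, T) × M` -/
  SmT : EReal → (ℝ → G → ℝ) → Prop

variable {V G : Type*} [AddCommGroup V] [Module ℝ V]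

/-- the exterior derivative of a 1-form -/
noncomputable def d1 (M : Geo V G) (b : G → V → ℝ) (x : G) (X Y : V) : ℝ :=
  M.D X (fun y => b y Y) x - M.D Y (fun y => b y X) x - b x (M.bk X Y)

/-- the exterior derivative of a 2-form -/
noncomputable def d2 (M : Geo V G) (w : G → V → V → ℝ) (x : G) (X Y Z : V) : ℝ :=
  M.D X (fun y => w y Y Z) x - M.D Y (fun y => w y X Z) x + M.D Z (fun y => w y X Y) x
    - w x (M.bk X Y) Z + w x (M.bk X Z) Y - w x (M.bk Y Z) X

/-- the exterior derivative of a 3-form -/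
noncomputable def d3 (M : Geo V G) (c : G → V → V → V → ℝ) (x : G) (X Y Z W : V) : ℝ :=
  M.D X (fun y => c y Y Z W) x - M.D Y (fun y => c y X Z W) x
    + M.D Z (fun y => c y X Y W) x - M.D W (fun y => c y X Y Z) x
    - c x (M.bk X Y) Z W + c x (M.bk X Z) Y W - c x (M.bk X W) Y Z
    - c x (M.bk Y Z) X W + c x (M.bk Y W) X Z - c x (M.bk Z W) X Y

/-- `d^c w = -dw(J·, J·, J·)` for a real (1,1)-form `w`; `dd^c` is `2i∂∂̄` -/
noncomputable def dc (M : Geo V G) (J : V →ₗ[ℝ] V) (w : G → V → V → ℝ) (x : G) (X Y Z : V) : ℝ :=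
  -d2 M w x (J X) (J Y) (J Z)

/-- `J` is a complex structure: `J² = -1` and the Nijenhuis tensor vanishes -/
structure IsComplex (M : Geo V G) (J : V →ₗ[ℝ] V) : Prop where
  sq : ∀ X, J (J X) = -X
  nijenhuis : ∀ X Y, M.bk (J X) (J Y) - M.bk X Y - J (M.bk (J X) Y) - J (M.bk X (J Y)) = 0

/-- `ω` is a pluriclosed metric on `M`: a smooth real (1,1)-form which is positive definite
and satisfies `∂∂̄ω = 0`.  Its Riemannian metric is `g(X, Y) = ω(X, JY)`. -/
structure IsPluriclosed (M : Geo V G) (J : V →ₗ[ℝ] V) (ω : G → V →ₗ[ℝ] V →ₗ[ℝ] ℝ) : Prop where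
  smooth : ∀ X Y, M.Sm (fun x => ω x X Y)
  skew : ∀ x X Y, ω x X Y = -ω x Y X
  type11 : ∀ x X Y, ω x (J X) (J Y) = ω x X Y
  pos : ∀ x X, X ≠ 0 → 0 < ω x X (J X)
  ddc : ∀ x X Y Z W, d3 M (dc M J (fun y A B => ω y A B)) x X Y Z W = 0

/-- `Λ` is the Bismut connection of `ω`: the connection `∇` on `TM` with `∇_X Y = Λ(X)Y` for
left-invariant `X`, `Y` is smooth, satisfies `∇g = 0` and `∇J = 0`, and the tensor
`g(T(X,Y),Z)`, `T` its torsion, is totally skew-symmetric -/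
structure IsBismut (M : Geo V G) (J : V →ₗ[ℝ] V) (ω : G → V →ₗ[ℝ] V →ₗ[ℝ] ℝ)
    (Λ : G → V →ₗ[ℝ] V →ₗ[ℝ] V) : Prop where
  smooth : ∀ (φ : V →ₗ[ℝ] ℝ) (X Y : V), M.Sm (fun x => φ (Λ x X Y))
  metric : ∀ x X Y Z, M.D X (fun y => ω y Y (J Z)) x
    = ω x (Λ x X Y) (J Z) + ω x Y (J (Λ x X Z))
  complex : ∀ x X Y, Λ x X (J Y) = J (Λ x X Y)
  torsion : ∀ x X Y Z, ω x (Λ x X Y - Λ x Y X - M.bk X Y) (J Z)
    = -ω x (Λ x X Z - Λ x Z X - M.bk X Z) (J Y)

/-- the value `φ(R(X,Y)Z)` of a linear form on `R(X,Y)Z = ∇_X ∇_Y Z - ∇_Y ∇_X Z - ∇_[X,Y] Z`,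
`R` the curvature of the connection `Λ` -/
noncomputable def curv (M : Geo V G) (Λ : G → V →ₗ[ℝ] V →ₗ[ℝ] V) (x : G) (X Y Z : V)
    (φ : V →ₗ[ℝ] ℝ) : ℝ :=
  (M.D X (fun y => φ (Λ y Y Z)) x + φ (Λ x X (Λ x Y Z)))
    - (M.D Y (fun y => φ (Λ y X Z)) x + φ (Λ x Y (Λ x X Z))) - φ (Λ x (M.bk X Y) Z)

/-- the Ricci form `ρ(X,Y) = tr(J R(X,Y)) / 2` of the connection `Λ`, the trace computed in a
basis of `V`; for the Levi-Civita connection of a Kähler metric it is `Ric(JX, Y)` -/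
noncomputable def ricciForm [Module.Finite ℝ V] (M : Geo V G) (J : V →ₗ[ℝ] V) (Λ : G → V →ₗ[ℝ] V →ₗ[ℝ] V) (x : G)
    (X Y : V) : ℝ :=
  (∑ k, curv M Λ x X Y (Module.finBasis ℝ V k) ((Module.finBasis ℝ V).coord k ∘ₗ J)) / 2

/-- the (1,1)-part of a real 2-form -/
noncomputable def part11 (J : V →ₗ[ℝ] V) (w : G → V → V → ℝ) (x : G) (X Y : V) : ℝ :=
  (w x X Y + w x (J X) (J Y)) / 2

/-- `ω` is a smooth solution of the pluriclosed flow `∂ω/∂t = -ρ_B(ω)^{1,1}` on `[0, T) × M` -/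
structure IsFlow [Module.Finite ℝ V] (M : Geo V G) (J : V →ₗ[ℝ] V) (T : EReal)
    (ω : ℝ → G → V →ₗ[ℝ] V →ₗ[ℝ] ℝ) : Prop where
  metric : ∀ t : ℝ, 0 ≤ t → t < T → IsPluriclosed M J (ω t)
  smooth : ∀ X Y, M.SmT T (fun t x => ω t x X Y)
  eqn : ∀ t : ℝ, 0 ≤ t → t < T → ∃ Λ, IsBismut M J (ω t) Λ ∧
    ∀ x X Y, HasDerivWithinAt (fun s => ω s x X Y) (-part11 J (ricciForm M J Λ) x X Y)
      (Set.Ici 0) t

/-- the first singular time `T(ω₀)`: the supremum of the `T` such that a smooth solution on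
`[0, T) × M` starting at `ω₀` exists -/
noncomputable def singTime [Module.Finite ℝ V] (M : Geo V G) (J : V →ₗ[ℝ] V)
    (ω₀ : G → V →ₗ[ℝ] V →ₗ[ℝ] ℝ) : EReal :=
  sSup {T | 0 < T ∧ ∃ ω, IsFlow M J T ω ∧ ω 0 = ω₀}

/-- the Aeppli class of the real (1,1)-form `α` on `M` lies in the positive cone: some
`α + (db)^{1,1}`, `b` a smooth real 1-form on `M`, is a pluriclosed metric.  (With `β` the
(1,0)-part of `b`, `(db)^{1,1} = ∂̄β + ∂β̄`, and every real form `∂̄β + ∂β̄` is of this kind.) -/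
def AeppliPos (M : Geo V G) (J : V →ₗ[ℝ] V) (α : G → V → V → ℝ) : Prop :=
  ∃ (b : G → V →ₗ[ℝ] ℝ) (ω : G → V →ₗ[ℝ] V →ₗ[ℝ] ℝ),
    (∀ X, M.Sm (fun x => b x X)) ∧ IsPluriclosed M J ω ∧
    ∀ x X Y, ω x X Y = α x X Y + part11 J (d1 M (fun y A => b y A)) x X Y

/-- the cohomological bound `τ*(ω₀) = sup {t ≥ 0 : [ω₀] - t [ρ_B(ω₀)^{1,1}] ∈ P}` -/
noncomputable def tauStar [Module.Finite ℝ V] (M : Geo V G) (J : V →ₗ[ℝ] V)
    (ω₀ : G → V →ₗ[ℝ] V →ₗ[ℝ] ℝ) : EReal :=
  sSup {τ | ∃ t : ℝ, 0 ≤ t ∧ τ = t ∧ ∃ Λ, IsBismut M J ω₀ Λ ∧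
    AeppliPos M J (fun x X Y => ω₀ x X Y - t * part11 J (ricciForm M J Λ) x X Y)}

/-! ### The compact quotient `Γ\G` of a Lie group -/

/-- the Lie algebra of the Lie group `G` (a manifold modelled on `E`) -/
abbrev Lie (E G : Type*) [NormedAddCommGroup E] [NormedSpace ℝ E] [TopologicalSpace G]
    [ChartedSpace E G] [Group G] : Type _ := GroupLieAlgebra 𝓘(ℝ, E) G

instance (E G : Type*) [NormedAddCommGroup E] [NormedSpace ℝ E] [FiniteDimensional ℝ E]
    [TopologicalSpace G] [ChartedSpace E G] [Group G] : Module.Finite ℝ (Lie E G) :=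
  inferInstanceAs (Module.Finite ℝ E)

/-- `M = Γ\G`: the bracket of left-invariant vector fields, the derivative along them, and the
`Γ`-invariant smooth functions on `G` and on `[0, T) × G` -/
noncomputable def quot {E G : Type*} [NormedAddCommGroup E] [NormedSpace ℝ E]
    [TopologicalSpace G] [ChartedSpace E G] [Group G] (Γ : Subgroup G) : Geo (Lie E G) G where
  bk X Y := ⁅X, Y⁆
  D X f x := mfderiv 𝓘(ℝ, E) 𝓘(ℝ, ℝ) f x (mulInvariantVectorField X x)
  Sm f := ContMDiff 𝓘(ℝ, E) 𝓘(ℝ, ℝ) (⊤ : ℕ∞) f ∧ ∀ γ ∈ Γ, ∀ x, f (γ * x) = f x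
  SmT T f := ContMDiffOn (𝓘(ℝ, ℝ).prod 𝓘(ℝ, E)) 𝓘(ℝ, ℝ) (⊤ : ℕ∞) (fun p : ℝ × G => f p.1 p.2)
    ({t : ℝ | 0 ≤ t ∧ t < T} ×ˢ Set.univ)

end PFG
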