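import Pool.Agent.PFL.A12
import Pool.Agent.PFL.GDefs

/-!
# [PFL-A13] constant tensors in a global frame with a Lie bracket
-/

open scoped BigOperators

namespace PFG

open PFL

variable {V G : Type*} [AddCommGroup V] [Module ℝ V]

/-- `M` has a frame with a Lie bracket; constants behave as constants -/
structure Good (M : Geo V G) (br : V →ₗ[ℝ] V →ₗ[ℝ] V) : Prop where
  lie : LieB br
  bk : ∀ X Y, M.bk X Y = br X Y
  D : ∀ X c x, M.D X (fun _ => c) x = 0
  Sm : ∀ c, M.Sm (fun _ => c)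
  SmT : ∀ T f, ContDiffOn ℝ (⊤ : ℕ∞) f (Set.Ici 0) → M.SmT T (fun t _ => f t)

variable {M : Geo V G} {br : V →ₗ[ℝ] V →ₗ[ℝ] V} {J : V →ₗ[ℝ] V}

theorem cStr (hM : Good M br) (hJ : IsComplex M J) : CStr br J where
  sq := hJ.sq
  int X Y := by
    have h := hJ.nijenhuis X Y
    simp only [hM.bk] at h
    have h2 : br (J X) (J Y) = (br (J X) (J Y) - br X Y - J (br (J X) Y) - J (br X (J Y)))
        + (br X Y + J (br (J X) Y) + J (br X (J Y))) := by abel
    rw [h2, h, zero_add]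

/-- `g(X,Y) = w(X,JY)` -/
noncomputable def gOf (J : V →ₗ[ℝ] V) (w : V →ₗ[ℝ] V →ₗ[ℝ] ℝ) : V →ₗ[ℝ] V →ₗ[ℝ] ℝ := w.compl₂ J

/-- `w(X,Y) = g(JX,Y)` -/
noncomputable def wOf (J : V →ₗ[ℝ] V) (g : V →ₗ[ℝ] V →ₗ[ℝ] ℝ) : V →ₗ[ℝ] V →ₗ[ℝ] ℝ := g.comp J

theorem wOf_gOf {w : V →ₗ[ℝ] V →ₗ[ℝ] ℝ} (h : ∀ X Y, w (J X) (J Y) = w X Y) :
    wOf J (gOf J w) = w := by
  ext X Y
  show w (J X) (J Y) = w X Y
  exact h X Y

/-- the forms `d^c ω` and `dd^c ω` of a constant `ω` -/
theorem ddc_const (hM : Good M br) (w : V →ₗ[ℝ] V →ₗ[ℝ] ℝ) (x : G) (X Y Z W : V) :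
    d3 M (dc M J (fun _ A B => w A B)) x X Y Z W
      = Cf br J (gOf J w) (br X Y) Z W - Cf br J (gOf J w) (br X Z) Y W
        + Cf br J (gOf J w) (br X W) Y Z + Cf br J (gOf J w) (br Y Z) X W
        - Cf br J (gOf J w) (br Y W) X Z + Cf br J (gOf J w) (br Z W) X Y := by
  have hdc : ∀ (y : G) (A B C : V), dc M J (fun _ A B => w A B) y A B C
      = -Cf br J (gOf J w) A B C := by
    intro y A B C
    unfold dc d2 Cf gOf
    simp only [hM.D, LinearMap.compl₂_apply, hM.bk]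
    rw [hM.lie.skew (J A) (J C)]
    simp only [map_neg, LinearMap.neg_apply]
    ring
  unfold d3
  simp only [hdc, hM.D, hM.bk]
  ring

theorem met_of [Nonempty G] (hM : Good M br) (hJ : IsComplex M J) {w : V →ₗ[ℝ] V →ₗ[ℝ] ℝ}
    (hw : IsPluriclosed M J (fun _ => w)) :
    Met J (gOf J w) ∧ Closed br J (gOf J w) := by
  obtain ⟨x⟩ := (inferInstance : Nonempty G)
  have h11 := fun X Y => hw.type11 x X Y
  have hsk := fun X Y => hw.skew x X Y
  refine ⟨⟨fun X Y => ?_, fun X Y => ?_, fun X hX => ?_⟩, fun X Y Z W => ?_⟩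
  · show w X (J Y) = w Y (J X)
    have h1 := h11 X (J Y)
    rw [hJ.sq, map_neg] at h1
    have h2 := hsk Y (J X)
    have h3 : w (J X) Y = -w X (J Y) := by linarith
    linarith
  · show w (J X) (J (J Y)) = w X (J Y)
    exact h11 X (J Y)
  · exact hw.pos x X hX
  · rw [← ddc_const hM w x X Y Z W]
    exact hw.ddc x X Y Z W

theorem pluri_of (hM : Good M br) (hJ : IsComplex M J)
    {g : V →ₗ[ℝ] V →ₗ[ℝ] ℝ} (hg : Met J g) (hc : Closed br J g) :
    IsPluriclosed M J (fun _ => wOf J g) := by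
  have hsk : ∀ X Y, wOf J g X Y = -wOf J g Y X := by
    intro X Y
    show g (J X) Y = -g (J Y) X
    rw [gJ (cStr hM hJ) hg, hg.symm X (J Y)]
  have h11 : ∀ X Y, wOf J g (J X) (J Y) = wOf J g X Y := by
    intro X Y
    show g (J (J X)) (J Y) = g (J X) Y
    exact hg.herm (J X) Y
  have hgg : gOf J (wOf J g) = g := by
    ext X Y
    show g (J X) (J Y) = g X Y
    exact hg.herm X Y
  refine ⟨fun X Y => hM.Sm _, fun _ => hsk, fun _ => h11, fun _ X hX => ?_,
    fun x X Y Z W => ?_⟩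
  · show 0 < g (J X) (J X)
    rw [hg.herm]; exact hg.pos X hX
  · have := ddc_const (J := J) hM (wOf J g) x X Y Z W
    rw [hgg] at this
    exact this.trans (hc X Y Z W)

variable {m : ℕ}

/-- the algebraic Bismut connection is the Bismut connection -/
theorem bismut_of (hM : Good M br) (hJ : IsComplex M J)
    {g : V →ₗ[ℝ] V →ₗ[ℝ] ℝ} (hg : Met J g) {e : Module.Basis (Fin m) ℝ V} (he : Orth g e) :
    IsBismut M J (fun _ => wOf J g) (fun _ => LamM br J g e) := by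
  have hω : ∀ A B : V, wOf J g A (J B) = g A B := by
    intro A B
    show g (J A) (J B) = g A B
    exact hg.herm A B
  refine ⟨fun φ X Y => hM.Sm _, fun x X Y Z => ?_, fun x X Y => LamM_J (cStr hM hJ) hg he X Y,
    fun x X Y Z => ?_⟩
  · rw [hM.D, hω, hω, LamM_g hg he, hg.symm Y, LamM_g hg he, af_skew hM.lie X Y Z]
    ring
  · rw [hω, hω]
    have h1 : ∀ A B C : V, g (LamM br J g e A B - LamM br J g e B A - M.bk A B) C
        = Cf br J g A B C := by
      intro A B C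
      have h := br_eq_af (J := J) (g := g) hM.lie A B C
      rw [hM.bk]
      simp only [map_sub, LinearMap.sub_apply]
      rw [LamM_g hg he, LamM_g hg he, h]
      ring
    rw [h1, h1, Cf_swap' hM.lie]

/-- its Ricci form is `dη` -/
theorem ricci_of [Module.Finite ℝ V] (hM : Good M br) (hJ : IsComplex M J)
    {g : V →ₗ[ℝ] V →ₗ[ℝ] ℝ} (hg : Met J g) {e : Module.Basis (Fin m) ℝ V} (he : Orth g e)
    (b : Module.Basis (Fin m) ℝ V) (x : G) (X Y : V) :
    ricciForm M J (fun _ => LamM br J g e) x X Y = -eta b br J g (br X Y) := by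
  unfold ricciForm curv
  simp only [hM.D, zero_add, hM.bk, LinearMap.comp_apply, Module.Basis.coord_apply]
  have h := sum_repr_trace (Module.finBasis ℝ V) (J ∘ₗ (LamM br J g e X ∘ₗ LamM br J g e Y
      - LamM br J g e Y ∘ₗ LamM br J g e X - LamM br J g e (br X Y)))
  rw [trace_curv hM.lie (cStr hM hJ) hg he b] at h
  simp only [LinearMap.comp_apply, LinearMap.sub_apply, map_sub, Finsupp.sub_apply] at h
  rw [h]
  ring

/-- a global constant solution -/
theorem exists_flow [Nonempty G] [Module.Finite ℝ V] (hM : Good M br) (hJ : IsComplex M J)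
    {w : V →ₗ[ℝ] V →ₗ[ℝ] ℝ} (hw : IsPluriclosed M J (fun _ => w)) :
    ∃ W : ℝ → V →ₗ[ℝ] V →ₗ[ℝ] ℝ, IsFlow M J ⊤ (fun t _ => W t) ∧ W 0 = w := by
  obtain ⟨hg, hc⟩ := met_of hM hJ hw
  obtain ⟨gt, hg0, hmc, hsm, hd⟩ := core hM.lie (cStr hM hJ) (Module.finBasis ℝ V) hg hc
  refine ⟨fun t => wOf J (gt t), ⟨fun t ht _ => pluri_of hM hJ (hmc t ht).1 (hmc t ht).2,
    fun X Y => hM.SmT _ _ (hsm (J X) Y), fun t ht _ => ?_⟩, ?_⟩
  · obtain ⟨e, he⟩ := exists_orth (Module.finBasis ℝ V) (hmc t ht).1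
    refine ⟨fun _ => LamM br J (gt t) e, bismut_of hM hJ (hmc t ht).1 he, fun x X Y => ?_⟩
    have h := hd t ht (J X) Y
    have h3 : -part11 J (ricciForm M J (fun _ => LamM br J (gt t) e)) x X Y
        = Fg (Module.finBasis ℝ V) br J (gt t) (J X) Y := by
      unfold part11
      rw [ricci_of hM hJ (hmc t ht).1 he (Module.finBasis ℝ V),
        ricci_of hM hJ (hmc t ht).1 he (Module.finBasis ℝ V), Fg_eq_gaM, gaM_apply,
        hJ.sq, hM.lie.skew Y (-X), etaL_apply]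
      simp only [map_neg, LinearMap.neg_apply, neg_neg, etaL_apply]
      ring
    rw [h3]
    exact h
  · show wOf J (gt 0) = w
    rw [hg0]
    obtain ⟨x⟩ := (inferInstance : Nonempty G)
    exact wOf_gOf (fun X Y => hw.type11 x X Y)

/-- `T(ω₀) = ∞` -/
theorem singTime_top [Nonempty G] [Module.Finite ℝ V] (hM : Good M br) (hJ : IsComplex M J)
    {w : V →ₗ[ℝ] V →ₗ[ℝ] ℝ} (hw : IsPluriclosed M J (fun _ => w)) :
    singTime M J (fun _ => w) = ⊤ := by
  obtain ⟨W, hW, hW0⟩ := exists_flow hM hJ hw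
  refine top_le_iff.1 (le_sSup ⟨by simp, fun t _ => W t, hW, ?_⟩)
  funext x
  exact hW0

/-- `τ*(ω₀) = ∞` -/
theorem tauStar_top [Nonempty G] [Module.Finite ℝ V] (hM : Good M br) (hJ : IsComplex M J)
    {w : V →ₗ[ℝ] V →ₗ[ℝ] ℝ} (hw : IsPluriclosed M J (fun _ => w)) :
    tauStar M J (fun _ => w) = ⊤ := by
  obtain ⟨hg, hc⟩ := met_of hM hJ hw
  obtain ⟨e, he⟩ := exists_orth (Module.finBasis ℝ V) hg
  obtain ⟨x⟩ := (inferInstance : Nonempty G)
  have hww : wOf J (gOf J w) = w := wOf_gOf (fun X Y => hw.type11 x X Y)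
  have hB := bismut_of hM hJ hg he
  rw [hww] at hB
  have key : ∀ t : ℝ, 0 ≤ t → (t : EReal) ≤ tauStar M J (fun _ => w) := by
    intro t ht
    refine le_sSup ⟨t, ht, rfl, _, hB, ?_⟩
    refine ⟨fun _ => t • etaL (Module.finBasis ℝ V) br J (gOf J w), fun _ => w,
      fun X => hM.Sm _, hw, fun x X Y => ?_⟩
    unfold part11 d1
    simp only [ricci_of hM hJ hg he (Module.finBasis ℝ V), hM.D, hM.bk, LinearMap.smul_apply,
      smul_eq_mul, etaL_apply]
    ring
  rw [← top_le_iff]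
  refine le_of_forall_lt fun c hc' => ?_
  induction c with
  | bot => exact lt_of_lt_of_le (by simp) (key 0 le_rfl)
  | coe r =>
    refine lt_of_lt_of_le ?_ (key (max r 0 + 1) (by positivity))
    exact_mod_cast lt_of_le_of_lt (le_max_left r 0) (lt_add_one _)
  | top => exact absurd hc' (lt_irrefl _)

end PFG
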