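import Pool.Agent.PFL.A13

/-!
# [PFL-A14] the frame of left-invariant vector fields on `Γ\G`
-/

open scoped Manifold

namespace PFG

open PFL

variable {E : Type*} [NormedAddCommGroup E] [NormedSpace ℝ E]
  {G : Type*} [TopologicalSpace G] [ChartedSpace E G] [Group G]
  [CompleteSpace E] [LieGroup 𝓘(ℝ, E) (minSmoothness ℝ 3) G]

/-- the bracket as a bilinear map -/
noncomputable def brL : Lie E G →ₗ[ℝ] Lie E G →ₗ[ℝ] Lie E G :=
  LinearMap.mk₂ ℝ (fun X Y => ⁅X, Y⁆) add_lie (fun c X Y => smul_lie c X Y) lie_add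
    (fun c X Y => lie_smul c X Y)

theorem brL_apply (X Y : Lie E G) : brL X Y = ⁅X, Y⁆ := rfl

theorem good_quot (Γ : Subgroup G) : Good (quot (E := E) Γ) (brL : Lie E G →ₗ[ℝ] _) where
  lie := ⟨fun X Y => by rw [brL_apply, brL_apply]; exact (lie_skew X Y).symm,
    fun X Y Z => by simp only [brL_apply]; exact leibniz_lie X Y Z⟩
  bk _ _ := rfl
  D X c x := by
    show (mfderiv 𝓘(ℝ, E) 𝓘(ℝ, ℝ) (fun _ => c) x) (mulInvariantVectorField X x) = 0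
    rw [mfderiv_const]
    rfl
  Sm c := ⟨contMDiff_const, fun _ _ _ => rfl⟩
  SmT T f hf := by
    have h2 : ContMDiffOn 𝓘(ℝ, ℝ) 𝓘(ℝ, ℝ) (⊤ : ℕ∞) f (Set.Ici 0) := hf.contMDiffOn
    exact h2.comp (contMDiff_fst (I := 𝓘(ℝ, ℝ)) (J := 𝓘(ℝ, E)) (M := ℝ) (N := G)).contMDiffOn
      (fun p hp => hp.1.1)

end PFG
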