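import Pool.Agent.PFL.A1

/-!
# [PFL-A2] the Bianchi identity
-/

open scoped BigOperators

namespace PFL

variable {V : Type*} [AddCommGroup V] [Module ℝ V]
variable {br : V →ₗ[ℝ] V →ₗ[ℝ] V} {J : V →ₗ[ℝ] V} {g : V →ₗ[ℝ] V →ₗ[ℝ] ℝ}

theorem Cf_add (X X' Y Z : V) : Cf br J g (X + X') Y Z = Cf br J g X Y Z + Cf br J g X' Y Z := by
  unfold Cf
  simp only [map_add, LinearMap.add_apply]
  ring

theorem Cf_smul (c : ℝ) (X Y Z : V) : Cf br J g (c • X) Y Z = c * Cf br J g X Y Z := by
  unfold Cf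
  simp only [map_smul, LinearMap.smul_apply, smul_eq_mul]
  ring

theorem tf_cyc (X Y Z : V) : tf br J g Y Z X = tf br J g X Y Z := by
  unfold tf
  rw [Cf_cyc]
  ring

theorem tf_add (X X' Y Z : V) : tf br J g (X + X') Y Z = tf br J g X Y Z + tf br J g X' Y Z := by
  unfold tf
  rw [Cf_add]
  simp only [map_add, LinearMap.add_apply]
  ring

theorem tf_smul (c : ℝ) (X Y Z : V) : tf br J g (c • X) Y Z = c * tf br J g X Y Z := by
  unfold tf
  rw [Cf_smul]
  simp only [map_smul, LinearMap.smul_apply, smul_eq_mul]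
  ring

theorem tf_swap (hb : LieB br) (X Y Z : V) : tf br J g Y X Z = -tf br J g X Y Z := by
  unfold tf
  rw [Cf_swap hb, hb.skew Y X, hb.skew X Z, hb.skew Z Y]
  simp only [map_neg, LinearMap.neg_apply]
  ring

theorem tf_sub_af (X Y Z : V) : tf br J g X Y Z - af br J g X Y Z = g (br Y Z) X := by
  unfold tf af
  ring

theorem eq_of_g (hg : Met J g) {X Y : V} (h : ∀ Z, g X Z = g Y Z) : X = Y := by
  by_contra hne
  have h1 : X - Y ≠ 0 := sub_ne_zero.2 hne
  have h2 := hg.pos _ h1
  have h3 : g (X - Y) (X - Y) = 0 := by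
    rw [show g (X - Y) = g X - g Y from map_sub _ _ _, LinearMap.sub_apply, h (X - Y), sub_self]
  linarith

/-- `∑_cyc g([Q,X], ∇⁻_P u)` against the derivative of `tf` along `ad u` -/
theorem bianchi_aux (hb : LieB br) (hg : Met J g) (hc : Closed br J g) (u P Q X : V) :
    tf br J g (br u P) Q X + tf br J g (br u Q) X P + tf br J g (br u X) P Q
      + Nf br J g u P (br Q X) + Nf br J g u Q (br X P) + Nf br J g u X (br P Q) = 0 := by
  have hcl := hc u P Q X
  have c1 : Cf br J g P u (br Q X) = Cf br J g (br Q X) P u := Cf_cyc _ _ _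
  have c2 : Cf br J g Q u (br X P) = Cf br J g (br X P) Q u := Cf_cyc _ _ _
  have c3 : Cf br J g X u (br P Q) = Cf br J g (br P Q) X u := Cf_cyc _ _ _
  have d1 : Cf br J g (br Q X) u P = -Cf br J g (br Q X) P u := Cf_swap' hb _ _ _
  have d2 : Cf br J g (br P X) u Q = Cf br J g (br X P) Q u := by
    rw [hb.skew P X]
    have : Cf br J g (-br X P) u Q = -Cf br J g (br X P) u Q := by
      have := Cf_smul (br := br) (J := J) (g := g) (-1) (br X P) u Q
      simpa using this
    rw [this, Cf_swap' hb (br X P) Q u]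
    ring
  have d3 : Cf br J g (br P Q) u X = -Cf br J g (br P Q) X u := Cf_swap' hb _ _ _
  have d4 : Cf br J g (br u Q) P X = -Cf br J g (br u Q) X P := Cf_swap' hb _ _ _
  have j1 := congrArg (fun W => g W X) (hb.jac u P Q)
  have j2 := congrArg (fun W => g W P) (hb.jac u Q X)
  have j3 := congrArg (fun W => g W Q) (hb.jac u X P)
  have j4 := congrArg (fun W => g W u) (hb.jac P Q X)
  simp only [map_add, LinearMap.add_apply] at j1 j2 j3 j4
  have s1 : g (br X (br u P)) Q = -g (br (br u P) X) Q := by rw [hb.skew X]; simp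
  have s2 : g (br P (br u Q)) X = -g (br (br u Q) P) X := by rw [hb.skew P]; simp
  have s3 : g (br Q (br u X)) P = -g (br (br u X) Q) P := by rw [hb.skew Q]; simp
  have s4 : g (br P (br Q X)) u = -g (br (br Q X) P) u := by rw [hb.skew P]; simp
  have s5 : g (br Q (br P X)) u = g (br (br X P) Q) u := by
    rw [hb.skew P X, map_neg, hb.skew Q]; simp
  have t1 : g (br P u) (br Q X) = -g (br Q X) (br u P) := by
    rw [hb.skew P u, hg.symm]; simp
  have t2 : g (br Q u) (br X P) = -g (br X P) (br u Q) := by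
    rw [hb.skew Q u, hg.symm]; simp
  have t3 : g (br X u) (br P Q) = -g (br P Q) (br u X) := by
    rw [hb.skew X u, hg.symm]; simp
  unfold Nf af tf
  linarith

/-- the Bianchi identity of the Courant algebroid -/
theorem bianchi (hb : LieB br) (hg : Met J g) (hc : Closed br J g) {u : V} {Nh Au : V →ₗ[ℝ] V}
    (hN : ∀ X Y, g (Nh X) Y = Nf br J g u X Y) (hA : ∀ X Y, g (Au X) Y = af br J g u X Y)
    (P Q X : V) :
    tf br J g (Au P) Q X + tf br J g P (Au Q) X + tf br J g P Q (Au X)
      = af br J g (Nh P) Q X + af br J g (Nh Q) X P + af br J g (Nh X) P Q := by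
  have hAu : ∀ Y, Au Y = Nh Y + br u Y := by
    intro Y
    apply eq_of_g hg
    intro Z
    rw [hA, map_add, LinearMap.add_apply, hN, Nf_eq hb, hb.skew u Y]
    simp
  have e1 : tf br J g P (Au Q) X = tf br J g (Au Q) X P := (tf_cyc _ _ _).symm
  have e2 : tf br J g P Q (Au X) = tf br J g (Au X) P Q := by rw [← tf_cyc, ← tf_cyc, tf_cyc]
  rw [e1, e2, hAu P, hAu Q, hAu X, tf_add, tf_add, tf_add]
  have h := bianchi_aux hb hg hc u P Q X
  have f1 := tf_sub_af (br := br) (J := J) (g := g) (Nh P) Q X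
  have f2 := tf_sub_af (br := br) (J := J) (g := g) (Nh Q) X P
  have f3 := tf_sub_af (br := br) (J := J) (g := g) (Nh X) P Q
  rw [hg.symm, hN] at f1 f2 f3
  linarith

end PFL
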