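import Pool.Agent.PFL.A2

/-!
# [PFL-A3] sums over an orthonormal basis
-/

open scoped BigOperators

namespace PFL

variable {V : Type*} [AddCommGroup V] [Module ℝ V]
variable {br : V →ₗ[ℝ] V →ₗ[ℝ] V} {J : V →ₗ[ℝ] V} {g : V →ₗ[ℝ] V →ₗ[ℝ] ℝ}
variable {m : ℕ} {e : Module.Basis (Fin m) ℝ V}

theorem orth_repr (he : Orth g e) (X : V) (i : Fin m) : g X (e i) = e.repr X i := by
  conv_lhs => rw [← e.sum_repr X]
  rw [map_sum, LinearMap.sum_apply]
  rw [Finset.sum_eq_single i]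
  · rw [map_smul, LinearMap.smul_apply, he]; simp
  · intro j _ hj
    rw [map_smul, LinearMap.smul_apply, he]; simp [hj]
  · intro h; exact absurd (Finset.mem_univ i) h

theorem orth_exp (he : Orth g e) (X : V) : X = ∑ i, g X (e i) • e i := by
  simp_rw [orth_repr he]
  exact (e.sum_repr X).symm

theorem orth_lin {W : Type*} [AddCommGroup W] [Module ℝ W] (he : Orth g e) (f : V →ₗ[ℝ] W)
    (X : V) : f X = ∑ i, g X (e i) • f (e i) := by
  conv_lhs => rw [orth_exp he X]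
  rw [map_sum]
  simp_rw [map_smul]

theorem parseval (he : Orth g e) (X Y : V) : g X Y = ∑ i, g X (e i) * g Y (e i) := by
  have h := orth_lin he (g X) Y
  rw [h]
  refine Finset.sum_congr rfl fun i _ => ?_
  rw [smul_eq_mul, mul_comm]

theorem sum_adj {W : Type*} [AddCommGroup W] [Module ℝ W] (hg : Met J g) (he : Orth g e)
    (β : V →ₗ[ℝ] V →ₗ[ℝ] W) {M M' : V →ₗ[ℝ] V} (hM : ∀ X Y, g (M X) Y = g X (M' Y)) :
    ∑ i, β (M (e i)) (e i) = ∑ i, β (e i) (M' (e i)) := by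
  have h1 : ∀ i, β (M (e i)) (e i) = ∑ j, g (M (e i)) (e j) • β (e j) (e i) := by
    intro i
    exact orth_lin he (β.flip (e i)) (M (e i))
  have h2 : ∀ i, β (e i) (M' (e i)) = ∑ j, g (M' (e i)) (e j) • β (e i) (e j) := by
    intro i
    exact orth_lin he (β (e i)) (M' (e i))
  simp_rw [h1, h2]
  rw [Finset.sum_comm]
  refine Finset.sum_congr rfl fun i _ => Finset.sum_congr rfl fun j _ => ?_
  rw [hM, hg.symm]

theorem sum_J {W : Type*} [AddCommGroup W] [Module ℝ W] (hJ : CStr br J) (hg : Met J g)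
    (he : Orth g e) (β : V →ₗ[ℝ] V →ₗ[ℝ] W) :
    ∑ i, β (J (e i)) (e i) = -∑ i, β (e i) (J (e i)) := by
  rw [sum_adj hg he β (M := J) (M' := -J) (fun X Y => by
    rw [gJ hJ hg]; simp), ← Finset.sum_neg_distrib]
  simp

theorem sum_JJ {W : Type*} [AddCommGroup W] [Module ℝ W] (hJ : CStr br J) (hg : Met J g)
    (he : Orth g e) (β : V →ₗ[ℝ] V →ₗ[ℝ] W) :
    ∑ i, β (J (e i)) (J (e i)) = ∑ i, β (e i) (e i) := by
  have h := sum_J hJ hg he (β.compl₂ J)
  simp only [LinearMap.compl₂_apply, hJ.sq, map_neg, Finset.sum_neg_distrib, neg_neg] at h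
  exact h

theorem trace_orth (he : Orth g e) (f : V →ₗ[ℝ] V) :
    LinearMap.trace ℝ V f = ∑ i, g (f (e i)) (e i) := by
  rw [LinearMap.trace_eq_matrix_trace ℝ e f, Matrix.trace]
  refine Finset.sum_congr rfl fun i _ => ?_
  rw [Matrix.diag_apply, LinearMap.toMatrix_apply, orth_repr he]

/-- `V = (1/2) ∑ [J e_i, e_i]` -/
noncomputable def vv (br : V →ₗ[ℝ] V →ₗ[ℝ] V) (J : V →ₗ[ℝ] V) (e : Module.Basis (Fin m) ℝ V) : V :=
  (1 / 2 : ℝ) • ∑ i, br (J (e i)) (e i)

theorem zh_orth (he : Orth g e) (X : V) :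
    zh br J X = (1 / 2) * ((∑ i, g (J (br X (e i))) (e i)) + ∑ i, g (br (J X) (e i)) (e i)) := by
  have h : zh br J X = (1 / 2 : ℝ) * (LinearMap.trace ℝ V (J ∘ₗ br X)
      + LinearMap.trace ℝ V (br (J X))) := rfl
  rw [h, trace_orth he, trace_orth he]
  rfl

theorem g_vv (X : V) : g (vv br J e) X = (1 / 2) * ∑ i, g (br (J (e i)) (e i)) X := by
  unfold vv
  rw [map_smul, LinearMap.smul_apply, map_sum, LinearMap.sum_apply, smul_eq_mul]

theorem sum_Cf (hb : LieB br) (hJ : CStr br J) (hg : Met J g) (he : Orth g e) (X : V) :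
    ∑ i, Cf br J g X (J (e i)) (e i)
      = 2 * (∑ i, g (br (J X) (e i)) (e i)) - ∑ i, g (br (J (e i)) (e i)) X := by
  have h1 : ∀ i, Cf br J g X (J (e i)) (e i) = g (br (J X) (e i)) (e i)
      + g (br (J X) (J (e i))) (J (e i)) - g (br (J (e i)) (e i)) X := by
    intro i
    unfold Cf
    rw [hJ.sq, hb.skew (J (e i)) (J X), hb.skew (-e i) (J (e i))]
    simp only [map_neg, LinearMap.neg_apply]
    ring
  have h2 : ∑ i, g (br (J X) (J (e i))) (J (e i)) = ∑ i, g (br (J X) (e i)) (e i) :=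
    sum_JJ hJ hg he (g.comp (br (J X)))
  simp_rw [h1]
  rw [Finset.sum_sub_distrib, Finset.sum_add_distrib, h2]
  ring

theorem sum_gbrJ (hJ : CStr br J) (hg : Met J g) (he : Orth g e) (X : V) :
    ∑ i, g (br X (J (e i))) (e i) = ∑ i, g (J (br X (e i))) (e i) := by
  have h := sum_J hJ hg he (g.comp (br X))
  simp only [LinearMap.comp_apply] at h
  rw [h, ← Finset.sum_neg_distrib]
  refine Finset.sum_congr rfl fun i _ => ?_
  rw [gJ hJ hg]

/-- (H) -/
theorem eta_af (hb : LieB br) (hJ : CStr br J) (hg : Met J g) (he : Orth g e) (X : V) :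
    (1 / 2) * ∑ i, af br J g X (J (e i)) (e i) = zh br J X - g (vv br J e) X := by
  have h1 : ∀ i, af br J g X (J (e i)) (e i) = (1 / 2) * (g (br X (J (e i))) (e i)
      - g (br (J (e i)) (e i)) X + g (J (br X (e i))) (e i) + Cf br J g X (J (e i)) (e i)) := by
    intro i
    unfold af
    rw [hb.skew (e i) X, gJ hJ hg]
    simp only [map_neg, LinearMap.neg_apply]
    ring
  simp_rw [h1]
  rw [← Finset.mul_sum, Finset.sum_add_distrib, Finset.sum_add_distrib, Finset.sum_sub_distrib,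
    sum_Cf hb hJ hg he, sum_gbrJ hJ hg he, zh_orth he, g_vv]
  ring

/-- (Z) -/
theorem zh_tf (hb : LieB br) (hJ : CStr br J) (hg : Met J g) (he : Orth g e) (X : V) :
    (1 / 2) * ∑ i, tf br J g (J (e i)) (e i) X = zh br J X := by
  have h1 : ∀ i, tf br J g (J (e i)) (e i) X = (1 / 2) * (g (br (J (e i)) (e i)) X
      + g (J (br X (e i))) (e i) + g (br X (J (e i))) (e i) + Cf br J g X (J (e i)) (e i)) := by
    intro i
    unfold tf
    rw [hb.skew (e i) X, gJ hJ hg, Cf_cyc X (J (e i)) (e i)]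
    simp only [map_neg, LinearMap.neg_apply]
    ring
  simp_rw [h1]
  rw [← Finset.mul_sum, Finset.sum_add_distrib, Finset.sum_add_distrib, Finset.sum_add_distrib,
    sum_Cf hb hJ hg he, sum_gbrJ hJ hg he, zh_orth he]
  ring

end PFL
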