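import Pool.Agent.PFL.A3

/-!
# [PFL-A4] the norm of `∇⁻ η`
-/

open scoped BigOperators

namespace PFL

variable {V : Type*} [AddCommGroup V] [Module ℝ V]
variable {br : V →ₗ[ℝ] V →ₗ[ℝ] V} {J : V →ₗ[ℝ] V} {g : V →ₗ[ℝ] V →ₗ[ℝ] ℝ}
variable {m : ℕ} {e : Module.Basis (Fin m) ℝ V}

/-- `(Y, Z) ↦ t(Y, Z, X)` -/
noncomputable def tfM (br : V →ₗ[ℝ] V →ₗ[ℝ] V) (J : V →ₗ[ℝ] V) (g : V →ₗ[ℝ] V →ₗ[ℝ] ℝ) (X : V) :
    V →ₗ[ℝ] V →ₗ[ℝ] ℝ :=
  LinearMap.mk₂ ℝ (fun Y Z => tf br J g Y Z X)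
    (fun a b c => by unfold tf Cf; simp only [map_add, LinearMap.add_apply]; ring)
    (fun r a b => by unfold tf Cf; simp only [map_smul, LinearMap.smul_apply, smul_eq_mul]; ring)
    (fun a b c => by unfold tf Cf; simp only [map_add, LinearMap.add_apply]; ring)
    (fun r a b => by unfold tf Cf; simp only [map_smul, LinearMap.smul_apply, smul_eq_mul]; ring)

/-- `(Y, Z) ↦ a(Y, Z, X)` -/
noncomputable def afM (br : V →ₗ[ℝ] V →ₗ[ℝ] V) (J : V →ₗ[ℝ] V) (g : V →ₗ[ℝ] V →ₗ[ℝ] ℝ) (X : V) :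
    V →ₗ[ℝ] V →ₗ[ℝ] ℝ :=
  LinearMap.mk₂ ℝ (fun Y Z => af br J g Y Z X)
    (fun a b c => by unfold af Cf; simp only [map_add, LinearMap.add_apply]; ring)
    (fun r a b => by unfold af Cf; simp only [map_smul, LinearMap.smul_apply, smul_eq_mul]; ring)
    (fun a b c => by unfold af Cf; simp only [map_add, LinearMap.add_apply]; ring)
    (fun r a b => by unfold af Cf; simp only [map_smul, LinearMap.smul_apply, smul_eq_mul]; ring)

/-- `(Y, Z) ↦ a(X, Y, Z)` -/
noncomputable def afR (br : V →ₗ[ℝ] V →ₗ[ℝ] V) (J : V →ₗ[ℝ] V) (g : V →ₗ[ℝ] V →ₗ[ℝ] ℝ) (X : V) :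
    V →ₗ[ℝ] V →ₗ[ℝ] ℝ :=
  LinearMap.mk₂ ℝ (fun Y Z => af br J g X Y Z)
    (fun a b c => by unfold af Cf; simp only [map_add, LinearMap.add_apply]; ring)
    (fun r a b => by unfold af Cf; simp only [map_smul, LinearMap.smul_apply, smul_eq_mul]; ring)
    (fun a b c => by unfold af Cf; simp only [map_add, LinearMap.add_apply]; ring)
    (fun r a b => by unfold af Cf; simp only [map_smul, LinearMap.smul_apply, smul_eq_mul]; ring)

/-- `N` as a bilinear map -/
noncomputable def NfM (br : V →ₗ[ℝ] V →ₗ[ℝ] V) (J : V →ₗ[ℝ] V) (g : V →ₗ[ℝ] V →ₗ[ℝ] ℝ) (u : V) :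
    V →ₗ[ℝ] V →ₗ[ℝ] ℝ :=
  LinearMap.mk₂ ℝ (fun Y Z => Nf br J g u Y Z)
    (fun a b c => by unfold Nf af Cf; simp only [map_add, LinearMap.add_apply]; ring)
    (fun r a b => by unfold Nf af Cf; simp only [map_smul, LinearMap.smul_apply, smul_eq_mul]; ring)
    (fun a b c => by unfold Nf af Cf; simp only [map_add, LinearMap.add_apply]; ring)
    (fun r a b => by unfold Nf af Cf; simp only [map_smul, LinearMap.smul_apply, smul_eq_mul]; ring)

/-- `δ(X,Y) = -g([X,Y],u)` -/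
noncomputable def dlM (br : V →ₗ[ℝ] V →ₗ[ℝ] V) (g : V →ₗ[ℝ] V →ₗ[ℝ] ℝ) (u : V) :
    V →ₗ[ℝ] V →ₗ[ℝ] ℝ :=
  -(br.compr₂ (g.flip u))

theorem dlM_apply (u X Y : V) : dlM br g u X Y = -g (br X Y) u := rfl

/-- `γ(X,Y) = (g([X,JY],u) + g([Y,JX],u)) / 2` -/
noncomputable def gmf (br : V →ₗ[ℝ] V →ₗ[ℝ] V) (J : V →ₗ[ℝ] V) (g : V →ₗ[ℝ] V →ₗ[ℝ] ℝ)
    (u X Y : V) : ℝ :=
  (g (br X (J Y)) u + g (br Y (J X)) u) / 2

/-- a bilinear form, as an operator -/
theorem exists_op (hg : Met J g) (he : Orth g e) (β : V →ₗ[ℝ] V →ₗ[ℝ] ℝ) :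
    ∃ M : V →ₗ[ℝ] V, ∀ X Y, g (M X) Y = β X Y := by
  refine ⟨∑ j, (β.flip (e j)).smulRight (e j), fun X Y => ?_⟩
  rw [LinearMap.sum_apply, map_sum, LinearMap.sum_apply, orth_lin he (β X) Y]
  refine Finset.sum_congr rfl fun j _ => ?_
  rw [LinearMap.smulRight_apply, map_smul, LinearMap.smul_apply, LinearMap.flip_apply, smul_eq_mul,
    smul_eq_mul, hg.symm (e j) Y, mul_comm]

theorem Jop (hJ : CStr br J) (hg : Met J g) {u : V} {Au : V →ₗ[ℝ] V}
    (hA : ∀ X Y, g (Au X) Y = af br J g u X Y) (X : V) : Au (J X) = J (Au X) := by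
  apply eq_of_g hg
  intro Z
  rw [hA, af_J hJ hg, gJ hJ hg, hA]

/-- (B') -/
theorem bsum (hb : LieB br) (hJ : CStr br J) (hg : Met J g) (hc : Closed br J g) (he : Orth g e)
    {u : V} (hu : ∀ X, g u X = zh br J X - g (vv br J e) X) {Nh : V →ₗ[ℝ] V}
    (hN : ∀ X Y, g (Nh X) Y = Nf br J g u X Y) (X : V) :
    af br J g u X (u + vv br J e) = ∑ i, af br J g (Nh (e i)) X (J (e i)) := by
  obtain ⟨Au, hA⟩ := exists_op hg he (afR br J g u)
  have hA' : ∀ X Y, g (Au X) Y = af br J g u X Y := hA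
  have hbi := fun i => bianchi hb hg hc hN hA' (J (e i)) (e i) X
  have hsum : (1 / 2 : ℝ) * ∑ i, (tf br J g (Au (J (e i))) (e i) X
      + tf br J g (J (e i)) (Au (e i)) X + tf br J g (J (e i)) (e i) (Au X))
      = (1 / 2) * ∑ i, (af br J g (Nh (J (e i))) (e i) X + af br J g (Nh (e i)) X (J (e i))
        + af br J g (Nh X) (J (e i)) (e i)) := by
    congr 1
    exact Finset.sum_congr rfl fun i _ => hbi i
  rw [Finset.sum_add_distrib, Finset.sum_add_distrib, Finset.sum_add_distrib,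
    Finset.sum_add_distrib] at hsum
  -- the first two sums cancel
  have hAskew : ∀ X Y, g (Au X) Y = -g X (Au Y) := by
    intro X Y
    rw [hg.symm X, hA', hA', af_skew hb]
  have s1 : ∑ i, tf br J g (Au (J (e i))) (e i) X = ∑ i, tf br J g (e i) (J (Au (e i))) X := by
    have h := sum_adj hg he (tfM br J g X) (M := J ∘ₗ Au) (M' := J ∘ₗ Au) (fun X Y => by
      simp only [LinearMap.comp_apply]
      rw [gJ hJ hg, hAskew, neg_neg, Jop hJ hg hA'])
    simp only [LinearMap.comp_apply] at h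
    simp_rw [Jop hJ hg hA']
    exact h
  have s2 : ∑ i, tf br J g (J (e i)) (Au (e i)) X = -∑ i, tf br J g (e i) (J (Au (e i))) X := by
    have h := sum_J hJ hg he ((tfM br J g X).compl₂ Au)
    simp only [LinearMap.compl₂_apply] at h
    simp_rw [Jop hJ hg hA'] at h
    exact h
  have s3 : (1 / 2 : ℝ) * ∑ i, tf br J g (J (e i)) (e i) (Au X)
      = af br J g u X (u + vv br J e) := by
    rw [zh_tf hb hJ hg he, ← hA', hg.symm, map_add, LinearMap.add_apply, hu]
    ring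
  have s4 : ∑ i, af br J g (Nh (J (e i))) (e i) X = ∑ i, af br J g (Nh (e i)) X (J (e i)) := by
    have h := sum_J hJ hg he ((afM br J g X).comp Nh)
    simp only [LinearMap.comp_apply] at h
    have h' : ∑ i, af br J g (Nh (J (e i))) (e i) X = -∑ i, af br J g (Nh (e i)) (J (e i)) X := h
    rw [h', ← Finset.sum_neg_distrib]
    exact Finset.sum_congr rfl fun i _ => (af_skew hb _ _ _).symm
  have s5 : (1 / 2 : ℝ) * ∑ i, af br J g (Nh X) (J (e i)) (e i) = 0 := by
    rw [eta_af hb hJ hg he, ← hu, hg.symm, hN, Nf_self hb]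
  rw [s1, s2, s4] at hsum
  linarith

/-- (B_u) -/
theorem bu (hb : LieB br) (hJ : CStr br J) (hg : Met J g) (hc : Closed br J g) (he : Orth g e)
    {u : V} (hu : ∀ X, g u X = zh br J X - g (vv br J e) X) {Nh : V →ₗ[ℝ] V}
    (hN : ∀ X Y, g (Nh X) Y = Nf br J g u X Y) :
    ∑ i, af br J g (Nh (e i)) u (e i) = g (br u (J (u + vv br J e))) u := by
  have h := bsum hb hJ hg hc he hu hN (J u)
  rw [af_J hJ hg, ← af_skew hb, af_uYu hb] at h
  rw [h]
  refine Finset.sum_congr rfl fun i _ => ?_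
  rw [af_J hJ hg, hJ.sq]
  have : af br J g (Nh (e i)) u (-e i) = -af br J g (Nh (e i)) u (e i) :=
    (afR br J g (Nh (e i)) u).map_neg (e i)
  rw [this, neg_neg]

theorem gmf_symm (u X Y : V) : gmf br J g u X Y = gmf br J g u Y X := by
  unfold gmf
  ring

theorem gmf_dl (hb : LieB br) (u X Y : V) :
    gmf br J g u X Y = (dlM br g u (J X) Y - dlM br g u X (J Y)) / 2 := by
  rw [dlM_apply, dlM_apply]
  unfold gmf
  rw [hb.skew Y (J X)]
  simp only [map_neg, LinearMap.neg_apply]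
  ring

/-- `∑ γ² = (1/2) ∑ δ² + (1/2) ∑ δ(e_i,e_j) δ(Je_i,Je_j)` -/
theorem sum_gm_sq (hb : LieB br) (hJ : CStr br J) (hg : Met J g) (he : Orth g e) (u : V) :
    ∑ i, ∑ j, gmf br J g u (e i) (e j) ^ 2
      = (1 / 2) * (∑ i, ∑ j, dlM br g u (e i) (e j) ^ 2)
        + (1 / 2) * ∑ i, ∑ j, dlM br g u (e i) (e j) * dlM br g u (J (e i)) (J (e j)) := by
  set D := dlM br g u with hD
  -- `B X Z = ∑_j D X e_j * D Z e_j`
  have hsq : ∀ (F F' : V →ₗ[ℝ] V →ₗ[ℝ] ℝ), ∃ β : V →ₗ[ℝ] V →ₗ[ℝ] ℝ,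
      ∀ X Z, β X Z = ∑ j, F X (e j) * F' Z (e j) := by
    intro F F'
    refine ⟨LinearMap.mk₂ ℝ (fun X Z => ∑ j, F X (e j) * F' Z (e j)) ?_ ?_ ?_ ?_, fun X Z => rfl⟩
    · intro a b c
      simp only [map_add, LinearMap.add_apply, add_mul, Finset.sum_add_distrib]
    · intro r a b
      simp only [map_smul, LinearMap.smul_apply, smul_eq_mul, Finset.mul_sum]
      exact Finset.sum_congr rfl fun _ _ => by ring
    · intro a b c
      simp only [map_add, LinearMap.add_apply, mul_add, Finset.sum_add_distrib]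
    · intro r a b
      simp only [map_smul, LinearMap.smul_apply, smul_eq_mul, Finset.mul_sum]
      exact Finset.sum_congr rfl fun _ _ => by ring
  have e1 : ∀ i j, gmf br J g u (e i) (e j) ^ 2 = (1 / 4) * (D (J (e i)) (e j) * D (J (e i)) (e j))
      + (1 / 4) * (D (e i) (J (e j)) * D (e i) (J (e j)))
      - (1 / 2) * (D (J (e i)) (e j) * D (e i) (J (e j))) := by
    intro i j
    rw [gmf_dl hb]
    ring
  simp_rw [e1]
  simp only [Finset.sum_sub_distrib, Finset.sum_add_distrib, ← Finset.mul_sum]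
  have t1 : ∑ i, ∑ j, D (J (e i)) (e j) * D (J (e i)) (e j) = ∑ i, ∑ j, D (e i) (e j) ^ 2 := by
    obtain ⟨β, hβ⟩ := hsq D D
    have h := sum_JJ hJ hg he β
    simp only [hβ] at h
    rw [h]
    exact Finset.sum_congr rfl fun _ _ => Finset.sum_congr rfl fun _ _ => by ring
  have t2 : ∑ i, ∑ j, D (e i) (J (e j)) * D (e i) (J (e j)) = ∑ i, ∑ j, D (e i) (e j) ^ 2 := by
    obtain ⟨β, hβ⟩ := hsq D.flip D.flip
    have h := sum_JJ hJ hg he β
    simp only [hβ, LinearMap.flip_apply] at h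
    rw [Finset.sum_comm, h, Finset.sum_comm]
    exact Finset.sum_congr rfl fun _ _ => Finset.sum_congr rfl fun _ _ => by ring
  have t3 : ∑ i, ∑ j, D (J (e i)) (e j) * D (e i) (J (e j))
      = -∑ i, ∑ j, D (e i) (e j) * D (J (e i)) (J (e j)) := by
    obtain ⟨β, hβ⟩ := hsq D (D.compl₂ J)
    have h := sum_J hJ hg he β
    simp only [hβ, LinearMap.compl₂_apply] at h
    exact h
  rw [t1, t2, t3]
  ring

/-- `[V,Q] = ∑ [e_i, [Q, J e_i]]` -/
theorem br_vv (hb : LieB br) (hJ : CStr br J) (hg : Met J g) (he : Orth g e) (Q : V) :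
    br (vv br J e) Q = ∑ i, br (e i) (br Q (J (e i))) := by
  have h1 : ∀ i, br (br (J (e i)) (e i)) Q = br (J (e i)) (br (e i) Q) - br (e i) (br (J (e i)) Q) := by
    intro i
    rw [hb.jac (J (e i)) (e i) Q]
    abel
  have h2 : ∑ i, br (J (e i)) (br (e i) Q) = -∑ i, br (e i) (br (J (e i)) Q) := by
    have h := sum_J hJ hg he (br.compl₂ (br.flip Q))
    simp only [LinearMap.compl₂_apply, LinearMap.flip_apply] at h
    exact h
  unfold vv
  rw [map_smul, LinearMap.smul_apply, map_sum, LinearMap.sum_apply]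
  simp_rw [h1]
  rw [Finset.sum_sub_distrib, h2]
  have h3 : ∑ i, br (e i) (br Q (J (e i))) = -∑ i, br (e i) (br (J (e i)) Q) := by
    rw [← Finset.sum_neg_distrib]
    refine Finset.sum_congr rfl fun i _ => ?_
    rw [hb.skew Q, map_neg]
  rw [h3, ← neg_add', ← two_smul ℝ (∑ i, br (e i) (br (J (e i)) Q)), ← smul_neg, smul_smul]
  norm_num

/-- `∑ δ N = ∑ γ² + g([V,Ju],u)` -/
theorem sum_dl_N (hb : LieB br) (hJ : CStr br J) (hg : Met J g) (he : Orth g e) (u : V) :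
    ∑ i, ∑ j, dlM br g u (e i) (e j) * Nf br J g u (e i) (e j)
      = (∑ i, ∑ j, gmf br J g u (e i) (e j) ^ 2) + g (br (vv br J e) (J u)) u := by
  set D := dlM br g u with hD
  have hDs : ∀ X Y, D X Y = -D Y X := by
    intro X Y
    rw [hD, dlM_apply, dlM_apply, hb.skew X Y]
    simp
  have e1 : ∀ i j, D (e i) (e j) * Nf br J g u (e i) (e j)
      = (1 / 2) * (D (e i) (e j) * (g (br (e i) u) (e j) + g (br (e j) u) (e i)))
        + (1 / 2) * (D (e i) (e j) * (g (br (J u) (J (e j))) (e i) - g (br (J u) (J (e i))) (e j)))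
        + (1 / 2) * (D (e i) (e j) ^ 2)
        + (1 / 2) * (D (e i) (e j) * D (J (e i)) (J (e j))) := by
    intro i j
    have h := two_Nf (J := J) (g := g) hb u (e i) (e j)
    have h1 : D (e i) (e j) = -g (br (e i) (e j)) u := rfl
    have h2 : D (J (e i)) (J (e j)) = -g (br (J (e i)) (J (e j))) u := rfl
    have h3 : g (br (J (e j)) (J u)) (e i) = -g (br (J u) (J (e j))) (e i) := by
      rw [hb.skew (J (e j))]; simp
    rw [h3] at h
    have h4 : Nf br J g u (e i) (e j) = (g (br (e i) u) (e j) + g (br (e j) u) (e i)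
      - g (br (J u) (J (e i))) (e j) + g (br (J u) (J (e j))) (e i) + D (e i) (e j)
      + D (J (e i)) (J (e j))) / 2 := by
      rw [h1, h2]; linarith
    rw [h4]
    ring
  simp_rw [e1]
  simp only [Finset.sum_add_distrib, ← Finset.mul_sum]
  have s1 : ∑ i, ∑ j, D (e i) (e j) * (g (br (e i) u) (e j) + g (br (e j) u) (e i)) = 0 := by
    have h : ∑ i, ∑ j, D (e i) (e j) * (g (br (e i) u) (e j) + g (br (e j) u) (e i))
        = -∑ i, ∑ j, D (e i) (e j) * (g (br (e i) u) (e j) + g (br (e j) u) (e i)) := by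
      conv_lhs => rw [Finset.sum_comm]
      rw [← Finset.sum_neg_distrib]
      refine Finset.sum_congr rfl fun i _ => ?_
      rw [← Finset.sum_neg_distrib]
      refine Finset.sum_congr rfl fun j _ => ?_
      rw [hDs (e j) (e i)]
      ring
    linarith
  have s2 : ∑ i, ∑ j, D (e i) (e j) * (g (br (J u) (J (e j))) (e i) - g (br (J u) (J (e i))) (e j))
      = -2 * ∑ i, ∑ j, D (e i) (e j) * g (br (J u) (J (e i))) (e j) := by
    have h : ∑ i, ∑ j, D (e i) (e j) * g (br (J u) (J (e j))) (e i)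
        = -∑ i, ∑ j, D (e i) (e j) * g (br (J u) (J (e i))) (e j) := by
      rw [Finset.sum_comm, ← Finset.sum_neg_distrib]
      refine Finset.sum_congr rfl fun i _ => ?_
      rw [← Finset.sum_neg_distrib]
      refine Finset.sum_congr rfl fun j _ => ?_
      rw [hDs (e j) (e i)]
      ring
    simp only [mul_sub, Finset.sum_sub_distrib]
    rw [h]
    ring
  have s3 : ∑ i, ∑ j, D (e i) (e j) * g (br (J u) (J (e i))) (e j)
      = -g (br (vv br J e) (J u)) u := by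
    have h : ∀ i, ∑ j, D (e i) (e j) * g (br (J u) (J (e i))) (e j)
        = -g (br (e i) (br (J u) (J (e i)))) u := by
      intro i
      have h1 := orth_lin he (D (e i)) (br (J u) (J (e i)))
      have h2 : D (e i) (br (J u) (J (e i))) = -g (br (e i) (br (J u) (J (e i)))) u := rfl
      rw [← h2, h1]
      exact Finset.sum_congr rfl fun j _ => by rw [smul_eq_mul, mul_comm]
    simp_rw [h]
    rw [Finset.sum_neg_distrib, br_vv hb hJ hg he, map_sum, LinearMap.sum_apply]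
  rw [s1, s2, s3, sum_gm_sq hb hJ hg he]
  ring

/-- the main identity: `|∇⁻ u|² = |γ|² + 2 γ(V,u) + γ(u,u)` -/
theorem sum_N_sq (hb : LieB br) (hJ : CStr br J) (hg : Met J g) (hc : Closed br J g)
    (he : Orth g e) {u : V} (hu : ∀ X, g u X = zh br J X - g (vv br J e) X) :
    ∑ i, ∑ j, Nf br J g u (e i) (e j) ^ 2
      = (∑ i, ∑ j, gmf br J g u (e i) (e j) ^ 2) + 2 * gmf br J g u (vv br J e) u
        + gmf br J g u u u := by
  obtain ⟨Nh, hN⟩ := exists_op hg he (NfM br J g u)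
  have hN' : ∀ X Y, g (Nh X) Y = Nf br J g u X Y := hN
  have hB := bu hb hJ hg hc he hu hN'
  have hD := sum_dl_N hb hJ hg he u
  have h1 : ∀ i j, Nf br J g u (e i) (e j) ^ 2
      = dlM br g u (e i) (e j) * Nf br J g u (e i) (e j)
        + Nf br J g u (e i) (e j) * af br J g (e j) u (e i) := by
    intro i j
    have h := delta_eq (J := J) (g := g) hb u (e i) (e j)
    have h2 : dlM br g u (e i) (e j) = Nf br J g u (e i) (e j) - af br J g (e j) u (e i) := h
    rw [h2]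
    ring
  have h2 : ∀ i, ∑ j, Nf br J g u (e i) (e j) * af br J g (e j) u (e i)
      = af br J g (Nh (e i)) u (e i) := by
    intro i
    have h := orth_lin he ((afM br J g (e i)).flip u) (Nh (e i))
    have h' : af br J g (Nh (e i)) u (e i) = ∑ j, g (Nh (e i)) (e j) • af br J g (e j) u (e i) := h
    rw [h']
    exact Finset.sum_congr rfl fun j _ => by rw [hN', smul_eq_mul]
  simp_rw [h1]
  simp only [Finset.sum_add_distrib]
  simp_rw [h2]
  rw [hB, hD]
  unfold gmf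
  rw [map_add, map_add, map_add, LinearMap.add_apply]
  ring

end PFL
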