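import Pool.Agent.PFL.A4

/-!
# [PFL-A5] bounds
-/

open scoped BigOperators

namespace PFL

variable {V : Type*} [AddCommGroup V] [Module ℝ V]
variable {br : V →ₗ[ℝ] V →ₗ[ℝ] V} {J : V →ₗ[ℝ] V} {g : V →ₗ[ℝ] V →ₗ[ℝ] ℝ}
variable {m : ℕ} {e : Module.Basis (Fin m) ℝ V}

theorem met_nonneg (hg : Met J g) (X : V) : 0 ≤ g X X := by
  by_cases h : X = 0
  · simp [h]
  · exact (hg.pos X h).le

theorem cs_bilin (he : Orth g e) (β : V →ₗ[ℝ] V →ₗ[ℝ] ℝ) (X Y : V) :
    (β X Y) ^ 2 ≤ (∑ i, ∑ j, β (e i) (e j) ^ 2) * (g X X * g Y Y) := by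
  have h1 : β X Y = ∑ p : Fin m × Fin m, β (e p.1) (e p.2) * (g X (e p.1) * g Y (e p.2)) := by
    rw [Fintype.sum_prod_type]
    have h := orth_lin he (β.flip Y) X
    rw [LinearMap.flip_apply] at h
    rw [h]
    refine Finset.sum_congr rfl fun i _ => ?_
    rw [LinearMap.flip_apply, orth_lin he (β (e i)) Y, smul_eq_mul, Finset.mul_sum]
    refine Finset.sum_congr rfl fun j _ => ?_
    rw [smul_eq_mul]
    ring
  have h2 : ∑ p : Fin m × Fin m, (g X (e p.1) * g Y (e p.2)) ^ 2 = g X X * g Y Y := by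
    rw [Fintype.sum_prod_type, parseval he X X, parseval he Y Y, Finset.sum_mul_sum]
    refine Finset.sum_congr rfl fun i _ => Finset.sum_congr rfl fun j _ => ?_
    ring
  have h3 : ∑ p : Fin m × Fin m, β (e p.1) (e p.2) ^ 2 = ∑ i, ∑ j, β (e i) (e j) ^ 2 :=
    Fintype.sum_prod_type _
  rw [h1, ← h2, ← h3]
  exact Finset.sum_mul_sq_le_sq_mul_sq _ _ _

/-- `|[·,·]|²` in an orthonormal basis -/
noncomputable def kapo (br : V →ₗ[ℝ] V →ₗ[ℝ] V) (g : V →ₗ[ℝ] V →ₗ[ℝ] ℝ)
    (e : Module.Basis (Fin m) ℝ V) : ℝ :=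
  ∑ i, ∑ j, g (br (e i) (e j)) (br (e i) (e j))

theorem kapo_nonneg (hg : Met J g) : 0 ≤ kapo br g e :=
  Finset.sum_nonneg fun _ _ => Finset.sum_nonneg fun _ _ => met_nonneg hg _

theorem cs_br (he : Orth g e) (X Y : V) :
    g (br X Y) (br X Y) ≤ kapo br g e * (g X X * g Y Y) := by
  rw [parseval he (br X Y) (br X Y)]
  have h1 : ∀ k, g (br X Y) (e k) * g (br X Y) (e k)
      ≤ (∑ i, ∑ j, g (br (e i) (e j)) (e k) ^ 2) * (g X X * g Y Y) := by
    intro k
    have h := cs_bilin he (br.compr₂ (g.flip (e k))) X Y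
    simp only [LinearMap.compr₂_apply, LinearMap.flip_apply] at h
    rw [← sq]
    exact h
  refine (Finset.sum_le_sum fun k _ => h1 k).trans (le_of_eq ?_)
  rw [← Finset.sum_mul]
  congr 1
  unfold kapo
  rw [Finset.sum_comm]
  refine Finset.sum_congr rfl fun i _ => ?_
  rw [Finset.sum_comm]
  refine Finset.sum_congr rfl fun j _ => ?_
  rw [parseval he (br (e i) (e j)) (br (e i) (e j))]
  exact Finset.sum_congr rfl fun k _ => sq _

theorem cs_g (he : Orth g e) (X Y : V) : (g X Y) ^ 2 ≤ g X X * g Y Y := by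
  rw [parseval he X Y, parseval he X X, parseval he Y Y]
  have h := Finset.sum_mul_sq_le_sq_mul_sq Finset.univ (fun i => g X (e i)) (fun i => g Y (e i))
  simpa only [sq] using h

/-- `|N(JX,X)| ≤ |N| |X|²` -/
theorem N_bound (hg : Met J g) (he : Orth g e) (u X : V) :
    |Nf br J g u (J X) X| ≤ Real.sqrt (∑ i, ∑ j, Nf br J g u (e i) (e j) ^ 2) * g X X := by
  have h := cs_bilin he (NfM br J g u) (J X) X
  rw [hg.herm] at h
  have h' : Nf br J g u (J X) X ^ 2 ≤ (∑ i, ∑ j, Nf br J g u (e i) (e j) ^ 2) * (g X X * g X X) := h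
  have h0 := met_nonneg hg X
  apply abs_le_of_sq_le_sq _ (mul_nonneg (Real.sqrt_nonneg _) h0)
  rw [mul_pow, Real.sq_sqrt (Finset.sum_nonneg fun _ _ => Finset.sum_nonneg fun _ _ => sq_nonneg _),
    sq (g X X)]
  exact h'

/-- bound for the speed of the metric -/
theorem gm_bound (hb : LieB br) (hJ : CStr br J) (hg : Met J g) (he : Orth g e) (u X : V) :
    |gmf br J g u X X| ≤ (Real.sqrt (∑ i, ∑ j, Nf br J g u (e i) (e j) ^ 2)
      + Real.sqrt (kapo br g e * g u u)) * g X X := by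
  have h1 : gmf br J g u X X = Nf br J g u (J X) X - g (br (J u) X) X := by
    unfold gmf
    rw [← gamma_eq hb hJ hg]
    ring
  have h2 := N_bound (br := br) hg he u X
  have h3 : |g (br (J u) X) X| ≤ Real.sqrt (kapo br g e * g u u) * g X X := by
    have c1 := cs_g he (br (J u) X) X
    have c2 := cs_br (br := br) he (J u) X
    rw [hg.herm] at c2
    have h0 := met_nonneg hg X
    have hk := kapo_nonneg (br := br) (e := e) hg
    apply abs_le_of_sq_le_sq _ (mul_nonneg (Real.sqrt_nonneg _) h0)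
    rw [mul_pow, Real.sq_sqrt (mul_nonneg hk (met_nonneg hg u))]
    calc (g (br (J u) X) X) ^ 2 ≤ g (br (J u) X) (br (J u) X) * g X X := c1
      _ ≤ (kapo br g e * (g u u * g X X)) * g X X := mul_le_mul_of_nonneg_right c2 h0
      _ = kapo br g e * g u u * g X X ^ 2 := by ring
  rw [h1, add_mul]
  exact (abs_sub _ _).trans (add_le_add h2 h3)

/-- `h(X,Y) = ∑_j g([X,e_j],[Y,e_j])` -/
noncomputable def hM (br : V →ₗ[ℝ] V →ₗ[ℝ] V) (g : V →ₗ[ℝ] V →ₗ[ℝ] ℝ)
    (e : Module.Basis (Fin m) ℝ V) : V →ₗ[ℝ] V →ₗ[ℝ] ℝ :=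
  ∑ j, g.compl₁₂ (br.flip (e j)) (br.flip (e j))

theorem hM_apply (X Y : V) : hM br g e X Y = ∑ j, g (br X (e j)) (br Y (e j)) := by
  unfold hM
  rw [LinearMap.sum_apply, LinearMap.sum_apply]
  rfl

/-- the derivative of `|[·,·]|²` in the direction `γ` -/
noncomputable def kd (br : V →ₗ[ℝ] V →ₗ[ℝ] V) (g : V →ₗ[ℝ] V →ₗ[ℝ] ℝ)
    (e : Module.Basis (Fin m) ℝ V) (γ : V → V → ℝ) : ℝ :=
  (∑ i, ∑ j, γ (br (e i) (e j)) (br (e i) (e j))) - 2 * ∑ i, ∑ k, γ (e i) (e k) * hM br g e (e i) (e k)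

/-- inner derivations do not change the norm of the bracket -/
theorem kd_inner (hb : LieB br) (hg : Met J g) (he : Orth g e) (v : V) :
    kd br g e (fun X Y => (g (br v X) Y + g X (br v Y)) / 2) = 0 := by
  unfold kd
  have h1 : ∀ i j, (g (br v (br (e i) (e j))) (br (e i) (e j))
      + g (br (e i) (e j)) (br v (br (e i) (e j)))) / 2
      = g (br (br v (e i)) (e j)) (br (e i) (e j)) + g (br (e i) (br v (e j))) (br (e i) (e j)) := by
    intro i j
    rw [hg.symm (br (e i) (e j)) (br v _), hb.jac v (e i) (e j), map_add, LinearMap.add_apply]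
    ring
  have h2 : ∑ i, ∑ j, g (br (e i) (br v (e j))) (br (e i) (e j))
      = ∑ i, ∑ j, g (br (br v (e i)) (e j)) (br (e i) (e j)) := by
    rw [Finset.sum_comm]
    refine Finset.sum_congr rfl fun i _ => Finset.sum_congr rfl fun j _ => ?_
    rw [hb.skew (e j) (br v (e i)), hb.skew (e j) (e i)]
    simp
  have h3 : ∑ i, ∑ k, ((g (br v (e i)) (e k) + g (e i) (br v (e k))) / 2) * hM br g e (e i) (e k)
      = ∑ i, ∑ j, g (br (br v (e i)) (e j)) (br (e i) (e j)) := by
    have t1 : ∀ i, ∑ k, g (br v (e i)) (e k) * hM br g e (e i) (e k)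
        = ∑ j, g (br (br v (e i)) (e j)) (br (e i) (e j)) := by
      intro i
      have h := orth_lin he (hM br g e (e i)) (br v (e i))
      simp only [smul_eq_mul] at h
      rw [← h, hM_apply]
      exact Finset.sum_congr rfl fun j _ => hg.symm _ _
    have t2 : ∑ i, ∑ k, g (e i) (br v (e k)) * hM br g e (e i) (e k)
        = ∑ i, ∑ k, g (br v (e i)) (e k) * hM br g e (e i) (e k) := by
      rw [Finset.sum_comm]
      refine Finset.sum_congr rfl fun i _ => Finset.sum_congr rfl fun k _ => ?_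
      rw [hg.symm (e k), hM_apply, hM_apply]
      congr 1
      exact Finset.sum_congr rfl fun j _ => hg.symm _ _
    have t3 : ∀ i k, ((g (br v (e i)) (e k) + g (e i) (br v (e k))) / 2) * hM br g e (e i) (e k)
        = (1 / 2) * (g (br v (e i)) (e k) * hM br g e (e i) (e k))
          + (1 / 2) * (g (e i) (br v (e k)) * hM br g e (e i) (e k)) := by
      intro i k; ring
    simp_rw [t3]
    simp only [Finset.sum_add_distrib, ← Finset.mul_sum]
    rw [t2]
    simp_rw [t1]
    ring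
  simp_rw [h1]
  simp only [Finset.sum_add_distrib]
  rw [h2, h3]
  ring

theorem hM_self_nonneg (hg : Met J g) (X : V) : 0 ≤ hM br g e X X := by
  rw [hM_apply]
  exact Finset.sum_nonneg fun _ _ => met_nonneg hg _

theorem hM_cs (he : Orth g e) (X Y : V) :
    (hM br g e X Y) ^ 2 ≤ hM br g e X X * hM br g e Y Y := by
  have h : ∀ A B : V, hM br g e A B = ∑ p : Fin m × Fin m,
      g (br A (e p.1)) (e p.2) * g (br B (e p.1)) (e p.2) := by
    intro A B
    rw [hM_apply, Fintype.sum_prod_type]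
    exact Finset.sum_congr rfl fun j _ => parseval he _ _
  rw [h X Y, h X X, h Y Y]
  have h2 := Finset.sum_mul_sq_le_sq_mul_sq Finset.univ
    (fun p : Fin m × Fin m => g (br X (e p.1)) (e p.2))
    (fun p : Fin m × Fin m => g (br Y (e p.1)) (e p.2))
  simpa only [sq] using h2

/-- the symmetric part of `N(J·,·)` -/
noncomputable def Sf (br : V →ₗ[ℝ] V →ₗ[ℝ] V) (J : V →ₗ[ℝ] V) (g : V →ₗ[ℝ] V →ₗ[ℝ] ℝ)
    (u X Y : V) : ℝ :=
  (Nf br J g u (J X) Y + Nf br J g u (J Y) X) / 2

theorem kd_S (hJ : CStr br J) (hg : Met J g) (he : Orth g e) (u : V) :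
    |kd br g e (Sf br J g u)|
      ≤ 3 * Real.sqrt (∑ i, ∑ j, Nf br J g u (e i) (e j) ^ 2) * kapo br g e := by
  set n := ∑ i, ∑ j, Nf br J g u (e i) (e j) ^ 2 with hn
  have hn0 : 0 ≤ n := Finset.sum_nonneg fun _ _ => Finset.sum_nonneg fun _ _ => sq_nonneg _
  have hk := kapo_nonneg (br := br) (e := e) hg
  -- first term
  have h1 : |∑ i, ∑ j, Sf br J g u (br (e i) (e j)) (br (e i) (e j))|
      ≤ Real.sqrt n * kapo br g e := by
    refine (Finset.abs_sum_le_sum_abs _ _).trans ?_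
    unfold kapo
    rw [Finset.mul_sum]
    refine Finset.sum_le_sum fun i _ => ?_
    refine (Finset.abs_sum_le_sum_abs _ _).trans ?_
    rw [Finset.mul_sum]
    refine Finset.sum_le_sum fun j _ => ?_
    have h := N_bound (br := br) hg he u (br (e i) (e j))
    have h' : Sf br J g u (br (e i) (e j)) (br (e i) (e j))
        = Nf br J g u (J (br (e i) (e j))) (br (e i) (e j)) := by
      unfold Sf; ring
    rw [h']
    exact h
  -- `∑ S² ≤ n`
  have h2 : ∑ p : Fin m × Fin m, Sf br J g u (e p.1) (e p.2) ^ 2 ≤ n := by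
    rw [Fintype.sum_prod_type]
    have c1 : ∀ i k, Sf br J g u (e i) (e k) ^ 2 ≤ (1 / 2) * Nf br J g u (J (e i)) (e k) ^ 2
        + (1 / 2) * Nf br J g u (J (e k)) (e i) ^ 2 := by
      intro i k
      unfold Sf
      nlinarith [sq_nonneg (Nf br J g u (J (e i)) (e k) - Nf br J g u (J (e k)) (e i))]
    refine (Finset.sum_le_sum fun i _ => Finset.sum_le_sum fun k _ => c1 i k).trans ?_
    simp only [Finset.sum_add_distrib, ← Finset.mul_sum]
    have c2 : ∑ i, ∑ k, Nf br J g u (J (e i)) (e k) ^ 2 = n := by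
      have hβ : ∃ β : V →ₗ[ℝ] V →ₗ[ℝ] ℝ, ∀ X Z, β X Z
          = ∑ j, NfM br J g u X (e j) * NfM br J g u Z (e j) := by
        refine ⟨LinearMap.mk₂ ℝ (fun X Z => ∑ j, NfM br J g u X (e j) * NfM br J g u Z (e j))
          ?_ ?_ ?_ ?_, fun X Z => rfl⟩
        · intro a b c
          simp only [map_add, LinearMap.add_apply, add_mul, Finset.sum_add_distrib]
        · intro r a b
          simp only [map_smul, LinearMap.smul_apply, smul_eq_mul, Finset.mul_sum]
          exact Finset.sum_congr rfl fun _ _ => by ring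
        · intro a b c
          simp only [map_add, LinearMap.add_apply, mul_add, Finset.sum_add_distrib]
        · intro r a b
          simp only [map_smul, LinearMap.smul_apply, smul_eq_mul, Finset.mul_sum]
          exact Finset.sum_congr rfl fun _ _ => by ring
      obtain ⟨β, hβ⟩ := hβ
      have h := sum_JJ hJ hg he β
      simp only [hβ] at h
      have h' : ∑ i, ∑ k, Nf br J g u (J (e i)) (e k) * Nf br J g u (J (e i)) (e k)
          = ∑ i, ∑ k, Nf br J g u (e i) (e k) * Nf br J g u (e i) (e k) := h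
      rw [hn]
      simpa only [sq] using h'
    have c3 : ∑ i, ∑ k, Nf br J g u (J (e k)) (e i) ^ 2 = n := by
      rw [Finset.sum_comm]; exact c2
    rw [c2, c3]
    linarith
  have h3 : ∑ p : Fin m × Fin m, hM br g e (e p.1) (e p.2) ^ 2 ≤ kapo br g e ^ 2 := by
    rw [Fintype.sum_prod_type]
    have c : kapo br g e ^ 2 = ∑ i, ∑ k, hM br g e (e i) (e i) * hM br g e (e k) (e k) := by
      rw [sq, ← Finset.sum_mul_sum]
      unfold kapo
      simp_rw [hM_apply]
    rw [c]
    exact Finset.sum_le_sum fun i _ => Finset.sum_le_sum fun k _ => hM_cs he _ _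
  have h4 : |∑ i, ∑ k, Sf br J g u (e i) (e k) * hM br g e (e i) (e k)|
      ≤ Real.sqrt n * kapo br g e := by
    have h := Finset.sum_mul_sq_le_sq_mul_sq Finset.univ
      (fun p : Fin m × Fin m => Sf br J g u (e p.1) (e p.2))
      (fun p : Fin m × Fin m => hM br g e (e p.1) (e p.2))
    rw [Fintype.sum_prod_type] at h
    apply abs_le_of_sq_le_sq _ (mul_nonneg (Real.sqrt_nonneg _) hk)
    rw [mul_pow, Real.sq_sqrt hn0]
    refine h.trans ?_
    exact mul_le_mul h2 h3 (Finset.sum_nonneg fun _ _ => sq_nonneg _) hn0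
  unfold kd
  have h5 : |2 * ∑ i, ∑ k, Sf br J g u (e i) (e k) * hM br g e (e i) (e k)|
      ≤ 2 * (Real.sqrt n * kapo br g e) := by
    rw [abs_mul, abs_of_pos (by norm_num : (0 : ℝ) < 2)]
    exact mul_le_mul_of_nonneg_left h4 (by norm_num)
  calc _ ≤ _ := abs_sub _ _
    _ ≤ Real.sqrt n * kapo br g e + 2 * (Real.sqrt n * kapo br g e) := add_le_add h1 h5
    _ = _ := by ring

/-- polarisation of (I2) -/
theorem gmf_pol (hb : LieB br) (hJ : CStr br J) (hg : Met J g) (u X Y : V) :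
    gmf br J g u X Y = Sf br J g u X Y - (g (br (J u) X) Y + g X (br (J u) Y)) / 2 := by
  have h := gamma_eq hb hJ hg u (X + Y)
  have hX := gamma_eq hb hJ hg u X
  have hY := gamma_eq hb hJ hg u Y
  have e1 : Nf br J g u (J (X + Y)) (X + Y) = Nf br J g u (J X) X + Nf br J g u (J X) Y
      + Nf br J g u (J Y) X + Nf br J g u (J Y) Y := by
    unfold Nf af Cf
    simp only [map_add, LinearMap.add_apply]
    ring
  rw [e1] at h
  simp only [map_add, LinearMap.add_apply] at h
  unfold gmf Sf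
  rw [hg.symm X (br (J u) Y)]
  linarith

theorem kd_bound (hb : LieB br) (hJ : CStr br J) (hg : Met J g) (he : Orth g e) (u : V) :
    |kd br g e (gmf br J g u)|
      ≤ 3 * Real.sqrt (∑ i, ∑ j, Nf br J g u (e i) (e j) ^ 2) * kapo br g e := by
  have h1 : kd br g e (gmf br J g u) = kd br g e (Sf br J g u)
      - kd br g e (fun X Y => (g (br (J u) X) Y + g X (br (J u) Y)) / 2) := by
    unfold kd
    simp_rw [gmf_pol hb hJ hg]
    simp only [sub_mul, Finset.sum_sub_distrib]
    ring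
  rw [h1, kd_inner hb hg he, sub_zero]
  exact kd_S hJ hg he u

end PFL
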