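import Pool.Agent.PFL.A5

/-!
# [PFL-A6] traces with respect to a metric: change of basis and derivative
-/

open scoped BigOperators ContDiff Matrix

namespace PFL

variable {V : Type*} [AddCommGroup V] [Module ℝ V]
variable {br : V →ₗ[ℝ] V →ₗ[ℝ] V} {J : V →ₗ[ℝ] V} {g : V →ₗ[ℝ] V →ₗ[ℝ] ℝ}
variable {m : ℕ}

theorem contDiffAt_det {E : Type*} [NormedAddCommGroup E] [NormedSpace ℝ E] {k : ℕ}
    {n : WithTop ℕ∞} {f : E → Matrix (Fin k) (Fin k) ℝ} {x : E}
    (hf : ∀ i j, ContDiffAt ℝ n (fun y => f y i j) x) : ContDiffAt ℝ n (fun y => (f y).det) x := by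
  simp_rw [Matrix.det_apply]
  refine ContDiffAt.sum fun σ _ => ?_
  have h : ContDiffAt ℝ n (fun y => ∏ i, f y (σ i) i) x := contDiffAt_prod fun i _ => hf _ _
  exact h.const_smul (Equiv.Perm.sign σ)

theorem contDiffAt_inv {E : Type*} [NormedAddCommGroup E] [NormedSpace ℝ E] {k : ℕ}
    {n : WithTop ℕ∞} {f : E → Matrix (Fin k) (Fin k) ℝ} {x : E}
    (hf : ∀ i j, ContDiffAt ℝ n (fun y => f y i j) x) (hx : (f x).det ≠ 0) (i j : Fin k) :
    ContDiffAt ℝ n (fun y => (f y)⁻¹ i j) x := by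
  have h1 : ContDiffAt ℝ n (fun y => (f y).adjugate i j) x := by
    simp_rw [Matrix.adjugate_apply]
    apply contDiffAt_det
    intro a b
    by_cases h : a = j
    · subst h
      simp only [Matrix.updateRow_self]
      exact contDiffAt_const
    · simp only [Matrix.updateRow_ne h]
      exact hf a b
  have h2 : (fun y => (f y)⁻¹ i j) = fun y => ((f y).det)⁻¹ * (f y).adjugate i j := by
    funext y
    rw [Matrix.inv_def, Matrix.smul_apply, Ring.inverse_eq_inv', smul_eq_mul]
  rw [h2]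
  exact ((contDiffAt_det hf).inv hx).mul h1

theorem orth_gram {e : Module.Basis (Fin m) ℝ V} (he : Orth g e) :
    (Matrix.of fun i j => g (e i) (e j)) = 1 := by
  ext i j
  rw [Matrix.of_apply, he, Matrix.one_apply]

theorem trg_orth {e : Module.Basis (Fin m) ℝ V} (he : Orth g e) (β : V → V → ℝ) :
    trg e g β = ∑ i, β (e i) (e i) := by
  unfold trg
  rw [orth_gram he, inv_one]
  refine Finset.sum_congr rfl fun i _ => ?_
  rw [Finset.sum_eq_single i]
  · simp
  · intro j _ hj
    rw [Matrix.one_apply_ne (Ne.symm hj), zero_mul]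
  · intro h; exact absurd (Finset.mem_univ i) h

theorem trg_basis (b e : Module.Basis (Fin m) ℝ V) (g β : V →ₗ[ℝ] V →ₗ[ℝ] ℝ) :
    trg b g (fun X Y => β X Y) = trg e g (fun X Y => β X Y) := by
  have hP : IsUnit (b.toMatrix e).det :=
    Matrix.isUnit_det_of_right_inverse (b.toMatrix_mul_toMatrix_flip e)
  have hg : LinearMap.toMatrix₂ e e g
      = (b.toMatrix e)ᵀ * LinearMap.toMatrix₂ b b g * b.toMatrix e :=
    (LinearMap.toMatrix₂_mul_basis_toMatrix b b e e g).symm
  have hβ : LinearMap.toMatrix₂ e e β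
      = (b.toMatrix e)ᵀ * LinearMap.toMatrix₂ b b β * b.toMatrix e :=
    (LinearMap.toMatrix₂_mul_basis_toMatrix b b e e β).symm
  have key : ∀ (c : Module.Basis (Fin m) ℝ V), trg c g (fun X Y => β X Y)
      = Matrix.trace (((LinearMap.toMatrix₂ c c g)⁻¹)ᵀ * LinearMap.toMatrix₂ c c β) := by
    intro c
    unfold trg
    have h1 : (Matrix.of fun i j => g (c i) (c j)) = LinearMap.toMatrix₂ c c g := by
      ext i j
      rw [Matrix.of_apply, LinearMap.toMatrix₂_apply]
    rw [h1, Matrix.trace, Finset.sum_comm]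
    refine Finset.sum_congr rfl fun i _ => ?_
    rw [Matrix.diag_apply, Matrix.mul_apply]
    refine Finset.sum_congr rfl fun j _ => ?_
    rw [Matrix.transpose_apply, LinearMap.toMatrix₂_apply]
  rw [key b, key e, hg, hβ]
  set P := b.toMatrix e
  set A := LinearMap.toMatrix₂ b b g
  set B := LinearMap.toMatrix₂ b b β
  have hPP : P * P⁻¹ = 1 := Matrix.mul_nonsing_inv P hP
  rw [Matrix.mul_inv_rev, Matrix.mul_inv_rev, Matrix.transpose_mul, Matrix.transpose_mul,
    ← Matrix.transpose_nonsing_inv, Matrix.transpose_transpose]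
  have h : (P⁻¹ * A⁻¹ᵀ * P⁻¹ᵀ) * (Pᵀ * B * P) = P⁻¹ * (A⁻¹ᵀ * B) * P := by
    have h2 : P⁻¹ᵀ * Pᵀ = 1 := by rw [← Matrix.transpose_mul, hPP, Matrix.transpose_one]
    calc (P⁻¹ * A⁻¹ᵀ * P⁻¹ᵀ) * (Pᵀ * B * P) = P⁻¹ * A⁻¹ᵀ * (P⁻¹ᵀ * Pᵀ) * B * P := by
          simp only [Matrix.mul_assoc]
      _ = _ := by rw [h2, Matrix.mul_one]; simp only [Matrix.mul_assoc]
  rw [h, Matrix.trace_mul_comm (P⁻¹ * (A⁻¹ᵀ * B)) P, ← Matrix.mul_assoc, hPP, Matrix.one_mul]

theorem exists_orth (b : Module.Basis (Fin m) ℝ V) (hg : Met J g) :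
    ∃ e : Module.Basis (Fin m) ℝ V, Orth g e := by
  have : Module.Finite ℝ V := Module.Finite.of_basis b
  let core : InnerProductSpace.Core ℝ V :=
    { inner := fun X Y => g X Y
      conj_inner_symm := fun X Y => by simpa using hg.symm Y X
      re_inner_nonneg := fun X => by simpa using met_nonneg hg X
      add_left := fun X Y Z => by simp
      smul_left := fun X Y r => by simp
      definite := fun X h => by
        by_contra hX
        exact absurd h (hg.pos X hX).ne' }
  let _ : NormedAddCommGroup V := core.toNormedAddCommGroup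
  let _ : InnerProductSpace ℝ V := InnerProductSpace.ofCore core.toCore
  have hfr : Module.finrank ℝ V = m := by
    rw [Module.finrank_eq_card_basis b, Fintype.card_fin]
  let e := (stdOrthonormalBasis ℝ V).reindex (finCongr hfr)
  refine ⟨e.toBasis, fun i j => ?_⟩
  have h := orthonormal_iff_ite.1 e.orthonormal i j
  rw [OrthonormalBasis.coe_toBasis]
  exact h

/-- derivative of a trace at a time where the basis is orthonormal -/
theorem hasDerivAt_trg {e : Module.Basis (Fin m) ℝ V} {gt : ℝ → V →ₗ[ℝ] V →ₗ[ℝ] ℝ} {t₀ : ℝ}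
    (he : Orth (gt t₀) e) {γ : V → V → ℝ}
    (hg : ∀ i j, HasDerivAt (fun t => gt t (e i) (e j)) (γ (e i) (e j)) t₀)
    {β : ℝ → V → V → ℝ} {β' : Fin m → Fin m → ℝ}
    (hβ : ∀ i j, HasDerivAt (fun t => β t (e i) (e j)) (β' i j) t₀) :
    HasDerivAt (fun t => trg e (gt t) (β t))
      ((∑ i, β' i i) - ∑ i, ∑ j, γ (e i) (e j) * β t₀ (e i) (e j)) t₀ := by
  set M : ℝ → Matrix (Fin m) (Fin m) ℝ := fun t => Matrix.of fun i j => gt t (e i) (e j) with hM
  have hM0 : M t₀ = 1 := orth_gram he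
  have hMd : ∀ i j, HasDerivAt (fun t => M t i j) (γ (e i) (e j)) t₀ := fun i j => hg i j
  -- differentiability of the inverse
  have hdiff : ∀ i j, DifferentiableAt ℝ (fun t => (M t)⁻¹ i j) t₀ := by
    intro i j
    have h1 : ContDiffAt ℝ 1 (fun F : Fin m → Fin m → ℝ => (Matrix.of F)⁻¹ i j)
        (fun i j => gt t₀ (e i) (e j)) := by
      apply contDiffAt_inv
      · intro a b
        have : ContDiff ℝ 1 (fun F : Fin m → Fin m → ℝ => F a b) := by fun_prop
        exact this.contDiffAt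
      · have : (Matrix.of fun i j => gt t₀ (e i) (e j)).det = 1 := by
          rw [orth_gram he, Matrix.det_one]
        rw [this]; norm_num
    have h2 : DifferentiableAt ℝ (fun t => fun i j => gt t (e i) (e j)) t₀ := by
      rw [differentiableAt_pi]
      intro a
      rw [differentiableAt_pi]
      intro b
      exact (hg a b).differentiableAt
    exact (h1.differentiableAt (by norm_num)).comp t₀ h2
  -- value of the derivative
  have hinv : ∀ i j, HasDerivAt (fun t => (M t)⁻¹ i j) (-γ (e i) (e j)) t₀ := by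
    intro i j
    have hev : ∀ᶠ t in nhds t₀, (M t).det ≠ 0 := by
      have hc : ContinuousAt (fun t => (M t).det) t₀ := by
        simp_rw [Matrix.det_apply]
        refine tendsto_finsetSum _ fun σ _ => ?_
        refine Filter.Tendsto.const_smul ?_ _
        exact tendsto_finsetProd _ fun i _ => (hMd _ _).continuousAt
      have h1 : (M t₀).det ≠ 0 := by rw [hM0, Matrix.det_one]; norm_num
      exact hc.eventually_ne h1
    have hid : ∀ᶠ t in nhds t₀, ∑ k, M t i k * (M t)⁻¹ k j = (1 : Matrix (Fin m) (Fin m) ℝ) i j := by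
      filter_upwards [hev] with t ht
      rw [← Matrix.mul_apply, Matrix.mul_nonsing_inv _ (isUnit_iff_ne_zero.2 ht)]
    have hd : HasDerivAt (fun t => ∑ k, M t i k * (M t)⁻¹ k j)
        (∑ k, (γ (e i) (e k) * (M t₀)⁻¹ k j + M t₀ i k * deriv (fun t => (M t)⁻¹ k j) t₀)) t₀ :=
      HasDerivAt.fun_sum fun k _ => (hMd i k).mul (hdiff k j).hasDerivAt
    have hd0 : HasDerivAt (fun t => ∑ k, M t i k * (M t)⁻¹ k j) 0 t₀ := by
      have := (hasDerivAt_const t₀ ((1 : Matrix (Fin m) (Fin m) ℝ) i j))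
      exact this.congr_of_eventuallyEq hid
    have h0 := hd.unique hd0
    rw [Finset.sum_add_distrib, hM0, inv_one] at h0
    have s1 : ∑ k, γ (e i) (e k) * (1 : Matrix (Fin m) (Fin m) ℝ) k j = γ (e i) (e j) := by
      rw [Finset.sum_eq_single j]
      · simp
      · intro k _ hk; rw [Matrix.one_apply_ne hk, mul_zero]
      · intro h; exact absurd (Finset.mem_univ j) h
    have s2 : ∑ k, (1 : Matrix (Fin m) (Fin m) ℝ) i k * deriv (fun t => (M t)⁻¹ k j) t₀
        = deriv (fun t => (M t)⁻¹ i j) t₀ := by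
      rw [Finset.sum_eq_single i]
      · simp
      · intro k _ hk; rw [Matrix.one_apply_ne (Ne.symm hk), zero_mul]
      · intro h; exact absurd (Finset.mem_univ i) h
    rw [s1, s2] at h0
    have h3 : deriv (fun t => (M t)⁻¹ i j) t₀ = -γ (e i) (e j) := by linarith
    rw [← h3]
    exact (hdiff i j).hasDerivAt
  have hfin : HasDerivAt (fun t => ∑ i, ∑ j, (M t)⁻¹ i j * β t (e i) (e j))
      (∑ i, ∑ j, (-γ (e i) (e j) * β t₀ (e i) (e j) + (M t₀)⁻¹ i j * β' i j)) t₀ :=
    HasDerivAt.fun_sum fun i _ => HasDerivAt.fun_sum fun j _ => (hinv i j).mul (hβ i j)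
  have hval : ∑ i, ∑ j, (-γ (e i) (e j) * β t₀ (e i) (e j) + (M t₀)⁻¹ i j * β' i j)
      = (∑ i, β' i i) - ∑ i, ∑ j, γ (e i) (e j) * β t₀ (e i) (e j) := by
    rw [hM0, inv_one]
    simp only [Finset.sum_add_distrib, neg_mul, Finset.sum_neg_distrib]
    have : ∀ i, ∑ j, (1 : Matrix (Fin m) (Fin m) ℝ) i j * β' i j = β' i i := by
      intro i
      rw [Finset.sum_eq_single i]
      · simp
      · intro k _ hk; rw [Matrix.one_apply_ne (Ne.symm hk), zero_mul]
      · intro h; exact absurd (Finset.mem_univ i) h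
    simp_rw [this]
    ring
  rw [hval] at hfin
  exact hfin

end PFL
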