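import Pool.Agent.PFL.A6

/-!
# [PFL-A7] the evolution of `|η|²` and `|[·,·]|²`
-/

open scoped BigOperators ContDiff Matrix

namespace PFL

variable {V : Type*} [AddCommGroup V] [Module ℝ V]
variable {br : V →ₗ[ℝ] V →ₗ[ℝ] V} {J : V →ₗ[ℝ] V} {g : V →ₗ[ℝ] V →ₗ[ℝ] ℝ}
variable {m : ℕ}

/-- `η` as a linear form -/
noncomputable def etaL (b : Module.Basis (Fin m) ℝ V) (br : V →ₗ[ℝ] V →ₗ[ℝ] V) (J : V →ₗ[ℝ] V)
    (g : V →ₗ[ℝ] V →ₗ[ℝ] ℝ) : V →ₗ[ℝ] ℝ :=
  zh br J - (1 / 2 : ℝ) • ∑ i, ∑ j, (Matrix.of fun i j => g (b i) (b j))⁻¹ i j • g (br (J (b i)) (b j))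

theorem etaL_apply (b : Module.Basis (Fin m) ℝ V) (X : V) : etaL b br J g X = eta b br J g X := by
  unfold etaL eta trg
  simp only [LinearMap.sub_apply, LinearMap.smul_apply, LinearMap.sum_apply, smul_eq_mul]

theorem eta_basis (b e : Module.Basis (Fin m) ℝ V) (X : V) :
    eta b br J g X = eta e br J g X := by
  unfold eta
  congr 2
  exact trg_basis b e g ((br.comp J).compr₂ (g.flip X))

theorem eta_orth {e : Module.Basis (Fin m) ℝ V} (he : Orth g e) (b : Module.Basis (Fin m) ℝ V)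
    (X : V) : eta b br J g X = zh br J X - g (vv br J e) X := by
  rw [eta_basis b e]
  unfold eta
  rw [trg_orth he, g_vv]

theorem exists_dual {e : Module.Basis (Fin m) ℝ V} (hg : Met J g) (he : Orth g e)
    (f : V →ₗ[ℝ] ℝ) : ∃ u : V, ∀ X, g u X = f X := by
  refine ⟨∑ i, f (e i) • e i, fun X => ?_⟩
  rw [map_sum, LinearMap.sum_apply, orth_lin he f X]
  refine Finset.sum_congr rfl fun i _ => ?_
  rw [map_smul, LinearMap.smul_apply, smul_eq_mul, smul_eq_mul, hg.symm (e i), mul_comm]

/-- product of two linear forms -/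
noncomputable def prodM (f f' : V →ₗ[ℝ] ℝ) : V →ₗ[ℝ] V →ₗ[ℝ] ℝ :=
  LinearMap.mk₂ ℝ (fun X Y => f X * f' Y) (fun a b c => by simp only [map_add]; ring)
    (fun r a b => by simp only [map_smul, smul_eq_mul]; ring)
    (fun a b c => by simp only [map_add]; ring)
    (fun r a b => by simp only [map_smul, smul_eq_mul]; ring)

theorem En_basis (b e : Module.Basis (Fin m) ℝ V) : En b br J g = En e br J g := by
  unfold En
  have h : ∀ c : Module.Basis (Fin m) ℝ V, (fun X Y => eta c br J g X * eta c br J g Y)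
      = fun X Y => prodM (etaL c br J g) (etaL c br J g) X Y := by
    intro c
    funext X Y
    show _ = etaL c br J g X * etaL c br J g Y
    rw [etaL_apply, etaL_apply]
  have h2 : (fun X Y => eta b br J g X * eta b br J g Y)
      = fun X Y => eta e br J g X * eta e br J g Y := by
    funext X Y
    rw [eta_basis b e, eta_basis b e]
  rw [h b, trg_basis b e, ← h b, h2]

/-- the inner trace of `kap`, as a bilinear map -/
noncomputable def kin (b : Module.Basis (Fin m) ℝ V) (br : V →ₗ[ℝ] V →ₗ[ℝ] V)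
    (g : V →ₗ[ℝ] V →ₗ[ℝ] ℝ) : V →ₗ[ℝ] V →ₗ[ℝ] ℝ :=
  ∑ i, ∑ j, (Matrix.of fun i j => g (b i) (b j))⁻¹ i j • g.compl₁₂ (br.flip (b i)) (br.flip (b j))

theorem kin_apply (b : Module.Basis (Fin m) ℝ V) (X Y : V) :
    kin b br g X Y = trg b g (fun Z W => g (br X Z) (br Y W)) := by
  unfold kin trg
  simp only [LinearMap.sum_apply, LinearMap.smul_apply, smul_eq_mul]
  rfl

theorem kap_basis (b e : Module.Basis (Fin m) ℝ V) : kap b br g = kap e br g := by
  unfold kap
  have h1 : (fun X Y => trg b g (fun Z W => g (br X Z) (br Y W)))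
      = fun X Y => trg e g (fun Z W => g (br X Z) (br Y W)) := by
    funext X Y
    exact trg_basis b e g (g.compl₁₂ (br X) (br Y))
  have h2 : (fun X Y => trg e g (fun Z W => g (br X Z) (br Y W))) = fun X Y => kin e br g X Y := by
    funext X Y
    rw [kin_apply]
  rw [h1, h2, trg_basis b e]

theorem kap_orth {e : Module.Basis (Fin m) ℝ V} (he : Orth g e) (b : Module.Basis (Fin m) ℝ V) :
    kap b br g = kapo br g e := by
  rw [kap_basis b e]
  unfold kap kapo
  rw [trg_orth he]
  exact Finset.sum_congr rfl fun i _ => trg_orth he _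

theorem En_orth {e : Module.Basis (Fin m) ℝ V} (he : Orth g e) (b : Module.Basis (Fin m) ℝ V)
    {u : V} (hu : ∀ X, g u X = eta b br J g X) : En b br J g = g u u := by
  rw [En_basis b e]
  unfold En
  rw [trg_orth he, parseval he u u]
  refine Finset.sum_congr rfl fun i _ => ?_
  rw [hu, eta_basis b e]

theorem gmf_lin_right (u : V) : ∃ β : V →ₗ[ℝ] V →ₗ[ℝ] ℝ, ∀ X Y, β X Y = gmf br J g u X Y := by
  refine ⟨LinearMap.mk₂ ℝ (fun X Y => gmf br J g u X Y) ?_ ?_ ?_ ?_, fun X Y => rfl⟩
  · intro a b c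
    unfold gmf
    simp only [map_add, LinearMap.add_apply]
    ring
  · intro r a b
    unfold gmf
    simp only [map_smul, LinearMap.smul_apply, smul_eq_mul]
    ring
  · intro a b c
    unfold gmf
    simp only [map_add, LinearMap.add_apply]
    ring
  · intro r a b
    unfold gmf
    simp only [map_smul, LinearMap.smul_apply, smul_eq_mul]
    ring

theorem deriv_package (hb : LieB br) (hJ : CStr br J) (b : Module.Basis (Fin m) ℝ V)
    {gt : ℝ → V →ₗ[ℝ] V →ₗ[ℝ] ℝ} {t₀ : ℝ} (hg : Met J (gt t₀)) (hc : Closed br J (gt t₀))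
    (hd : ∀ X Y, HasDerivAt (fun t => gt t X Y) (Fg b br J (gt t₀) X Y) t₀) :
    ∃ n : ℝ, 0 ≤ n ∧ HasDerivAt (fun t => En b br J (gt t)) (-n) t₀ ∧
      (∃ k, HasDerivAt (fun t => kap b br (gt t)) k t₀ ∧
        |k| ≤ 3 * Real.sqrt n * kap b br (gt t₀)) ∧
      (∀ X, |Fg b br J (gt t₀) X X|
        ≤ (Real.sqrt n + Real.sqrt (kap b br (gt t₀) * En b br J (gt t₀))) * gt t₀ X X) ∧
      0 ≤ En b br J (gt t₀) ∧ 0 ≤ kap b br (gt t₀) := by
  obtain ⟨e, he⟩ := exists_orth b hg
  obtain ⟨u, hu'⟩ := exists_dual hg he (etaL b br J (gt t₀))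
  have hu : ∀ X, gt t₀ u X = eta b br J (gt t₀) X := fun X => by rw [hu', etaL_apply]
  have hu2 : ∀ X, gt t₀ u X = zh br J X - gt t₀ (vv br J e) X := fun X => by
    rw [hu, eta_orth he]
  have hF : ∀ X Y, Fg b br J (gt t₀) X Y = gmf br J (gt t₀) u X Y := by
    intro X Y
    unfold Fg gmf
    rw [← hu, ← hu, hg.symm u, hg.symm u]
  have hd' : ∀ X Y, HasDerivAt (fun t => gt t X Y) (gmf br J (gt t₀) u X Y) t₀ := fun X Y => by
    rw [← hF]; exact hd X Y
  obtain ⟨γ, hγ⟩ := gmf_lin_right (br := br) (J := J) (g := gt t₀) u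
  set n := ∑ i, ∑ j, Nf br J (gt t₀) u (e i) (e j) ^ 2 with hn
  have hEn : En b br J (gt t₀) = gt t₀ u u := En_orth he b hu
  have hkap : kap b br (gt t₀) = kapo br (gt t₀) e := kap_orth he b
  refine ⟨n, Finset.sum_nonneg fun _ _ => Finset.sum_nonneg fun _ _ => sq_nonneg _, ?_, ?_, ?_, ?_,
    ?_⟩
  · -- derivative of the energy
    have hη : ∀ X, HasDerivAt (fun t => eta e br J (gt t) X)
        (-(1 / 2) * ((∑ i, gmf br J (gt t₀) u (br (J (e i)) (e i)) X)
          - ∑ i, ∑ j, gmf br J (gt t₀) u (e i) (e j) * gt t₀ (br (J (e i)) (e j)) X)) t₀ := by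
      intro X
      have h := hasDerivAt_trg he (γ := gmf br J (gt t₀) u) (fun i j => hd' _ _)
        (β := fun t Y Z => gt t (br (J Y) Z) X)
        (β' := fun i j => gmf br J (gt t₀) u (br (J (e i)) (e j)) X) (fun i j => hd' _ _)
      have h2 := (h.const_mul (1 / 2 : ℝ)).const_sub (zh br J X)
      unfold eta
      convert! h2 using 1
      ring
    have hE : HasDerivAt (fun t => trg e (gt t) (fun X Y => eta e br J (gt t) X * eta e br J (gt t) Y))
        _ t₀ := hasDerivAt_trg he (γ := gmf br J (gt t₀) u) (fun i j => hd' _ _)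
        (β := fun t X Y => eta e br J (gt t) X * eta e br J (gt t) Y)
        (β' := fun i j => (-(1 / 2) * ((∑ k, gmf br J (gt t₀) u (br (J (e k)) (e k)) (e i))
          - ∑ k, ∑ l, gmf br J (gt t₀) u (e k) (e l) * gt t₀ (br (J (e k)) (e l)) (e i)))
            * eta e br J (gt t₀) (e j)
          + eta e br J (gt t₀) (e i) * (-(1 / 2) * ((∑ k, gmf br J (gt t₀) u (br (J (e k)) (e k)) (e j))
          - ∑ k, ∑ l, gmf br J (gt t₀) u (e k) (e l) * gt t₀ (br (J (e k)) (e l)) (e j))))
        (fun i j => (hη (e i)).mul (hη (e j)))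
    have hEe : (fun t => En b br J (gt t))
        = fun t => trg e (gt t) (fun X Y => eta e br J (gt t) X * eta e br J (gt t) Y) := by
      funext t
      exact En_basis b e
    rw [hEe]
    convert! hE using 1
    have hue : ∀ X, eta e br J (gt t₀) X = gt t₀ u X := fun X => by rw [hu, eta_basis b e]
    simp_rw [hue]
    -- `∑_i x(e_i) g(u,e_i) = x(u)`
    have r1 : ∀ f : V →ₗ[ℝ] ℝ, ∑ i, f (e i) * gt t₀ u (e i) = f u := by
      intro f
      rw [orth_lin he f u]
      exact Finset.sum_congr rfl fun i _ => by rw [smul_eq_mul, mul_comm]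
    have r2 : ∑ i, (∑ k, gmf br J (gt t₀) u (br (J (e k)) (e k)) (e i)) * gt t₀ u (e i)
        = 2 * gmf br J (gt t₀) u (vv br J e) u := by
      have h := r1 (∑ k, γ (br (J (e k)) (e k)))
      simp only [LinearMap.sum_apply, hγ] at h
      rw [h, ← hγ]
      unfold vv
      rw [map_smul, LinearMap.smul_apply, map_sum, LinearMap.sum_apply, smul_eq_mul]
      simp_rw [hγ]
      ring
    have r3 : ∑ i, (∑ k, ∑ l, gmf br J (gt t₀) u (e k) (e l) * gt t₀ (br (J (e k)) (e l)) (e i))
        * gt t₀ u (e i) = -∑ k, ∑ l, gmf br J (gt t₀) u (e k) (e l) ^ 2 := by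
      have h := r1 (∑ k, ∑ l, gmf br J (gt t₀) u (e k) (e l) • gt t₀ (br (J (e k)) (e l)))
      simp only [LinearMap.sum_apply, LinearMap.smul_apply, smul_eq_mul] at h
      rw [h]
      have h2 : ∑ k, ∑ l, gmf br J (gt t₀) u (e k) (e l) * gt t₀ (br (J (e k)) (e l)) u
          = ∑ k, ∑ l, gmf br J (gt t₀) u (e k) (e l) * gt t₀ (br (J (e l)) (e k)) u := by
        rw [Finset.sum_comm]
        exact Finset.sum_congr rfl fun k _ => Finset.sum_congr rfl fun l _ => by
          rw [gmf_symm]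
      have h3 : ∀ k l, gmf br J (gt t₀) u (e k) (e l) * gt t₀ (br (J (e k)) (e l)) u
          + gmf br J (gt t₀) u (e k) (e l) * gt t₀ (br (J (e l)) (e k)) u
          = -2 * gmf br J (gt t₀) u (e k) (e l) ^ 2 := by
        intro k l
        have h4 : gt t₀ (br (J (e k)) (e l)) u + gt t₀ (br (J (e l)) (e k)) u
            = -2 * gmf br J (gt t₀) u (e k) (e l) := by
          unfold gmf
          rw [hb.skew (J (e k)) (e l), hb.skew (J (e l)) (e k)]
          simp only [map_neg, LinearMap.neg_apply]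
          ring
        rw [← mul_add, h4]
        ring
      have h5 : ∑ k, ∑ l, (gmf br J (gt t₀) u (e k) (e l) * gt t₀ (br (J (e k)) (e l)) u
          + gmf br J (gt t₀) u (e k) (e l) * gt t₀ (br (J (e l)) (e k)) u)
          = -2 * ∑ k, ∑ l, gmf br J (gt t₀) u (e k) (e l) ^ 2 := by
        rw [Finset.mul_sum]
        refine Finset.sum_congr rfl fun k _ => ?_
        rw [Finset.mul_sum]
        exact Finset.sum_congr rfl fun l _ => h3 k l
      simp only [Finset.sum_add_distrib] at h5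
      linarith
    have r4 : ∑ i, ∑ j, gmf br J (gt t₀) u (e i) (e j) * (gt t₀ u (e i) * gt t₀ u (e j))
        = gmf br J (gt t₀) u u u := by
      have h := orth_lin he (γ.flip u) u
      rw [LinearMap.flip_apply, hγ] at h
      rw [h]
      refine Finset.sum_congr rfl fun i _ => ?_
      rw [LinearMap.flip_apply, orth_lin he (γ (e i)) u, smul_eq_mul, Finset.mul_sum]
      refine Finset.sum_congr rfl fun j _ => ?_
      rw [hγ, smul_eq_mul]
      ring
    have hmain := sum_N_sq hb hJ hg hc he hu2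
    rw [← hn] at hmain
    rw [r4]
    have r5 : ∑ i, ((-(1 / 2) * ((∑ k, gmf br J (gt t₀) u (br (J (e k)) (e k)) (e i))
          - ∑ k, ∑ l, gmf br J (gt t₀) u (e k) (e l) * gt t₀ (br (J (e k)) (e l)) (e i)))
            * gt t₀ u (e i)
          + gt t₀ u (e i) * (-(1 / 2) * ((∑ k, gmf br J (gt t₀) u (br (J (e k)) (e k)) (e i))
          - ∑ k, ∑ l, gmf br J (gt t₀) u (e k) (e l) * gt t₀ (br (J (e k)) (e l)) (e i))))
        = -(2 * gmf br J (gt t₀) u (vv br J e) u)
          + -∑ k, ∑ l, gmf br J (gt t₀) u (e k) (e l) ^ 2 := by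
      rw [← r2, ← r3, ← Finset.sum_neg_distrib, ← Finset.sum_add_distrib]
      exact Finset.sum_congr rfl fun i _ => by ring
    rw [r5]
    linarith
  · -- derivative of the norm of the bracket
    refine ⟨kd br (gt t₀) e (gmf br J (gt t₀) u), ?_, ?_⟩
    · have hin : ∀ X Y, HasDerivAt (fun t => trg e (gt t) (fun Z W => gt t (br X Z) (br Y W)))
          ((∑ k, gmf br J (gt t₀) u (br X (e k)) (br Y (e k)))
            - ∑ k, ∑ l, gmf br J (gt t₀) u (e k) (e l) * gt t₀ (br X (e k)) (br Y (e l))) t₀ :=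
        fun X Y => hasDerivAt_trg he (γ := gmf br J (gt t₀) u) (fun i j => hd' _ _)
          (β := fun t Z W => gt t (br X Z) (br Y W))
          (β' := fun i j => gmf br J (gt t₀) u (br X (e i)) (br Y (e j))) (fun i j => hd' _ _)
      have hout := hasDerivAt_trg he (γ := gmf br J (gt t₀) u) (fun i j => hd' _ _)
          (β := fun t X Y => trg e (gt t) (fun Z W => gt t (br X Z) (br Y W)))
          (β' := fun i j => (∑ k, gmf br J (gt t₀) u (br (e i) (e k)) (br (e j) (e k)))
            - ∑ k, ∑ l, gmf br J (gt t₀) u (e k) (e l) * gt t₀ (br (e i) (e k)) (br (e j) (e l)))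
          (fun i j => hin (e i) (e j))
      have hke : (fun t => kap b br (gt t)) = fun t => kap e br (gt t) := by
        funext t
        exact kap_basis b e
      rw [hke]
      unfold kap
      convert! hout using 1
      unfold kd
      have q1 : ∀ i j, trg e (gt t₀) (fun Z W => gt t₀ (br (e i) Z) (br (e j) W))
          = hM br (gt t₀) e (e i) (e j) := by
        intro i j
        rw [trg_orth he, hM_apply]
      simp_rw [q1]
      rw [Finset.sum_sub_distrib]
      have q2 : ∑ i, ∑ k, ∑ l, gmf br J (gt t₀) u (e k) (e l)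
          * gt t₀ (br (e i) (e k)) (br (e i) (e l))
          = ∑ k, ∑ l, gmf br J (gt t₀) u (e k) (e l) * hM br (gt t₀) e (e k) (e l) := by
        rw [Finset.sum_comm]
        refine Finset.sum_congr rfl fun k _ => ?_
        rw [Finset.sum_comm]
        refine Finset.sum_congr rfl fun l _ => ?_
        rw [hM_apply, Finset.mul_sum]
        refine Finset.sum_congr rfl fun i _ => ?_
        rw [hb.skew (e i) (e k), hb.skew (e i) (e l)]
        simp
      rw [q2]
      ring
    · rw [hkap]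
      exact kd_bound hb hJ hg he u
  · intro X
    rw [hF, hkap, hEn]
    exact gm_bound hb hJ hg he u X
  · rw [hEn]; exact met_nonneg hg u
  · rw [hkap]; exact kapo_nonneg hg

end PFL
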