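import Pool.Agent.PFL.A7

/-!
# [PFL-A8] the a priori estimate
-/

open scoped BigOperators ContDiff Matrix Topology

namespace PFL

variable {V : Type*} [AddCommGroup V] [Module ℝ V]
variable {br : V →ₗ[ℝ] V →ₗ[ℝ] V} {J : V →ₗ[ℝ] V} {g : V →ₗ[ℝ] V →ₗ[ℝ] ℝ}
variable {m : ℕ}

theorem gram_det_ne (b : Module.Basis (Fin m) ℝ V) (hg : Met J g) :
    (Matrix.of fun i j => g (b i) (b j)).det ≠ 0 := by
  obtain ⟨e, he⟩ := exists_orth b hg
  have h1 : LinearMap.toMatrix₂ e e g
      = (b.toMatrix e)ᵀ * LinearMap.toMatrix₂ b b g * b.toMatrix e :=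
    (LinearMap.toMatrix₂_mul_basis_toMatrix b b e e g).symm
  have h2 : LinearMap.toMatrix₂ e e g = 1 := by
    rw [← orth_gram he]
    ext i j
    rw [Matrix.of_apply, LinearMap.toMatrix₂_apply]
  have h3 : (Matrix.of fun i j => g (b i) (b j)) = LinearMap.toMatrix₂ b b g := by
    ext i j
    rw [Matrix.of_apply, LinearMap.toMatrix₂_apply]
  rw [h3]
  intro h0
  have h4 := congrArg Matrix.det h1
  rw [h2, Matrix.det_one, Matrix.det_mul, Matrix.det_mul, h0] at h4
  simp at h4

theorem cont_inv (b : Module.Basis (Fin m) ℝ V) {gt : ℝ → V →ₗ[ℝ] V →ₗ[ℝ] ℝ} {S : Set ℝ} {t₀ : ℝ}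
    (hg : Met J (gt t₀)) (hc : ∀ X Y, ContinuousWithinAt (fun t => gt t X Y) S t₀) (i j : Fin m) :
    ContinuousWithinAt (fun t => (Matrix.of fun i j => gt t (b i) (b j))⁻¹ i j) S t₀ := by
  have h1 : ContDiffAt ℝ 0 (fun F : Fin m → Fin m → ℝ => (Matrix.of F)⁻¹ i j)
      (fun i j => gt t₀ (b i) (b j)) := by
    apply contDiffAt_inv
    · intro a c
      have : ContDiff ℝ 0 (fun F : Fin m → Fin m → ℝ => F a c) := by fun_prop
      exact this.contDiffAt
    · exact gram_det_ne b hg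
  have h2 : ContinuousWithinAt (fun t => fun i j => gt t (b i) (b j)) S t₀ := by
    rw [continuousWithinAt_pi]
    intro a
    rw [continuousWithinAt_pi]
    intro c
    exact hc _ _
  exact h1.continuousAt.comp_continuousWithinAt h2

theorem cont_trg (b : Module.Basis (Fin m) ℝ V) {gt : ℝ → V →ₗ[ℝ] V →ₗ[ℝ] ℝ} {S : Set ℝ} {t₀ : ℝ}
    (hg : Met J (gt t₀)) (hc : ∀ X Y, ContinuousWithinAt (fun t => gt t X Y) S t₀)
    {β : ℝ → V → V → ℝ} (hβ : ∀ X Y, ContinuousWithinAt (fun t => β t X Y) S t₀) :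
    ContinuousWithinAt (fun t => trg b (gt t) (β t)) S t₀ := by
  unfold trg
  exact tendsto_finsetSum _ fun i _ => tendsto_finsetSum _ fun j _ =>
    (cont_inv b hg hc i j).mul (hβ _ _)

theorem cont_eta (b : Module.Basis (Fin m) ℝ V) {gt : ℝ → V →ₗ[ℝ] V →ₗ[ℝ] ℝ} {S : Set ℝ} {t₀ : ℝ}
    (hg : Met J (gt t₀)) (hc : ∀ X Y, ContinuousWithinAt (fun t => gt t X Y) S t₀) (X : V) :
    ContinuousWithinAt (fun t => eta b br J (gt t) X) S t₀ := by
  unfold eta
  exact continuousWithinAt_const.sub (continuousWithinAt_const.mul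
    (cont_trg b hg hc fun Y Z => hc _ _))

theorem cont_En (b : Module.Basis (Fin m) ℝ V) {gt : ℝ → V →ₗ[ℝ] V →ₗ[ℝ] ℝ} {S : Set ℝ} {t₀ : ℝ}
    (hg : Met J (gt t₀)) (hc : ∀ X Y, ContinuousWithinAt (fun t => gt t X Y) S t₀) :
    ContinuousWithinAt (fun t => En b br J (gt t)) S t₀ := by
  unfold En
  exact cont_trg b hg hc fun X Y => (cont_eta b hg hc X).mul (cont_eta b hg hc Y)

theorem cont_kap (b : Module.Basis (Fin m) ℝ V) {gt : ℝ → V →ₗ[ℝ] V →ₗ[ℝ] ℝ} {S : Set ℝ} {t₀ : ℝ}
    (hg : Met J (gt t₀)) (hc : ∀ X Y, ContinuousWithinAt (fun t => gt t X Y) S t₀) :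
    ContinuousWithinAt (fun t => kap b br (gt t)) S t₀ := by
  unfold kap
  exact cont_trg b hg hc fun X Y => cont_trg b hg hc fun Z W => hc _ _

/-- the constant of the a priori estimate -/
noncomputable def Lam (E K T : ℝ) : ℝ :=
  E / 2 + (1 / 2 + Real.sqrt (K * Real.exp (3 / 2 * (E + T)) * E)) * T

theorem apriori (hb : LieB br) (hJ : CStr br J) (b : Module.Basis (Fin m) ℝ V)
    {gt : ℝ → V →ₗ[ℝ] V →ₗ[ℝ] ℝ} {s T : ℝ} (hs : 0 ≤ s) (hsT : s ≤ T)
    (hg : ∀ t ∈ Set.Icc 0 s, Met J (gt t)) (hc : ∀ t ∈ Set.Icc 0 s, Closed br J (gt t))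
    (hd : ∀ t ∈ Set.Icc 0 s, ∀ X Y,
      HasDerivWithinAt (fun t => gt t X Y) (Fg b br J (gt t) X Y) (Set.Icc 0 s) t) :
    ∀ t ∈ Set.Icc 0 s, ∀ X,
      gt 0 X X * Real.exp (-Lam (En b br J (gt 0)) (kap b br (gt 0)) T) ≤ gt t X X ∧
      gt t X X ≤ gt 0 X X * Real.exp (Lam (En b br J (gt 0)) (kap b br (gt 0)) T) := by
  have hcont : ∀ t ∈ Set.Icc 0 s, ∀ X Y,
      ContinuousWithinAt (fun t => gt t X Y) (Set.Icc 0 s) t :=
    fun t ht X Y => (hd t ht X Y).continuousWithinAt
  have hdi : ∀ t ∈ Set.Ioo 0 s, ∀ X Y, HasDerivAt (fun t => gt t X Y) (Fg b br J (gt t) X Y) t :=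
    fun t ht X Y => (hd t ⟨ht.1.le, ht.2.le⟩ X Y).hasDerivAt (Icc_mem_nhds ht.1 ht.2)
  have hpk := fun t (ht : t ∈ Set.Ioo 0 s) =>
    deriv_package hb hJ b (hg t ⟨ht.1.le, ht.2.le⟩) (hc t ⟨ht.1.le, ht.2.le⟩) (hdi t ht)
  set E : ℝ → ℝ := fun t => En b br J (gt t) with hE
  set K : ℝ → ℝ := fun t => kap b br (gt t) with hK
  have h0s : (0 : ℝ) ∈ Set.Icc 0 s := ⟨le_rfl, hs⟩
  have hEc : ContinuousOn E (Set.Icc 0 s) := fun t ht => cont_En b (hg t ht) (hcont t ht)
  have hKc : ContinuousOn K (Set.Icc 0 s) := fun t ht => cont_kap b (hg t ht) (hcont t ht)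
  -- nonnegativity, also at the end points
  have hnn : ∀ t ∈ Set.Icc 0 s, 0 ≤ E t ∧ 0 ≤ K t := by
    intro t ht
    obtain ⟨e, he⟩ := exists_orth b (hg t ht)
    obtain ⟨u, hu'⟩ := exists_dual (hg t ht) he (etaL b br J (gt t))
    have hu : ∀ X, gt t u X = eta b br J (gt t) X := fun X => by rw [hu', etaL_apply]
    constructor
    · show 0 ≤ En b br J (gt t)
      rw [En_orth he b hu]
      exact met_nonneg (hg t ht) u
    · show 0 ≤ kap b br (gt t)
      rw [kap_orth he b]
      exact kapo_nonneg (hg t ht)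
  have hE0 := (hnn 0 h0s).1
  have hK0 := (hnn 0 h0s).2
  -- `E` is antitone
  have hEa : AntitoneOn E (Set.Icc 0 s) := by
    apply antitoneOn_of_deriv_nonpos (convex_Icc 0 s) hEc
    · intro t ht
      rw [interior_Icc] at ht
      obtain ⟨n, _, h1, _⟩ := hpk t ht
      exact h1.differentiableAt.differentiableWithinAt
    · intro t ht
      rw [interior_Icc] at ht
      obtain ⟨n, hn, h1, _⟩ := hpk t ht
      rw [h1.deriv]
      linarith
  have hEle : ∀ t ∈ Set.Icc 0 s, E t ≤ E 0 := fun t ht => hEa h0s ht ht.1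
  -- `K` grows at most exponentially
  have hKle : ∀ t ∈ Set.Icc 0 s, K t ≤ K 0 * Real.exp (3 / 2 * (E 0 + T)) := by
    have hφ : AntitoneOn (fun t => K t * Real.exp (3 / 2 * E t - 3 / 2 * t)) (Set.Icc 0 s) := by
      have hder : ∀ t ∈ Set.Ioo 0 s, ∃ d ≤ (0 : ℝ),
          HasDerivAt (fun t => K t * Real.exp (3 / 2 * E t - 3 / 2 * t)) d t := by
        intro t ht
        obtain ⟨n, hn, h1, ⟨k, h2, h3⟩, _, _, h4⟩ := hpk t ht
        have h5 : HasDerivAt (fun t => 3 / 2 * E t - 3 / 2 * t) (3 / 2 * (-n) - 3 / 2 * 1) t :=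
          (h1.const_mul (3 / 2)).sub ((hasDerivAt_id t).const_mul (3 / 2))
        refine ⟨_, ?_, h2.mul h5.exp⟩
        have hsq := Real.sq_sqrt hn
        have hk := (abs_le.1 h3).2
        have h6 : k ≤ (3 / 2 * n + 3 / 2) * K t := by
          refine hk.trans ?_
          apply mul_le_mul_of_nonneg_right _ h4
          nlinarith [sq_nonneg (Real.sqrt n - 1)]
        have hexp := Real.exp_pos (3 / 2 * E t - 3 / 2 * t)
        have : k * Real.exp (3 / 2 * E t - 3 / 2 * t)
            + K t * (Real.exp (3 / 2 * E t - 3 / 2 * t) * (3 / 2 * (-n) - 3 / 2 * 1))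
            = Real.exp (3 / 2 * E t - 3 / 2 * t) * (k - (3 / 2 * n + 3 / 2) * K t) := by ring
        rw [this]
        exact mul_nonpos_of_nonneg_of_nonpos hexp.le (by linarith)
      apply antitoneOn_of_deriv_nonpos (convex_Icc 0 s)
      · exact hKc.mul ((((continuousOn_const.mul hEc).sub (continuousOn_const.mul continuousOn_id))).rexp)
      · intro t ht
        rw [interior_Icc] at ht
        obtain ⟨d, _, h⟩ := hder t ht
        exact h.differentiableAt.differentiableWithinAt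
      · intro t ht
        rw [interior_Icc] at ht
        obtain ⟨d, hd0, h⟩ := hder t ht
        rw [h.deriv]
        exact hd0
    intro t ht
    have h := hφ h0s ht ht.1
    simp only at h
    have h1 : K t ≤ K 0 * Real.exp (3 / 2 * E 0 - 3 / 2 * 0) * Real.exp (-(3 / 2 * E t - 3 / 2 * t)) := by
      have h2 := mul_le_mul_of_nonneg_right h (Real.exp_pos (-(3 / 2 * E t - 3 / 2 * t))).le
      rw [mul_assoc, ← Real.exp_add, add_neg_cancel, Real.exp_zero, mul_one] at h2
      exact h2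
    refine h1.trans ?_
    rw [mul_assoc, ← Real.exp_add]
    apply mul_le_mul_of_nonneg_left _ hK0
    apply Real.exp_le_exp.2
    have := (hnn t ht).1
    have := ht.2
    linarith
  -- the metric
  set c : ℝ := 1 / 2 + Real.sqrt (K 0 * Real.exp (3 / 2 * (E 0 + T)) * E 0) with hcdef
  have hc0 : 0 ≤ c := by
    rw [hcdef]
    positivity
  have hLam : Lam (E 0) (K 0) T = E 0 / 2 + c * T := rfl
  intro t ht X
  have hfd : ∀ r ∈ Set.Ioo 0 s, ∃ n f', 0 ≤ n ∧ HasDerivAt E (-n) r ∧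
      HasDerivAt (fun r => gt r X X) f' r ∧ |f'| ≤ (n / 2 + c) * gt r X X := by
    intro r hr
    obtain ⟨n, hn, h1, _, h3, h4, h5⟩ := hpk r hr
    refine ⟨n, _, hn, h1, hdi r hr X X, (h3 X).trans ?_⟩
    have hri : r ∈ Set.Icc 0 s := ⟨hr.1.le, hr.2.le⟩
    apply mul_le_mul_of_nonneg_right _ (met_nonneg (hg r hri) X)
    have hsq := Real.sq_sqrt hn
    have h6 : Real.sqrt n ≤ n / 2 + 1 / 2 := by nlinarith [sq_nonneg (Real.sqrt n - 1)]
    have h7 : Real.sqrt (kap b br (gt r) * En b br J (gt r))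
        ≤ Real.sqrt (K 0 * Real.exp (3 / 2 * (E 0 + T)) * E 0) := by
      apply Real.sqrt_le_sqrt
      exact mul_le_mul (hKle r hri) (hEle r hri) h4 (by positivity)
    rw [hcdef]
    linarith
  have hfc : ContinuousOn (fun r => gt r X X) (Set.Icc 0 s) := fun r hr => hcont r hr X X
  have ht0 : 0 ≤ t := ht.1
  have htT : t ≤ T := ht.2.trans hsT
  have hf0 := met_nonneg (hg 0 h0s) X
  have hEt := (hnn t ht).1
  have hctT : c * t ≤ c * T := mul_le_mul_of_nonneg_left htT hc0
  have hct : 0 ≤ c * t := mul_nonneg hc0 ht0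
  constructor
  · have hφ : MonotoneOn (fun r => gt r X X * Real.exp (-(E r / 2) + c * r)) (Set.Icc 0 s) := by
      have hder : ∀ r ∈ Set.Ioo 0 s, ∃ d, (0 : ℝ) ≤ d ∧
          HasDerivAt (fun r => gt r X X * Real.exp (-(E r / 2) + c * r)) d r := by
        intro r hr
        obtain ⟨n, f', hn, h1, h2, h3⟩ := hfd r hr
        have h5 : HasDerivAt (fun r => -(E r / 2) + c * r) (-(-n / 2) + c * 1) r :=
          (h1.div_const 2).neg.add ((hasDerivAt_id r).const_mul c)
        refine ⟨_, ?_, h2.mul h5.exp⟩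
        have hk := (abs_le.1 h3).1
        have hexp := Real.exp_pos (-(E r / 2) + c * r)
        have : f' * Real.exp (-(E r / 2) + c * r)
            + gt r X X * (Real.exp (-(E r / 2) + c * r) * (-(-n / 2) + c * 1))
            = Real.exp (-(E r / 2) + c * r) * (f' + (n / 2 + c) * gt r X X) := by ring
        rw [this]
        exact mul_nonneg hexp.le (by linarith)
      apply monotoneOn_of_deriv_nonneg (convex_Icc 0 s)
      · exact hfc.mul ((((hEc.div_const 2).neg.add (continuousOn_const.mul continuousOn_id))).rexp)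
      · intro r hr
        rw [interior_Icc] at hr
        obtain ⟨d, _, h⟩ := hder r hr
        exact h.differentiableAt.differentiableWithinAt
      · intro r hr
        rw [interior_Icc] at hr
        obtain ⟨d, hd0, h⟩ := hder r hr
        rw [h.deriv]
        exact hd0
    have h := hφ h0s ht ht0
    simp only [mul_zero, add_zero] at h
    have h2 := mul_le_mul_of_nonneg_right h (Real.exp_pos (-(-(E t / 2) + c * t))).le
    rw [mul_assoc, mul_assoc, ← Real.exp_add, ← Real.exp_add, add_neg_cancel, Real.exp_zero,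
      mul_one] at h2
    refine le_trans ?_ h2
    apply mul_le_mul_of_nonneg_left _ hf0
    apply Real.exp_le_exp.2
    show -Lam (E 0) (K 0) T ≤ _
    rw [hLam]
    linarith
  · have hφ : AntitoneOn (fun r => gt r X X * Real.exp (E r / 2 - c * r)) (Set.Icc 0 s) := by
      have hder : ∀ r ∈ Set.Ioo 0 s, ∃ d ≤ (0 : ℝ),
          HasDerivAt (fun r => gt r X X * Real.exp (E r / 2 - c * r)) d r := by
        intro r hr
        obtain ⟨n, f', hn, h1, h2, h3⟩ := hfd r hr
        have h5 : HasDerivAt (fun r => E r / 2 - c * r) (-n / 2 - c * 1) r :=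
          (h1.div_const 2).sub ((hasDerivAt_id r).const_mul c)
        refine ⟨_, ?_, h2.mul h5.exp⟩
        have hk := (abs_le.1 h3).2
        have hexp := Real.exp_pos (E r / 2 - c * r)
        have : f' * Real.exp (E r / 2 - c * r)
            + gt r X X * (Real.exp (E r / 2 - c * r) * (-n / 2 - c * 1))
            = Real.exp (E r / 2 - c * r) * (f' - (n / 2 + c) * gt r X X) := by ring
        rw [this]
        exact mul_nonpos_of_nonneg_of_nonpos hexp.le (by linarith)
      apply antitoneOn_of_deriv_nonpos (convex_Icc 0 s)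
      · exact hfc.mul ((((hEc.div_const 2).sub (continuousOn_const.mul continuousOn_id))).rexp)
      · intro r hr
        rw [interior_Icc] at hr
        obtain ⟨d, _, h⟩ := hder r hr
        exact h.differentiableAt.differentiableWithinAt
      · intro r hr
        rw [interior_Icc] at hr
        obtain ⟨d, hd0, h⟩ := hder r hr
        rw [h.deriv]
        exact hd0
    have h := hφ h0s ht ht0
    simp only [mul_zero, sub_zero] at h
    have h2 := mul_le_mul_of_nonneg_right h (Real.exp_pos (-(E t / 2 - c * t))).le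
    rw [mul_assoc, mul_assoc, ← Real.exp_add, ← Real.exp_add, add_neg_cancel, Real.exp_zero,
      mul_one] at h2
    refine h2.trans ?_
    apply mul_le_mul_of_nonneg_left _ hf0
    apply Real.exp_le_exp.2
    show _ ≤ Lam (E 0) (K 0) T
    rw [hLam]
    linarith

end PFL
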