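import Mathlib

/-!
# [PFL] A9: an autonomous ODE whose solutions satisfy an a-priori bound has a global solution
-/

open scoped BigOperators Topology Manifold NNReal
open Set Metric Filter

namespace PFL

variable {E : Type*} [NormedAddCommGroup E] [NormedSpace ℝ E] [FiniteDimensional ℝ E]

/-- cutoff of a vector field -/
theorem exists_cutoff {U K : Set E} (hU : IsOpen U) (hK : IsCompact K) (hKU : K ⊆ U)
    {f : E → E} (hf : ContDiffOn ℝ 1 f U) :
    ∃ F : E → E, ContDiff ℝ 1 F ∧ HasCompactSupport F ∧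
      ∃ W : Set E, IsOpen W ∧ K ⊆ W ∧ W ⊆ U ∧ ∀ x ∈ W, F x = f x := by
  obtain ⟨K', hK', hKK', hK'U⟩ := exists_compact_between hK hU hKU
  obtain ⟨χ, h1, h0, -⟩ := exists_contMDiffMap_one_nhds_of_subset_interior (n := 1) 𝓘(ℝ, E)
    hK.isClosed hKK'
  have hχ : ContDiff ℝ 1 χ := χ.contMDiff.contDiff
  refine ⟨fun x => χ x • f x, ?_, ?_, ?_⟩
  · rw [contDiff_iff_contDiffAt]
    intro x
    by_cases hx : x ∈ K'
    · exact hχ.contDiffAt.smul (hf.contDiffAt (hU.mem_nhds (hK'U hx)))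
    · have : (fun x => χ x • f x) =ᶠ[𝓝 x] fun _ => 0 := by
        filter_upwards [hK'.isClosed.isOpen_compl.mem_nhds hx] with y hy
        rw [h0 y hy, zero_smul]
      exact contDiffAt_const.congr_of_eventuallyEq this
  · exact HasCompactSupport.intro hK' (fun x hx => by rw [h0 x hx, zero_smul])
  · rw [eventually_nhdsSet_iff_exists] at h1
    obtain ⟨W, hW, hKW, hW1⟩ := h1
    exact ⟨W ∩ U, hW.inter hU, subset_inter hKW hKU, inter_subset_right,
      fun x hx => by simp [hW1 x hx.1]⟩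

/-- global solution of a compactly supported `C¹` vector field -/
theorem exists_sol_compact {F : E → E} (hF : ContDiff ℝ 1 F) (hc : HasCompactSupport F) (x0 : E)
    {T : ℝ} (hT : 0 ≤ T) :
    ∃ x : ℝ → E, x 0 = x0 ∧ ∀ t ∈ Icc 0 T, HasDerivWithinAt x (F (x t)) (Icc 0 T) t := by
  obtain ⟨C, hC⟩ := ContDiff.lipschitzWith_of_hasCompactSupport hc hF one_ne_zero
  obtain ⟨L, hL⟩ := hc.exists_bound_of_continuous hF.continuous
  have hP : IsPicardLindelof (fun _ => F) (tmin := 0) (tmax := T) ⟨0, left_mem_Icc.2 hT⟩ x0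
      (L.toNNReal * T.toNNReal) 0 L.toNNReal C := by
    apply IsPicardLindelof.of_time_independent
    · intro x _
      exact (hL x).trans (le_max_left _ _)
    · exact hC.lipschitzOnWith
    · have : ((0:ℝ≥0):ℝ) = 0 := rfl
      simp [hT]
  obtain ⟨x, hx0, hx⟩ := hP.exists_eq_forall_mem_Icc_hasDerivWithinAt₀
  exact ⟨x, hx0, hx⟩

/-- an autonomous ODE with an a-priori bound has a solution on the whole interval -/
theorem ode_apriori {U K : Set E} (hU : IsOpen U) (hK : IsCompact K) (hKU : K ⊆ U)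
    {f : E → E} (hf : ContDiffOn ℝ 1 f U) {x0 : E} {T : ℝ} (hT : 0 ≤ T) (h0 : x0 ∈ K)
    (hap : ∀ s, 0 ≤ s → s ≤ T → ∀ x : ℝ → E, x 0 = x0 → (∀ t ∈ Icc 0 s, x t ∈ U) →
      (∀ t ∈ Icc 0 s, HasDerivWithinAt x (f (x t)) (Icc 0 s) t) → ∀ t ∈ Icc 0 s, x t ∈ K) :
    ∃ x : ℝ → E, x 0 = x0 ∧ (∀ t ∈ Icc 0 T, x t ∈ K) ∧
      ∀ t ∈ Icc 0 T, HasDerivWithinAt x (f (x t)) (Icc 0 T) t := by
  obtain ⟨F, hF, hFc, W, hW, hKW, hWU, hWF⟩ := exists_cutoff hU hK hKU hf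
  obtain ⟨x, hx0, hx⟩ := exists_sol_compact hF hFc x0 hT
  have hcont : ContinuousOn x (Icc 0 T) := fun t ht => (hx t ht).continuousWithinAt
  -- if `x` stays in `W` on `[0, s]` then it stays in `K`
  have key : ∀ s, 0 ≤ s → s ≤ T → (∀ t ∈ Icc 0 s, x t ∈ W) → ∀ t ∈ Icc 0 s, x t ∈ K := by
    intro s hs hsT hxW
    refine hap s hs hsT x hx0 (fun t ht => hWU (hxW t ht)) (fun t ht => ?_)
    have := (hx t ⟨ht.1, ht.2.trans hsT⟩).mono (Icc_subset_Icc_right hsT)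
    rwa [hWF _ (hxW t ht)] at this
  have hmain : ∀ t ∈ Icc 0 T, x t ∈ K := by
    have hsub : Icc 0 T ⊆ {t : ℝ | ∀ r ∈ Icc 0 t, x r ∈ K} := by
      apply IsClosed.Icc_subset_of_forall_mem_nhdsWithin
      · -- closedness
        have hset : {t : ℝ | ∀ r ∈ Icc 0 t, x r ∈ K} ∩ Icc 0 T
            = {t : ℝ | ∀ r ∈ Icc 0 t, x r ∈ K} ∩ Icc 0 T := rfl
        rw [← isSeqClosed_iff_isClosed]
        intro u a hu ha
        have haI : a ∈ Icc 0 T := isClosed_Icc.mem_of_tendsto ha (Eventually.of_forall fun n => (hu n).2)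
        refine ⟨?_, haI⟩
        -- first for r < a
        have hlt : ∀ r, 0 ≤ r → r < a → x r ∈ K := by
          intro r hr hra
          obtain ⟨n, hn⟩ := (ha.eventually (lt_mem_nhds hra)).exists
          exact (hu n).1 r ⟨hr, hn.le⟩
        intro r hr
        rcases eq_or_lt_of_le hr.2 with h | h
        · subst h
          rcases eq_or_lt_of_le hr.1 with h' | h'
          · rw [← h', hx0]; exact h0
          · -- limit from the left
            have hc : Tendsto x (𝓝[Ioo 0 r] r) (𝓝 (x r)) :=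
              ((hcont r haI).mono (fun y hy => ⟨hy.1.le, hy.2.le.trans haI.2⟩))
            have : NeBot (𝓝[Ioo 0 r] r) := right_nhdsWithin_Ioo_neBot h'
            exact hK.isClosed.mem_of_tendsto hc
              (by filter_upwards [self_mem_nhdsWithin] with y hy using hlt y hy.1.le hy.2)
        · exact hlt r hr.1 h
      · intro r hr
        have : r = 0 := le_antisymm hr.2 hr.1
        rw [this, hx0]; exact h0
      · rintro t ⟨htK, ht0, htT⟩
        have htI : t ∈ Icc 0 T := ⟨ht0, htT.le⟩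
        have hxtW : x t ∈ W := hKW (htK t ⟨ht0, le_rfl⟩)
        have hev : ∀ᶠ r in 𝓝[Icc 0 T] t, x r ∈ W := (hcont t htI).eventually (hW.mem_nhds hxtW)
        rw [eventually_nhdsWithin_iff, Metric.eventually_nhds_iff] at hev
        obtain ⟨ε, hε, hev⟩ := hev
        have : Ioo t (min (t + ε) T) ∈ 𝓝[>] t :=
          Ioo_mem_nhdsGT (lt_min (by linarith) htT)
        filter_upwards [this] with s hs
        have hsT : s < T := hs.2.trans_le (min_le_right _ _)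
        have hsε : s < t + ε := hs.2.trans_le (min_le_left _ _)
        refine key s (ht0.trans hs.1.le) hsT.le (fun r hr => ?_)
        rcases le_or_gt r t with h | h
        · exact hKW (htK r ⟨hr.1, h⟩)
        · apply hev
          · rw [Real.dist_eq, abs_of_pos (by linarith)]
            linarith [hr.2]
          · exact ⟨hr.1, hr.2.trans hsT.le⟩
    intro t ht
    exact hsub ht t ⟨ht.1, le_rfl⟩
  refine ⟨x, hx0, hmain, fun t ht => ?_⟩
  rw [← hWF _ (hKW (hmain t ht))]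
  exact hx t ht

/-- solutions of a smooth autonomous ODE are smooth -/
theorem ode_smooth {U : Set E} {f : E → E} (hf : ContDiffOn ℝ (⊤ : ℕ∞) f U) {x : ℝ → E} {T : ℝ}
    (hx : ∀ t ∈ Icc 0 T, HasDerivWithinAt x (f (x t)) (Icc 0 T) t) (hxU : ∀ t ∈ Icc 0 T, x t ∈ U) :
    ContDiffOn ℝ (⊤ : ℕ∞) x (Icc 0 T) := by
  apply ODE.contDiffOn_enat_Icc_of_hasDerivWithinAt (f := fun _ => f) (u := U) (n := ⊤)
  · have : (Function.uncurry fun (_ : ℝ) => f) = fun p : ℝ × E => f p.2 := rfl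
    rw [this]
    exact hf.comp contDiffOn_snd (fun p hp => hp.2)
  · exact hx
  · exact hxU

/-- two solutions staying in a compact subset of `U` agree -/
theorem ode_unique {U K : Set E} (hU : IsOpen U) (hK : IsCompact K) (hKU : K ⊆ U)
    {f : E → E} (hf : ContDiffOn ℝ 1 f U) {x y : ℝ → E} {s : ℝ} (h0 : x 0 = y 0)
    (hx : ∀ t ∈ Icc 0 s, HasDerivWithinAt x (f (x t)) (Icc 0 s) t)
    (hy : ∀ t ∈ Icc 0 s, HasDerivWithinAt y (f (y t)) (Icc 0 s) t)
    (hxK : ∀ t ∈ Icc 0 s, x t ∈ K) (hyK : ∀ t ∈ Icc 0 s, y t ∈ K) :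
    EqOn x y (Icc 0 s) := by
  obtain ⟨F, hF, hFc, W, hW, hKW, hWU, hWF⟩ := exists_cutoff hU hK hKU hf
  obtain ⟨C, hC⟩ := ContDiff.lipschitzWith_of_hasCompactSupport hFc hF one_ne_zero
  refine ODE_solution_unique_of_mem_Icc_right (v := fun _ => F) (s := fun _ => univ) (K := C)
    (fun t _ => hC.lipschitzOnWith) (fun t ht => (hx t ht).continuousWithinAt) (fun t ht => ?_)
    (fun t _ => mem_univ _) (fun t ht => (hy t ht).continuousWithinAt) (fun t ht => ?_)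
    (fun t _ => mem_univ _) h0
  · have h1 := hx t ⟨ht.1, ht.2.le⟩
    rw [← hWF _ (hKW (hxK t ⟨ht.1, ht.2.le⟩))] at h1
    exact h1.mono_of_mem_nhdsWithin (mem_of_superset (Icc_mem_nhdsGE ht.2)
      (Icc_subset_Icc_left ht.1))
  · have h1 := hy t ⟨ht.1, ht.2.le⟩
    rw [← hWF _ (hKW (hyK t ⟨ht.1, ht.2.le⟩))] at h1
    exact h1.mono_of_mem_nhdsWithin (mem_of_superset (Icc_mem_nhdsGE ht.2)
      (Icc_subset_Icc_left ht.1))

/-- an autonomous ODE with an a-priori bound on every finite interval has a global solution -/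
theorem ode_global {U : Set E} (hU : IsOpen U) {f : E → E} (hf : ContDiffOn ℝ 1 f U) {x0 : E}
    {K : ℝ → Set E} (hK : ∀ T, 0 ≤ T → IsCompact (K T)) (hKU : ∀ T, 0 ≤ T → K T ⊆ U)
    (h0 : ∀ T, 0 ≤ T → x0 ∈ K T)
    (hap : ∀ T, 0 ≤ T → ∀ s, 0 ≤ s → s ≤ T → ∀ x : ℝ → E, x 0 = x0 → (∀ t ∈ Icc 0 s, x t ∈ U) →
      (∀ t ∈ Icc 0 s, HasDerivWithinAt x (f (x t)) (Icc 0 s) t) → ∀ t ∈ Icc 0 s, x t ∈ K T) :
    ∃ x : ℝ → E, x 0 = x0 ∧ (∀ t, 0 ≤ t → x t ∈ U) ∧
      ∀ t, 0 ≤ t → HasDerivWithinAt x (f (x t)) (Ici 0) t := by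
  have hex : ∀ n : ℕ, ∃ x : ℝ → E, x 0 = x0 ∧ (∀ t ∈ Icc 0 (n : ℝ), x t ∈ K n) ∧
      ∀ t ∈ Icc 0 (n : ℝ), HasDerivWithinAt x (f (x t)) (Icc 0 (n : ℝ)) t := fun n =>
    ode_apriori hU (hK n n.cast_nonneg) (hKU n n.cast_nonneg) hf n.cast_nonneg
      (h0 n n.cast_nonneg) (hap n n.cast_nonneg)
  choose y hy0 hyK hyd using hex
  have huniq : ∀ n k : ℕ, n ≤ k → EqOn (y n) (y k) (Icc 0 (n : ℝ)) := by
    intro n k hnk
    have hnk' : (n : ℝ) ≤ k := Nat.cast_le.2 hnk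
    refine ode_unique hU ((hK n n.cast_nonneg).union (hK k k.cast_nonneg))
      (union_subset (hKU n n.cast_nonneg) (hKU k k.cast_nonneg)) hf ((hy0 n).trans (hy0 k).symm)
      (hyd n) (fun t ht => ?_) (fun t ht => Or.inl (hyK n t ht))
      (fun t ht => Or.inr (hyK k t ⟨ht.1, ht.2.trans hnk'⟩))
    exact (hyd k t ⟨ht.1, ht.2.trans hnk'⟩).mono (Icc_subset_Icc_right hnk')
  set x : ℝ → E := fun t => y (⌈t⌉₊ + 1) t with hx
  have hxy : ∀ N : ℕ, EqOn x (y N) (Icc 0 (N : ℝ)) := by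
    intro N t ht
    rcases le_total (⌈t⌉₊ + 1) N with h | h
    · refine huniq _ _ h ⟨ht.1, ?_⟩
      push_cast
      linarith [Nat.le_ceil t]
    · exact (huniq _ _ h ht).symm
  refine ⟨x, ?_, fun t ht => ?_, fun t ht => ?_⟩
  · rw [hxy 0 ⟨le_rfl, by simp⟩, hy0]
  · have h1 : t ∈ Icc 0 ((⌈t⌉₊ : ℕ) : ℝ) := ⟨ht, Nat.le_ceil t⟩
    rw [hxy _ h1]
    exact hKU _ (Nat.cast_nonneg _) (hyK _ t h1)
  · set N : ℕ := ⌈t⌉₊ + 1 with hN
    have h2 : t < (N : ℝ) := by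
      rw [hN]; push_cast
      linarith [Nat.le_ceil t]
    have h1 : t ∈ Icc 0 (N : ℝ) := ⟨ht, h2.le⟩
    have h3 : HasDerivWithinAt x (f (x t)) (Icc 0 (N : ℝ)) t := by
      rw [hxy N h1]
      exact (hyd N t h1).congr (fun s hs => hxy N hs) (hxy N h1)
    refine h3.mono_of_mem_nhdsWithin ?_
    rw [mem_nhdsWithin]
    exact ⟨Iio (N : ℝ), isOpen_Iio, h2, fun r hr => ⟨hr.2, (le_of_lt hr.1)⟩⟩

/-- solutions of a smooth autonomous ODE on `[0, ∞)` are smooth -/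
theorem ode_smooth_Ici {U : Set E} {f : E → E} (hf : ContDiffOn ℝ (⊤ : ℕ∞) f U) {x : ℝ → E}
    (hx : ∀ t, 0 ≤ t → HasDerivWithinAt x (f (x t)) (Ici 0) t) (hxU : ∀ t, 0 ≤ t → x t ∈ U) :
    ContDiffOn ℝ (⊤ : ℕ∞) x (Ici 0) := by
  intro t ht
  have h1 := ode_smooth (T := t + 1) hf
    (fun s hs => (hx s hs.1).mono Icc_subset_Ici_self) (fun s hs => hxU s hs.1) t
    ⟨ht, by linarith⟩
  refine h1.mono_of_mem_nhdsWithin ?_
  rw [mem_nhdsWithin]
  exact ⟨Iio (t + 1), isOpen_Iio, by simp, fun r hr => ⟨hr.2, (le_of_lt hr.1)⟩⟩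

end PFL
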