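import Mathlib

/-!
# Pluriclosed flow on compact quotients of a Lie group by holomorphic isometries: the definitions

`G` is a real Lie group, `Γ` a group acting on `G` by diffeomorphisms, freely, properly
discontinuously and with compact quotient `M = Γ\G`.  (The action need not be by translations.)
A smooth tensor field on the closed manifold `M` is the same as a `Γ`-invariant smooth tensor field
on `G`.  Tensor fields on `G` are written in the frame of left-invariant vector fields, so they are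
functions on `G` with values in the tensors of the Lie algebra `V` of `G`; the vectors
`X Y Z W : V` below stand for left-invariant vector fields.

`J` is a left-invariant integrable almost complex structure preserved by `Γ`; it makes `M` a complex
manifold.  All forms, metrics and connections in this file are arbitrary smooth ones on `M`.

The definitions are written for the pieces of data collected in `Geo`; `quot Γ` is `Γ\G`.
-/

open scoped Manifold

namespace PFI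

/-- The data through which the differential geometry of `M = Γ\G` enters the definitions below.
`V` is the space of left-invariant vector fields on `G`. -/
structure Geo (V G Γ : Type*) where
  /-- the Lie bracket of vector fields -/
  bk : V → V → V
  /-- the derivative `D X f` of the function `f` on `G` along the vector field `X` -/
  D : V → (G → ℝ) → G → ℝ
  /-- the smooth functions on `G` -/
  Sm : (G → ℝ) → Prop
  /-- the smooth functions on `[0, T) × G` -/
  SmT : EReal → (ℝ → G → ℝ) → Prop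
  /-- the action of `Γ` on `G` -/
  act : Γ → G → G
  /-- `push γ x X X'`: the differential of `γ` at `x` maps the value of `X` at `x` to the value of
  `X'` at `γ x` -/
  push : Γ → G → V → V → Prop

variable {V G Γ : Type*} [AddCommGroup V] [Module ℝ V]

/-- the 1-form `b` is `Γ`-invariant -/
def Inv1 (M : Geo V G Γ) (b : G → V → ℝ) : Prop :=
  ∀ γ x X X', M.push γ x X X' → b (M.act γ x) X' = b x X

/-- the 2-tensor `w` is `Γ`-invariant -/
def Inv2 (M : Geo V G Γ) (w : G → V → V → ℝ) : Prop :=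
  ∀ γ x X X' Y Y', M.push γ x X X' → M.push γ x Y Y' → w (M.act γ x) X' Y' = w x X Y

/-- the exterior derivative of a 1-form -/
noncomputable def d1 (M : Geo V G Γ) (b : G → V → ℝ) (x : G) (X Y : V) : ℝ :=
  M.D X (fun y => b y Y) x - M.D Y (fun y => b y X) x - b x (M.bk X Y)

/-- the exterior derivative of a 2-form -/
noncomputable def d2 (M : Geo V G Γ) (w : G → V → V → ℝ) (x : G) (X Y Z : V) : ℝ :=
  M.D X (fun y => w y Y Z) x - M.D Y (fun y => w y X Z) x + M.D Z (fun y => w y X Y) x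
    - w x (M.bk X Y) Z + w x (M.bk X Z) Y - w x (M.bk Y Z) X

/-- the exterior derivative of a 3-form -/
noncomputable def d3 (M : Geo V G Γ) (c : G → V → V → V → ℝ) (x : G) (X Y Z W : V) : ℝ :=
  M.D X (fun y => c y Y Z W) x - M.D Y (fun y => c y X Z W) x
    + M.D Z (fun y => c y X Y W) x - M.D W (fun y => c y X Y Z) x
    - c x (M.bk X Y) Z W + c x (M.bk X Z) Y W - c x (M.bk X W) Y Z
    - c x (M.bk Y Z) X W + c x (M.bk Y W) X Z - c x (M.bk Z W) X Y

/-- `d^c w = -dw(J·, J·, J·)` for a real (1,1)-form `w`; `dd^c` is `2i∂∂̄` -/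
noncomputable def dc (M : Geo V G Γ) (J : V →ₗ[ℝ] V) (w : G → V → V → ℝ) (x : G) (X Y Z : V) : ℝ :=
  -d2 M w x (J X) (J Y) (J Z)

/-- `J` is a complex structure on `M`: `J² = -1`, the Nijenhuis tensor vanishes and `J` is
`Γ`-invariant -/
structure IsComplex (M : Geo V G Γ) (J : V →ₗ[ℝ] V) : Prop where
  sq : ∀ X, J (J X) = -X
  nijenhuis : ∀ X Y, M.bk (J X) (J Y) - M.bk X Y - J (M.bk (J X) Y) - J (M.bk X (J Y)) = 0
  inv : ∀ γ x X X', M.push γ x X X' → M.push γ x (J X) (J X')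

/-- `ω` is a pluriclosed metric on `M`: a smooth real (1,1)-form which is positive definite
and satisfies `∂∂̄ω = 0`.  Its Riemannian metric is `g(X, Y) = ω(X, JY)`. -/
structure IsPluriclosed (M : Geo V G Γ) (J : V →ₗ[ℝ] V) (ω : G → V →ₗ[ℝ] V →ₗ[ℝ] ℝ) : Prop where
  smooth : ∀ X Y, M.Sm (fun x => ω x X Y)
  inv : Inv2 M (fun x X Y => ω x X Y)
  skew : ∀ x X Y, ω x X Y = -ω x Y X
  type11 : ∀ x X Y, ω x (J X) (J Y) = ω x X Y
  pos : ∀ x X, X ≠ 0 → 0 < ω x X (J X)
  ddc : ∀ x X Y Z W, d3 M (dc M J (fun y A B => ω y A B)) x X Y Z W = 0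

/-- `Λ` is the Bismut connection of `ω`: the connection `∇` with `∇_X Y = Λ(X)Y` for
left-invariant `X`, `Y` is smooth, satisfies `∇g = 0` and `∇J = 0`, and the tensor
`g(T(X,Y),Z)`, `T` its torsion, is totally skew-symmetric.  (There is exactly one such connection,
so it is `Γ`-invariant when `ω` is.) -/
structure IsBismut (M : Geo V G Γ) (J : V →ₗ[ℝ] V) (ω : G → V →ₗ[ℝ] V →ₗ[ℝ] ℝ)
    (Λ : G → V →ₗ[ℝ] V →ₗ[ℝ] V) : Prop where
  smooth : ∀ (φ : V →ₗ[ℝ] ℝ) (X Y : V), M.Sm (fun x => φ (Λ x X Y))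
  metric : ∀ x X Y Z, M.D X (fun y => ω y Y (J Z)) x
    = ω x (Λ x X Y) (J Z) + ω x Y (J (Λ x X Z))
  complex : ∀ x X Y, Λ x X (J Y) = J (Λ x X Y)
  torsion : ∀ x X Y Z, ω x (Λ x X Y - Λ x Y X - M.bk X Y) (J Z)
    = -ω x (Λ x X Z - Λ x Z X - M.bk X Z) (J Y)

/-- the value `φ(R(X,Y)Z)` of a linear form on `R(X,Y)Z = ∇_X ∇_Y Z - ∇_Y ∇_X Z - ∇_[X,Y] Z`,
`R` the curvature of the connection `Λ` -/
noncomputable def curv (M : Geo V G Γ) (Λ : G → V →ₗ[ℝ] V →ₗ[ℝ] V) (x : G) (X Y Z : V)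
    (φ : V →ₗ[ℝ] ℝ) : ℝ :=
  (M.D X (fun y => φ (Λ y Y Z)) x + φ (Λ x X (Λ x Y Z)))
    - (M.D Y (fun y => φ (Λ y X Z)) x + φ (Λ x Y (Λ x X Z))) - φ (Λ x (M.bk X Y) Z)

/-- the Ricci form `ρ(X,Y) = tr(J R(X,Y)) / 2` of the connection `Λ`, the trace computed in a
basis of `V`; for the Levi-Civita connection of a Kähler metric it is `Ric(JX, Y)` -/
noncomputable def ricciForm [Module.Finite ℝ V] (M : Geo V G Γ) (J : V →ₗ[ℝ] V)
    (Λ : G → V →ₗ[ℝ] V →ₗ[ℝ] V) (x : G) (X Y : V) : ℝ :=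
  (∑ k, curv M Λ x X Y (Module.finBasis ℝ V k) ((Module.finBasis ℝ V).coord k ∘ₗ J)) / 2

/-- the (1,1)-part of a real 2-form -/
noncomputable def part11 (J : V →ₗ[ℝ] V) (w : G → V → V → ℝ) (x : G) (X Y : V) : ℝ :=
  (w x X Y + w x (J X) (J Y)) / 2

/-- `ω` is a smooth solution of the pluriclosed flow `∂ω/∂t = -ρ_B(ω)^{1,1}` on `[0, T) × M` -/
structure IsFlow [Module.Finite ℝ V] (M : Geo V G Γ) (J : V →ₗ[ℝ] V) (T : EReal)
    (ω : ℝ → G → V →ₗ[ℝ] V →ₗ[ℝ] ℝ) : Prop where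
  metric : ∀ t : ℝ, 0 ≤ t → t < T → IsPluriclosed M J (ω t)
  smooth : ∀ X Y, M.SmT T (fun t x => ω t x X Y)
  eqn : ∀ t : ℝ, 0 ≤ t → t < T → ∃ Λ, IsBismut M J (ω t) Λ ∧
    ∀ x X Y, HasDerivWithinAt (fun s => ω s x X Y) (-part11 J (ricciForm M J Λ) x X Y)
      (Set.Ici 0) t

/-- the first singular time `T(ω₀)`: the supremum of the `T` such that a smooth solution on
`[0, T) × M` starting at `ω₀` exists -/
noncomputable def singTime [Module.Finite ℝ V] (M : Geo V G Γ) (J : V →ₗ[ℝ] V)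
    (ω₀ : G → V →ₗ[ℝ] V →ₗ[ℝ] ℝ) : EReal :=
  sSup {T | 0 < T ∧ ∃ ω, IsFlow M J T ω ∧ ω 0 = ω₀}

/-- the Aeppli class of the real (1,1)-form `α` on `M` lies in the positive cone: some
`α + (db)^{1,1}`, `b` a smooth real 1-form on `M`, is a pluriclosed metric.  (With `β` the
(1,0)-part of `b`, `(db)^{1,1} = ∂̄β + ∂β̄`, and every real form `∂̄β + ∂β̄` is of this kind.) -/
def AeppliPos (M : Geo V G Γ) (J : V →ₗ[ℝ] V) (α : G → V → V → ℝ) : Prop :=
  ∃ (b : G → V →ₗ[ℝ] ℝ) (ω : G → V →ₗ[ℝ] V →ₗ[ℝ] ℝ),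
    (∀ X, M.Sm (fun x => b x X)) ∧ Inv1 M (fun x X => b x X) ∧ IsPluriclosed M J ω ∧
    ∀ x X Y, ω x X Y = α x X Y + part11 J (d1 M (fun y A => b y A)) x X Y

/-- the cohomological bound `τ*(ω₀) = sup {t ≥ 0 : [ω₀] - t [ρ_B(ω₀)^{1,1}] ∈ P}` -/
noncomputable def tauStar [Module.Finite ℝ V] (M : Geo V G Γ) (J : V →ₗ[ℝ] V)
    (ω₀ : G → V →ₗ[ℝ] V →ₗ[ℝ] ℝ) : EReal :=
  sSup {τ | ∃ t : ℝ, 0 ≤ t ∧ τ = t ∧ ∃ Λ, IsBismut M J ω₀ Λ ∧
    AeppliPos M J (fun x X Y => ω₀ x X Y - t * part11 J (ricciForm M J Λ) x X Y)}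

/-! ### The compact quotient `Γ\G` of a Lie group -/

/-- the Lie algebra of the Lie group `G` (a manifold modelled on `E`) -/
abbrev Lie (E G : Type*) [NormedAddCommGroup E] [NormedSpace ℝ E] [TopologicalSpace G]
    [ChartedSpace E G] [Group G] : Type _ := GroupLieAlgebra 𝓘(ℝ, E) G

instance (E G : Type*) [NormedAddCommGroup E] [NormedSpace ℝ E] [FiniteDimensional ℝ E]
    [TopologicalSpace G] [ChartedSpace E G] [Group G] : Module.Finite ℝ (Lie E G) :=
  inferInstanceAs (Module.Finite ℝ E)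

/-- `M = Γ\G`: the bracket of left-invariant vector fields, the derivative along them, the
smooth functions on `G` and on `[0, T) × G`, the action of `Γ` on points and on tangent vectors -/
noncomputable def quot {E G : Type*} [NormedAddCommGroup E] [NormedSpace ℝ E]
    [TopologicalSpace G] [ChartedSpace E G] [Group G] (Γ : Type*) [Group Γ] [MulAction Γ G] :
    Geo (Lie E G) G Γ where
  bk X Y := ⁅X, Y⁆
  D X f x := mfderiv 𝓘(ℝ, E) 𝓘(ℝ, ℝ) f x (mulInvariantVectorField X x)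
  Sm f := ContMDiff 𝓘(ℝ, E) 𝓘(ℝ, ℝ) (⊤ : ℕ∞) f
  SmT T f := ContMDiffOn (𝓘(ℝ, ℝ).prod 𝓘(ℝ, E)) 𝓘(ℝ, ℝ) (⊤ : ℕ∞) (fun p : ℝ × G => f p.1 p.2)
    ({t : ℝ | 0 ≤ t ∧ t < T} ×ˢ Set.univ)
  act γ x := γ • x
  push γ x X X' := mfderiv 𝓘(ℝ, E) 𝓘(ℝ, E) (fun y : G => γ • y) x (mulInvariantVectorField X x)
    = mulInvariantVectorField X' (γ • x)

end PFI
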