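import Pool.Agent.PFL.A12
import Pool.Agent.PFL.IDefs

/-!
# [PFL-B1] naturality of the Bismut connection and its Ricci form under isometries
-/

open scoped BigOperators

namespace PFI

open PFL

variable {V G Γ : Type*} [AddCommGroup V] [Module ℝ V]
variable {br : V →ₗ[ℝ] V →ₗ[ℝ] V} {J : V →ₗ[ℝ] V} {g : V →ₗ[ℝ] V →ₗ[ℝ] ℝ}
variable {m : ℕ} {e : Module.Basis (Fin m) ℝ V}

/-- uniqueness of the Bismut connection, at one point -/
theorem unique_pt {J : V → V} (hsq : ∀ Z, J (J Z) = -Z) {a : V → V → V → ℝ}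
    (hneg : ∀ X Y Z, a X Y (-Z) = -a X Y Z)
    (h23 : ∀ X Y Z, a X Y Z = -a X Z Y) (hJ : ∀ X Y Z, a X (J Y) Z = -a X Y (J Z))
    (ht : ∀ X Y Z, a X Y Z - a Y X Z = -(a X Z Y - a Z X Y)) (X Y Z : V) : a X Y Z = 0 := by
  have h13 : ∀ X Y Z, a X Y Z = -a Z Y X := by
    intro X Y Z
    have h1 := ht Y X Z
    have h2 := h23 Y X Z
    linarith
  have h12 : ∀ X Y Z, a X Y Z = -a Y X Z := by
    intro X Y Z
    have h1 := h23 X Y Z
    have h2 := h13 X Z Y
    have h3 := h23 Y Z X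
    linarith
  have key : ∀ Z, a X Y (J Z) = 0 := by
    intro Z
    have e1 := h12 (J X) Y Z
    have e2 := hJ Y X Z
    have e3 := h12 Y X (J Z)
    have e4 := h13 (J X) Y Z
    have e5 := hJ Z Y X
    have e6 := h13 Z (J Y) X
    have e7 := hJ X Y Z
    linarith
  have h := key (J Z)
  rw [hsq, hneg] at h
  linarith

/-- The calculus of the differential `A` of a diffeomorphism written in the left-invariant frame;
`dA` is its derivative. -/
structure FM (M : Geo V G Γ) (br : V →ₗ[ℝ] V →ₗ[ℝ] V) (A : G → V →ₗ[ℝ] V)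
    (dA : G → V →ₗ[ℝ] V →ₗ[ℝ] V) : Prop where
  bij : ∀ x, Function.Bijective (A x)
  der : ∀ x X Z (φ : V →ₗ[ℝ] ℝ), M.D X (fun y => φ (A y Z)) x = φ (dA x X Z)
  compat : ∀ x X Y, A x (br X Y) = dA x X Y - dA x Y X + br (A x X) (A x Y)
  second : ∀ x X Y Z (φ : V →ₗ[ℝ] ℝ), M.D X (fun y => φ (dA y Y Z)) x
    - M.D Y (fun y => φ (dA y X Z)) x = φ (dA x (br X Y) Z)
  prod : ∀ x X Y Z (β : V →ₗ[ℝ] V →ₗ[ℝ] ℝ), M.D X (fun y => β (A y Y) (A y Z)) x
    = β (dA x X Y) (A x Z) + β (A x Y) (dA x X Z)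
  add : ∀ x X Y Z (φ : V →ₗ[ℝ] ℝ) (β : V →ₗ[ℝ] V →ₗ[ℝ] ℝ),
    M.D X (fun y => φ (dA y Y Z) + β (A y Y) (A y Z)) x
      = M.D X (fun y => φ (dA y Y Z)) x + M.D X (fun y => β (A y Y) (A y Z)) x

variable {M : Geo V G Γ} {A : G → V →ₗ[ℝ] V} {dA : G → V →ₗ[ℝ] V →ₗ[ℝ] V}

theorem eq_of_forms (hg : Met J g) {X Y : V} (h : ∀ φ : V →ₗ[ℝ] ℝ, φ X = φ Y) : X = Y := by
  apply eq_of_g hg
  intro Z
  exact h (g.flip Z)

theorem dA_J (hg : Met J g) (hF : FM M br A dA) (hAJ : ∀ x X, A x (J X) = J (A x X)) (x : G)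
    (X Y : V) : dA x X (J Y) = J (dA x X Y) := by
  apply eq_of_forms hg
  intro φ
  rw [← hF.der x X (J Y) φ]
  have h : (fun y => φ (A y (J Y))) = fun y => (φ ∘ₗ J) (A y Y) := by
    funext y; rw [hAJ]; rfl
  rw [h, hF.der]; rfl

theorem dA_g (hD : ∀ X c x, M.D X (fun _ => c) x = 0) (hF : FM M br A dA)
    (hAg : ∀ x X Y, g (A x X) (A x Y) = g X Y) (x : G) (Z X Y : V) :
    g (dA x Z X) (A x Y) + g (A x X) (dA x Z Y) = 0 := by
  rw [← hF.prod x Z X Y g]
  have h : (fun y => g (A y X) (A y Y)) = fun _ => g X Y := by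
    funext y; rw [hAg]
  rw [h, hD]

/-- the gauge identity: an isometry preserves the Bismut connection -/
theorem gauge (hb : LieB br) (hJ : CStr br J) (hg : Met J g) (he : Orth g e)
    (hD : ∀ X c x, M.D X (fun _ => c) x = 0) (hF : FM M br A dA)
    (hAJ : ∀ x X, A x (J X) = J (A x X)) (hAg : ∀ x X Y, g (A x X) (A x Y) = g X Y)
    (x : G) (X Y : V) :
    A x (LamM br J g e X Y) = dA x X Y + LamM br J g e (A x X) (A x Y) := by
  have key : ∀ X Y Z, (g (dA x X Y) (A x Z) + g (LamM br J g e (A x X) (A x Y)) (A x Z))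
      - g (LamM br J g e X Y) Z = 0 := by
    refine unique_pt (J := J) hJ.sq (a := fun X Y Z => (g (dA x X Y) (A x Z)
      + g (LamM br J g e (A x X) (A x Y)) (A x Z)) - g (LamM br J g e X Y) Z) ?_ ?_ ?_ ?_
    · intro X Y Z
      simp only [map_neg]
      ring
    · intro X Y Z
      simp only [LamM_g hg he]
      have h1 := dA_g hD hF hAg x X Y Z
      rw [hg.symm (A x Y) (dA x X Z)] at h1
      have h2 := af_skew (J := J) (g := g) hb (A x X) (A x Y) (A x Z)
      have h3 := af_skew (J := J) (g := g) hb X Y Z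
      linarith
    · intro X Y Z
      simp only [LamM_g hg he]
      rw [dA_J hg hF hAJ, hAJ, hAJ, gJ hJ hg, af_J hJ hg, af_J hJ hg]
      ring
    · intro X Y Z
      have hT : ∀ P Q R : V, (g (dA x P Q) (A x R) + af br J g (A x P) (A x Q) (A x R)
          - af br J g P Q R) - (g (dA x Q P) (A x R) + af br J g (A x Q) (A x P) (A x R)
          - af br J g Q P R) = Cf br J g (A x P) (A x Q) (A x R) - Cf br J g P Q R := by
        intro P Q R
        have h1 := congrArg (fun v => g v (A x R)) (hF.compat x P Q)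
        simp only [map_add, map_sub, LinearMap.add_apply, LinearMap.sub_apply] at h1
        rw [hAg] at h1
        have h2 := br_eq_af (J := J) (g := g) hb P Q R
        have h3 := br_eq_af (J := J) (g := g) hb (A x P) (A x Q) (A x R)
        linarith
      simp only [LamM_g hg he]
      rw [hT X Y Z, hT X Z Y, Cf_swap' hb (A x X) (A x Y) (A x Z), Cf_swap' hb X Y Z]
      ring
  apply eq_of_g hg
  intro W
  obtain ⟨Z, rfl⟩ := (hF.bij x).2 W
  have h := key X Y Z
  rw [map_add, LinearMap.add_apply, hAg]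
  linarith

/-- the curvature of the algebraic Bismut connection -/
noncomputable def RR (br : V →ₗ[ℝ] V →ₗ[ℝ] V) (L : V →ₗ[ℝ] V →ₗ[ℝ] V) (X Y : V) : V →ₗ[ℝ] V :=
  L X ∘ₗ L Y - L Y ∘ₗ L X - L (br X Y)

theorem RR_apply (L : V →ₗ[ℝ] V →ₗ[ℝ] V) (X Y Z : V) :
    RR br L X Y Z = L X (L Y Z) - L Y (L X Z) - L (br X Y) Z := rfl

/-- naturality of the curvature -/
theorem curv_nat (hg : Met J g) (hF : FM M br A dA) {L : V →ₗ[ℝ] V →ₗ[ℝ] V}
    (hL : ∀ x X Y, A x (L X Y) = dA x X Y + L (A x X) (A x Y)) (x : G) (X Y Z : V) :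
    A x (RR br L X Y Z) = RR br L (A x X) (A x Y) (A x Z) := by
  apply eq_of_forms hg
  intro φ
  have hd : ∀ P Q, dA x P Q = A x (L P Q) - L (A x P) (A x Q) := by
    intro P Q; rw [hL]; abel
  have step : ∀ P Q : V, φ (dA x P (L Q Z)) = M.D P (fun y => φ (dA y Q Z)) x
      + (φ (L (dA x P Q) (A x Z)) + φ (L (A x Q) (dA x P Z))) := by
    intro P Q
    have h1 : (fun y => φ (A y (L Q Z))) = fun y => φ (dA y Q Z)
        + (L.compr₂ φ) (A y Q) (A y Z) := by
      funext y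
      rw [hL, map_add]; rfl
    rw [← hF.der x P (L Q Z) φ, h1, hF.add, hF.prod]
    rfl
  have s1 := step X Y
  have s2 := step Y X
  have s3 := hF.second x X Y Z φ
  have hc := hF.compat x X Y
  have hc' : dA x X Y - dA x Y X = A x (br X Y) - br (A x X) (A x Y) := by
    rw [hc]; abel
  have hc2 : φ (L (dA x X Y) (A x Z)) - φ (L (dA x Y X) (A x Z))
      = φ (L (A x (br X Y)) (A x Z)) - φ (L (br (A x X) (A x Y)) (A x Z)) := by
    have := congrArg (fun v => φ (L v (A x Z))) hc'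
    simpa only [map_sub, LinearMap.sub_apply] using this
  have e1 : φ (dA x X (L Y Z)) = φ (A x (L X (L Y Z))) - φ (L (A x X) (A x (L Y Z))) := by
    rw [hd, map_sub]
  have e2 : φ (dA x Y (L X Z)) = φ (A x (L Y (L X Z))) - φ (L (A x Y) (A x (L X Z))) := by
    rw [hd, map_sub]
  have e3 : φ (dA x (br X Y) Z) = φ (A x (L (br X Y) Z)) - φ (L (A x (br X Y)) (A x Z)) := by
    rw [hd, map_sub]
  have e4 : φ (L (A x Y) (dA x X Z))
      = φ (L (A x Y) (A x (L X Z))) - φ (L (A x Y) (L (A x X) (A x Z))) := by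
    rw [hd, map_sub, map_sub]
  have e5 : φ (L (A x X) (dA x Y Z))
      = φ (L (A x X) (A x (L Y Z))) - φ (L (A x X) (L (A x Y) (A x Z))) := by
    rw [hd, map_sub, map_sub]
  rw [RR_apply, RR_apply]
  simp only [map_sub]
  linarith

/-- naturality of the Ricci form -/
theorem eta_br_nat (hb : LieB br) (hJ : CStr br J) (hg : Met J g) (he : Orth g e)
    (b : Module.Basis (Fin m) ℝ V) (hD : ∀ X c x, M.D X (fun _ => c) x = 0) (hF : FM M br A dA)
    (hAJ : ∀ x X, A x (J X) = J (A x X)) (hAg : ∀ x X Y, g (A x X) (A x Y) = g X Y)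
    (x : G) (X Y : V) :
    eta b br J g (br (A x X) (A x Y)) = eta b br J g (br X Y) := by
  have hL := gauge hb hJ hg he hD hF hAJ hAg
  have hR := curv_nat hg hF hL x
  set L := LamM br J g e with hLdef
  have h1 := trace_curv hb hJ hg he b X Y
  have h2 := trace_curv hb hJ hg he b (A x X) (A x Y)
  let Ae := LinearEquiv.ofBijective (A x) (hF.bij x)
  have h3 : J ∘ₗ RR br L (A x X) (A x Y) = Ae.conj (J ∘ₗ RR br L X Y) := by
    apply LinearMap.ext
    intro W
    obtain ⟨Z, rfl⟩ := (hF.bij x).2 W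
    rw [LinearEquiv.conj_apply_apply]
    have h4 : Ae.symm (A x Z) = Z := Ae.symm_apply_apply Z
    rw [h4, LinearMap.comp_apply, LinearMap.comp_apply, ← hR]
    show J (A x _) = A x (J _)
    rw [hAJ]
  have h5 : LinearMap.trace ℝ V (J ∘ₗ RR br L (A x X) (A x Y))
      = LinearMap.trace ℝ V (J ∘ₗ RR br L X Y) := by
    rw [h3, LinearMap.trace_conj']
  have h6 : -(2 * eta b br J g (br (A x X) (A x Y))) = -(2 * eta b br J g (br X Y)) := by
    rw [← h1, ← h2]
    exact h5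
  linarith

/-- the difference of the forms `η` of two invariant metrics is invariant -/
theorem eta_diff (hb : LieB br) (hJ : CStr br J) (hg : Met J g) (he : Orth g e)
    (b : Module.Basis (Fin m) ℝ V) (hD : ∀ X c x, M.D X (fun _ => c) x = 0) (hF : FM M br A dA)
    (hAJ : ∀ x X, A x (J X) = J (A x X)) (hAg : ∀ x X Y, g (A x X) (A x Y) = g X Y)
    (x : G) (X : V) :
    2 * eta b br J g X - 2 * eta b br J g (A x X)
      = LinearMap.trace ℝ V (J ∘ₗ ((LinearEquiv.ofBijective (A x) (hF.bij x)).symm : V →ₗ[ℝ] V)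
        ∘ₗ dA x X) := by
  have hL := gauge hb hJ hg he hD hF hAJ hAg x
  set L := LamM br J g e with hLdef
  set Ae := LinearEquiv.ofBijective (A x) (hF.bij x) with hAe
  have hA : ∀ Z, Ae Z = A x Z := fun Z => rfl
  rw [← trace_LamM hb hJ hg he b X, ← trace_LamM hb hJ hg he b (A x X), ← hLdef]
  have h1 : J ∘ₗ L (A x X) = Ae.conj (J ∘ₗ (Ae.symm : V →ₗ[ℝ] V) ∘ₗ L (A x X) ∘ₗ (A x)) := by
    apply LinearMap.ext
    intro W
    obtain ⟨Z, rfl⟩ := (hF.bij x).2 W
    rw [LinearEquiv.conj_apply_apply]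
    have h4 : Ae.symm (A x Z) = Z := Ae.symm_apply_apply Z
    rw [h4]
    simp only [LinearMap.comp_apply]
    show _ = A x (J (Ae.symm (L (A x X) (A x Z))))
    rw [hAJ]
    congr 1
    exact (Ae.apply_symm_apply _).symm
  have h2 : LinearMap.trace ℝ V (J ∘ₗ L (A x X))
      = LinearMap.trace ℝ V (J ∘ₗ (Ae.symm : V →ₗ[ℝ] V) ∘ₗ L (A x X) ∘ₗ (A x)) := by
    rw [h1, LinearMap.trace_conj']
  rw [h2, ← map_sub]
  congr 1
  apply LinearMap.ext
  intro Z
  simp only [LinearMap.sub_apply, LinearMap.comp_apply]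
  rw [← map_sub]
  congr 1
  have h3 : L X Z = Ae.symm (A x (L X Z)) := (Ae.symm_apply_apply _).symm
  rw [h3, hL]
  show Ae.symm _ - Ae.symm _ = Ae.symm _
  rw [← map_sub]
  congr 1
  abel

end PFI
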