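import Pool.Agent.PFL.B9

/-!
# [PFL-B10] compatibility of the differential with the bracket
-/

open scoped Manifold BigOperators ContDiff Topology
open Bundle VectorField

namespace PFI

variable {E : Type*} [NormedAddCommGroup E] [NormedSpace ℝ E]
  {G : Type*} [TopologicalSpace G] [ChartedSpace E G] [Group G]

theorem dd_sum_left {ι : Type*} (s : Finset ι) (c : ι → ℝ) (X : ι → Lie E G) (f : G → ℝ) (x : G) :
    dd (∑ i ∈ s, c i • X i) f x = ∑ i ∈ s, c i * dd (X i) f x := by
  classical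
  induction s using Finset.induction_on with
  | empty =>
    simp only [Finset.sum_empty]
    have := dd_smul_left (0 : ℝ) (0 : Lie E G) f x
    rwa [zero_smul, zero_mul] at this
  | insert a s ha ih =>
    rw [Finset.sum_insert ha, Finset.sum_insert ha, dd_add_left, dd_smul_left, ih]

variable [LieGroup 𝓘(ℝ, E) (⊤ : ℕ∞) G] [FiniteDimensional ℝ E]

theorem dd_expand (X : Lie E G) (f : G → ℝ) (x : G) :
    dd X f x = ∑ k, (Module.finBasis ℝ (Lie E G)).coord k X *
      dd (Module.finBasis ℝ (Lie E G) k) f x := by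
  conv_lhs => rw [← (Module.finBasis ℝ (Lie E G)).sum_repr X]
  rw [dd_sum_left]
  rfl

theorem sep {X Y : Lie E G} (p : G) (h : ∀ f : G → ℝ, SmF E f → dd X f p = dd Y f p) :
    X = Y := by
  have h1 : (mulInvariantVectorField (X - Y) p : TangentSpace 𝓘(ℝ, E) p) = 0 := by
    apply separate
    intro f hf
    have h2 := h f hf
    have h3 := dd_add_left X ((-1 : ℝ) • Y) f p
    rw [dd_smul_left, neg_one_smul, ← sub_eq_add_neg] at h3
    have h4 : dd (X - Y) f p = 0 := by rw [h3]; linarith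
    exact h4
  have h2 : X - Y = 0 := by
    rw [← lt_inv p (X - Y), h1, map_zero]
  exact sub_eq_zero.1 h2

/-- the chain rule -/
theorem dd_comp {F : G → G} (hF : SmM E F) (X : Lie E G) {f : G → ℝ} (hf : SmF E f) (x : G) :
    dd X (fun y => f (F y)) x = dd (AA E F x X) f (F x) := by
  unfold dd
  rw [AA_apply, inv_lt]
  exact mvfderiv_comp_apply x (hf.md (F x)) (hF.md x) (mulInvariantVectorField X x)

theorem SmF.comp {F : G → G} (hF : SmM E F) {f : G → ℝ} (hf : SmF E f) :
    SmF E (fun y => f (F y)) := ContMDiff.comp hf hF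

/-- the second derivative of `f ∘ F` -/
theorem dd_comp2 {F : G → G} (hF : SmM E F) (X Y : Lie E G) {f : G → ℝ} (hf : SmF E f) (x : G) :
    dd Y (dd X (fun y => f (F y))) x = dd (dAA hF x Y X) f (F x)
      + dd (AA E F x Y) (dd (AA E F x X) f) (F x) := by
  have h1 : dd X (fun y => f (F y)) = fun y => ∑ k, (Module.finBasis ℝ (Lie E G)).coord k
      (AA E F y X) * dd (Module.finBasis ℝ (Lie E G) k) f (F y) := by
    funext y
    rw [dd_comp hF X hf, dd_expand]
  have hk : ∀ k, SmF E (fun y => dd (Module.finBasis ℝ (Lie E G) k) f (F y)) :=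
    fun k => SmF.comp hF (smooth_dd _ hf)
  have h2 : dd (AA E F x X) f = fun y => ∑ k, dd (Module.finBasis ℝ (Lie E G) k) f y *
      (Module.finBasis ℝ (Lie E G)).coord k (AA E F x X) := by
    funext y
    rw [dd_expand]
    exact Finset.sum_congr rfl fun k _ => mul_comm _ _
  rw [h1, dd_sum Y (fun k => (smooth_AA hF X _).mul (hk k)), h2,
    dd_sum _ (fun k => (smooth_dd _ hf).mul (smF_const _)), dd_expand (dAA hF x Y X),
    ← Finset.sum_add_distrib]
  refine Finset.sum_congr rfl fun k _ => ?_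
  rw [dd_mul Y (smooth_AA hF X _) (hk k), dd_mul_const _ (smooth_dd _ hf),
    dd_comp hF Y (smooth_dd _ hf), dAA_der hF]
  ring

variable [CompleteSpace E] [LieGroup 𝓘(ℝ, E) (minSmoothness ℝ 3) G]

theorem AA_compat {F : G → G} (hF : SmM E F) (x : G) (X Y : Lie E G) :
    AA E F x ⁅X, Y⁆ = dAA hF x X Y - dAA hF x Y X + ⁅AA E F x X, AA E F x Y⁆ := by
  apply sep (F x)
  intro f hf
  rw [← dd_comp hF _ hf, ← commut X Y (SmF.comp hF hf), dd_comp2 hF Y X hf, dd_comp2 hF X Y hf,
    dd_add_left, ← commut _ _ hf]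
  have h3 := dd_add_left (dAA hF x X Y) ((-1 : ℝ) • dAA hF x Y X) f (F x)
  rw [dd_smul_left, neg_one_smul, ← sub_eq_add_neg] at h3
  rw [h3]
  ring

theorem dAA_second {F : G → G} (hF : SmM E F) (x : G) (X Y Z : Lie E G)
    (φ : Lie E G →ₗ[ℝ] ℝ) : dd X (fun y => φ (dAA hF y Y Z)) x
      - dd Y (fun y => φ (dAA hF y X Z)) x = φ (dAA hF x ⁅X, Y⁆ Z) := by
  have h : ∀ W, (fun y => φ (dAA hF y W Z)) = dd W (fun y => φ (AA E F y Z)) := by
    intro W
    funext y; exact (dAA_der hF y W Z φ).symm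
  rw [h, h, commut X Y (smooth_AA hF Z φ), dAA_der hF]

end PFI
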