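import Pool.Agent.PFL.B2
import Pool.Agent.PFL.A13

/-!
# [PFL-B3] the flow of an invariant left-invariant metric on `Γ\G` and the cohomological bound
-/

open scoped BigOperators Topology
open Set

namespace PFI

open PFL

variable {V G Γ : Type*} [AddCommGroup V] [Module ℝ V]

/-- `M` has a frame with a Lie bracket; constants behave as constants; the differentials of the
elements of `Γ` are `A` -/
structure Good (M : Geo V G Γ) (br : V →ₗ[ℝ] V →ₗ[ℝ] V) (A : Γ → G → V →ₗ[ℝ] V)
    (dA : Γ → G → V →ₗ[ℝ] V →ₗ[ℝ] V) : Prop where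
  lie : LieB br
  bk : ∀ X Y, M.bk X Y = br X Y
  D : ∀ X c x, M.D X (fun _ => c) x = 0
  Sm : ∀ c, M.Sm (fun _ => c)
  SmT : ∀ T f, ContDiffOn ℝ (⊤ : ℕ∞) f (Set.Ici 0) → M.SmT T (fun t _ => f t)
  push : ∀ γ x X X', M.push γ x X X' ↔ X' = A γ x X
  fm : ∀ γ, FM M br (A γ) (dA γ)

variable {M : Geo V G Γ} {br : V →ₗ[ℝ] V →ₗ[ℝ] V} {J : V →ₗ[ℝ] V}
variable {A : Γ → G → V →ₗ[ℝ] V} {dA : Γ → G → V →ₗ[ℝ] V →ₗ[ℝ] V}

theorem cStr (hM : Good M br A dA) (hJ : IsComplex M J) : CStr br J where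
  sq := hJ.sq
  int X Y := by
    have h := hJ.nijenhuis X Y
    simp only [hM.bk] at h
    have h2 : br (J X) (J Y) = (br (J X) (J Y) - br X Y - J (br (J X) Y) - J (br X (J Y)))
        + (br X Y + J (br (J X) Y) + J (br X (J Y))) := by abel
    rw [h2, h, zero_add]

theorem A_J (hM : Good M br A dA) (hJ : IsComplex M J) (γ : Γ) (x : G) (X : V) :
    A γ x (J X) = J (A γ x X) := by
  have h1 : M.push γ x X (A γ x X) := (hM.push γ x X _).2 rfl
  exact ((hM.push γ x (J X) _).1 (hJ.inv γ x X _ h1)).symm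

theorem inv2_iff (hM : Good M br A dA) (w : V →ₗ[ℝ] V →ₗ[ℝ] ℝ) :
    Inv2 M (fun _ X Y => w X Y) ↔ ∀ γ x X Y, w (A γ x X) (A γ x Y) = w X Y := by
  constructor
  · intro h γ x X Y
    exact h γ x X _ Y _ ((hM.push γ x X _).2 rfl) ((hM.push γ x Y _).2 rfl)
  · intro h γ x X X' Y Y' hX hY
    rw [(hM.push γ x X X').1 hX, (hM.push γ x Y Y').1 hY]
    exact h γ x X Y

/-- the forms `d^c ω` and `dd^c ω` of a constant `ω` -/
theorem ddc_const (hM : Good M br A dA) (w : V →ₗ[ℝ] V →ₗ[ℝ] ℝ) (x : G) (X Y Z W : V) :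
    d3 M (dc M J (fun _ A B => w A B)) x X Y Z W
      = Cf br J (PFG.gOf J w) (br X Y) Z W - Cf br J (PFG.gOf J w) (br X Z) Y W
        + Cf br J (PFG.gOf J w) (br X W) Y Z + Cf br J (PFG.gOf J w) (br Y Z) X W
        - Cf br J (PFG.gOf J w) (br Y W) X Z + Cf br J (PFG.gOf J w) (br Z W) X Y := by
  have hdc : ∀ (y : G) (A B C : V), dc M J (fun _ A B => w A B) y A B C
      = -Cf br J (PFG.gOf J w) A B C := by
    intro y A B C
    unfold dc d2 Cf PFG.gOf
    simp only [hM.D, LinearMap.compl₂_apply, hM.bk]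
    rw [hM.lie.skew (J A) (J C)]
    simp only [map_neg, LinearMap.neg_apply]
    ring
  unfold d3
  simp only [hdc, hM.D, hM.bk]
  ring

theorem met_of [Nonempty G] (hM : Good M br A dA) (hJ : IsComplex M J) {w : V →ₗ[ℝ] V →ₗ[ℝ] ℝ}
    (hw : IsPluriclosed M J (fun _ => w)) :
    Met J (PFG.gOf J w) ∧ Closed br J (PFG.gOf J w) ∧
      ∀ γ x X Y, PFG.gOf J w (A γ x X) (A γ x Y) = PFG.gOf J w X Y := by
  obtain ⟨x⟩ := (inferInstance : Nonempty G)
  have h11 := fun X Y => hw.type11 x X Y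
  have hsk := fun X Y => hw.skew x X Y
  refine ⟨⟨fun X Y => ?_, fun X Y => ?_, fun X hX => ?_⟩, fun X Y Z W => ?_, fun γ x X Y => ?_⟩
  · show w X (J Y) = w Y (J X)
    have h1 := h11 X (J Y)
    rw [hJ.sq, map_neg] at h1
    have h2 := hsk Y (J X)
    have h3 : w (J X) Y = -w X (J Y) := by linarith
    linarith
  · show w (J X) (J (J Y)) = w X (J Y)
    exact h11 X (J Y)
  · exact hw.pos x X hX
  · rw [← ddc_const hM w x X Y Z W]
    exact hw.ddc x X Y Z W
  · show w (A γ x X) (J (A γ x Y)) = w X (J Y)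
    rw [← A_J hM hJ]
    exact (inv2_iff hM w).1 hw.inv γ x X (J Y)

theorem pluri_of (hM : Good M br A dA) (hJ : IsComplex M J)
    {g : V →ₗ[ℝ] V →ₗ[ℝ] ℝ} (hg : Met J g) (hc : Closed br J g)
    (hi : ∀ γ x X Y, g (A γ x X) (A γ x Y) = g X Y) :
    IsPluriclosed M J (fun _ => PFG.wOf J g) := by
  have hsk : ∀ X Y, PFG.wOf J g X Y = -PFG.wOf J g Y X := by
    intro X Y
    show g (J X) Y = -g (J Y) X
    rw [gJ (cStr hM hJ) hg, hg.symm X (J Y)]
  have h11 : ∀ X Y, PFG.wOf J g (J X) (J Y) = PFG.wOf J g X Y := by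
    intro X Y
    show g (J (J X)) (J Y) = g (J X) Y
    exact hg.herm (J X) Y
  have hgg : PFG.gOf J (PFG.wOf J g) = g := by
    ext X Y
    show g (J X) (J Y) = g X Y
    exact hg.herm X Y
  refine ⟨fun X Y => hM.Sm _, ?_, fun _ => hsk, fun _ => h11, fun _ X hX => ?_,
    fun x X Y Z W => ?_⟩
  · rw [inv2_iff hM]
    intro γ x X Y
    show g (J (A γ x X)) (A γ x Y) = g (J X) Y
    rw [← A_J hM hJ]
    exact hi γ x (J X) Y
  · show 0 < g (J X) (J X)
    rw [hg.herm]; exact hg.pos X hX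
  · have := ddc_const (J := J) hM (PFG.wOf J g) x X Y Z W
    rw [hgg] at this
    exact this.trans (hc X Y Z W)

variable {m : ℕ}

/-- the algebraic Bismut connection is the Bismut connection -/
theorem bismut_of (hM : Good M br A dA) (hJ : IsComplex M J)
    {g : V →ₗ[ℝ] V →ₗ[ℝ] ℝ} (hg : Met J g) {e : Module.Basis (Fin m) ℝ V} (he : Orth g e) :
    IsBismut M J (fun _ => PFG.wOf J g) (fun _ => LamM br J g e) := by
  have hω : ∀ A B : V, PFG.wOf J g A (J B) = g A B := by
    intro A B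
    show g (J A) (J B) = g A B
    exact hg.herm A B
  refine ⟨fun φ X Y => hM.Sm _, fun x X Y Z => ?_, fun x X Y => LamM_J (cStr hM hJ) hg he X Y,
    fun x X Y Z => ?_⟩
  · rw [hM.D, hω, hω, LamM_g hg he, hg.symm Y, LamM_g hg he, af_skew hM.lie X Y Z]
    ring
  · rw [hω, hω]
    have h1 : ∀ A B C : V, g (LamM br J g e A B - LamM br J g e B A - M.bk A B) C
        = Cf br J g A B C := by
      intro A B C
      have h := br_eq_af (J := J) (g := g) hM.lie A B C
      rw [hM.bk]
      simp only [map_sub, LinearMap.sub_apply]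
      rw [LamM_g hg he, LamM_g hg he, h]
      ring
    rw [h1, h1, Cf_swap' hM.lie]

/-- its Ricci form is `dη` -/
theorem ricci_of [Module.Finite ℝ V] (hM : Good M br A dA) (hJ : IsComplex M J)
    {g : V →ₗ[ℝ] V →ₗ[ℝ] ℝ} (hg : Met J g) {e : Module.Basis (Fin m) ℝ V} (he : Orth g e)
    (b : Module.Basis (Fin m) ℝ V) (x : G) (X Y : V) :
    ricciForm M J (fun _ => LamM br J g e) x X Y = -eta b br J g (br X Y) := by
  unfold ricciForm curv
  simp only [hM.D, zero_add, hM.bk, LinearMap.comp_apply, Module.Basis.coord_apply]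
  have h := sum_repr_trace (Module.finBasis ℝ V) (J ∘ₗ (LamM br J g e X ∘ₗ LamM br J g e Y
      - LamM br J g e Y ∘ₗ LamM br J g e X - LamM br J g e (br X Y)))
  rw [trace_curv hM.lie (cStr hM hJ) hg he b] at h
  simp only [LinearMap.comp_apply, LinearMap.sub_apply, map_sub, Finsupp.sub_apply] at h
  rw [h]
  ring

/-- the data of the global left-invariant solution -/
theorem exists_gt [Nonempty G] (hM : Good M br A dA) (hJ : IsComplex M J)
    (b : Module.Basis (Fin m) ℝ V) {w : V →ₗ[ℝ] V →ₗ[ℝ] ℝ} (hw : IsPluriclosed M J (fun _ => w)) :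
    ∃ gt : ℝ → V →ₗ[ℝ] V →ₗ[ℝ] ℝ, gt 0 = PFG.gOf J w ∧
      (∀ t, 0 ≤ t → Met J (gt t) ∧ Closed br J (gt t) ∧
        ∀ γ x X Y, gt t (A γ x X) (A γ x Y) = gt t X Y) ∧
      (∀ X Y, ContDiffOn ℝ (⊤ : ℕ∞) (fun t => gt t X Y) (Ici 0)) ∧
      ∀ t, 0 ≤ t → ∀ X Y,
        HasDerivWithinAt (fun t => gt t X Y) (Fg b br J (gt t) X Y) (Ici 0) t := by
  obtain ⟨hg, hc, hi⟩ := met_of hM hJ hw
  exact core_inv (M := M) hM.lie (cStr hM hJ) b hM.D hM.fm (A_J hM hJ) hg hc hi

/-- `T(ω₀) = ∞` -/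
theorem singTime_top [Nonempty G] [Module.Finite ℝ V] (hM : Good M br A dA) (hJ : IsComplex M J)
    {w : V →ₗ[ℝ] V →ₗ[ℝ] ℝ} (hw : IsPluriclosed M J (fun _ => w)) :
    singTime M J (fun _ => w) = ⊤ := by
  obtain ⟨gt, hg0, hmc, hsm, hd⟩ := exists_gt hM hJ (Module.finBasis ℝ V) hw
  obtain ⟨x₀⟩ := (inferInstance : Nonempty G)
  refine top_le_iff.1 (le_sSup ⟨by simp, fun t _ => PFG.wOf J (gt t),
    ⟨fun t ht _ => pluri_of hM hJ (hmc t ht).1 (hmc t ht).2.1 (hmc t ht).2.2,
    fun X Y => hM.SmT _ _ (hsm (J X) Y), fun t ht _ => ?_⟩, ?_⟩)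
  · obtain ⟨e, he⟩ := exists_orth (Module.finBasis ℝ V) (hmc t ht).1
    refine ⟨fun _ => LamM br J (gt t) e, bismut_of hM hJ (hmc t ht).1 he, fun x X Y => ?_⟩
    have h := hd t ht (J X) Y
    have h3 : -part11 J (ricciForm M J (fun _ => LamM br J (gt t) e)) x X Y
        = Fg (Module.finBasis ℝ V) br J (gt t) (J X) Y := by
      unfold part11
      rw [ricci_of hM hJ (hmc t ht).1 he (Module.finBasis ℝ V),
        ricci_of hM hJ (hmc t ht).1 he (Module.finBasis ℝ V), Fg_eq_gaM, gaM_apply,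
        hJ.sq, hM.lie.skew Y (-X), etaL_apply]
      simp only [map_neg, LinearMap.neg_apply, neg_neg, etaL_apply]
      ring
    rw [h3]
    exact h
  · funext x
    show PFG.wOf J (gt 0) = w
    rw [hg0]
    exact PFG.wOf_gOf (fun X Y => hw.type11 x₀ X Y)

/-- `τ*(ω₀) = ∞` -/
theorem tauStar_top [Nonempty G] [Module.Finite ℝ V] (hM : Good M br A dA) (hJ : IsComplex M J)
    {w : V →ₗ[ℝ] V →ₗ[ℝ] ℝ} (hw : IsPluriclosed M J (fun _ => w)) :
    tauStar M J (fun _ => w) = ⊤ := by
  set b := Module.finBasis ℝ V with hb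
  obtain ⟨gt, hg0, hmc, hsm, hd⟩ := exists_gt hM hJ b hw
  obtain ⟨x₀⟩ := (inferInstance : Nonempty G)
  have hww : PFG.wOf J (gt 0) = w := by
    rw [hg0]; exact PFG.wOf_gOf (fun X Y => hw.type11 x₀ X Y)
  obtain ⟨e, he⟩ := exists_orth b (hmc 0 le_rfl).1
  have hB := bismut_of hM hJ (hmc 0 le_rfl).1 he
  rw [hww] at hB
  -- continuity of `η`
  have hce : ∀ X, ContinuousOn (fun s => eta b br J (gt s) X) (Ici 0) := fun X s hs =>
    cont_eta b (hmc s hs).1 (fun X Y => (hd s hs X Y).continuousWithinAt) X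
  have hint : ∀ X t, 0 ≤ t → IntervalIntegrable
      (fun s => eta b br J (gt 0) X - eta b br J (gt s) X) MeasureTheory.volume 0 t := by
    intro X t ht
    refine (ContinuousOn.intervalIntegrable ?_)
    rw [uIcc_of_le ht]
    exact continuousOn_const.sub ((hce X).mono Icc_subset_Ici_self)
  have key : ∀ t : ℝ, 0 ≤ t → (t : EReal) ≤ tauStar M J (fun _ => w) := by
    intro t ht
    refine le_sSup ⟨t, ht, rfl, _, hB, ?_⟩
    let bt : V →ₗ[ℝ] ℝ :=
      { toFun := fun X => ∫ s in (0:ℝ)..t, (eta b br J (gt 0) X - eta b br J (gt s) X)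
        map_add' := fun X Y => by
          rw [← intervalIntegral.integral_add (hint X t ht) (hint Y t ht)]
          congr 1
          funext s
          rw [← etaL_apply, ← etaL_apply, ← etaL_apply, ← etaL_apply, ← etaL_apply, ← etaL_apply,
            map_add, map_add]
          ring
        map_smul' := fun c X => by
          rw [RingHom.id_apply, smul_eq_mul, ← intervalIntegral.integral_const_mul]
          congr 1
          funext s
          rw [← etaL_apply, ← etaL_apply, ← etaL_apply, ← etaL_apply, map_smul, map_smul,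
            smul_eq_mul, smul_eq_mul]
          ring }
    have hbt : ∀ X, bt X = t * eta b br J (gt 0) X - ∫ s in (0:ℝ)..t, eta b br J (gt s) X := by
      intro X
      show (∫ s in (0:ℝ)..t, (eta b br J (gt 0) X - eta b br J (gt s) X)) = _
      have i1 : IntervalIntegrable (fun _ : ℝ => eta b br J (gt 0) X)
          MeasureTheory.volume 0 t := intervalIntegrable_const
      have i2 : IntervalIntegrable (fun s => eta b br J (gt s) X)
          MeasureTheory.volume 0 t := by
        refine (ContinuousOn.intervalIntegrable ?_)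
        rw [uIcc_of_le ht]
        exact (hce X).mono Icc_subset_Ici_self
      rw [intervalIntegral.integral_sub i1 i2, intervalIntegral.integral_const, sub_zero,
        smul_eq_mul]
    refine ⟨fun _ => bt, fun _ => PFG.wOf J (gt t), fun X => hM.Sm _, ?_,
      pluri_of hM hJ (hmc t ht).1 (hmc t ht).2.1 (hmc t ht).2.2, fun x X Y => ?_⟩
    · intro γ x X X' hX
      rw [(hM.push γ x X X').1 hX]
      show (∫ s in (0:ℝ)..t, (eta b br J (gt 0) (A γ x X) - eta b br J (gt s) (A γ x X)))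
        = ∫ s in (0:ℝ)..t, (eta b br J (gt 0) X - eta b br J (gt s) X)
      refine intervalIntegral.integral_congr fun s hs => ?_
      rw [uIcc_of_le ht] at hs
      obtain ⟨es, hes⟩ := exists_orth b (hmc s hs.1).1
      have h1 := eta_diff (M := M) hM.lie (cStr hM hJ) (hmc s hs.1).1 hes b hM.D (hM.fm γ)
        (A_J hM hJ γ) ((hmc s hs.1).2.2 γ) x X
      have h2 := eta_diff (M := M) hM.lie (cStr hM hJ) (hmc 0 le_rfl).1 he b hM.D (hM.fm γ)
        (A_J hM hJ γ) ((hmc 0 le_rfl).2.2 γ) x X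
      show eta b br J (gt 0) (A γ x X) - eta b br J (gt s) (A γ x X)
        = eta b br J (gt 0) X - eta b br J (gt s) X
      linarith
    · have hric : ∀ P Q : V, ricciForm M J (fun _ => LamM br J (gt 0) e) x P Q
          = -eta b br J (gt 0) (br P Q) := fun P Q =>
        ricci_of hM hJ (hmc 0 le_rfl).1 he b x P Q
      unfold part11 d1
      simp only [hric, hM.D, hM.bk, hbt]
      -- fundamental theorem of calculus
      have hF : ∀ s, 0 ≤ s → Fg b br J (gt s) (J X) Y
          = (eta b br J (gt s) (br X Y) + eta b br J (gt s) (br (J X) (J Y))) / 2 := by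
        intro s hs
        rw [Fg_eq_gaM, gaM_apply, hJ.sq, hM.lie.skew Y (-X), etaL_apply]
        simp only [map_neg, LinearMap.neg_apply, neg_neg, etaL_apply]
        ring
      have hi1 : ∀ Z, IntervalIntegrable (fun s => eta b br J (gt s) Z)
          MeasureTheory.volume 0 t := by
        intro Z
        refine (ContinuousOn.intervalIntegrable ?_)
        rw [uIcc_of_le ht]
        exact (hce Z).mono Icc_subset_Ici_self
      have hftc : ∫ s in (0:ℝ)..t, (eta b br J (gt s) (br X Y)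
          + eta b br J (gt s) (br (J X) (J Y))) / 2 = gt t (J X) Y - gt 0 (J X) Y := by
        refine intervalIntegral.integral_eq_sub_of_hasDeriv_right_of_le
          (f := fun s => gt s (J X) Y) ht ?_ ?_ ?_
        · exact fun s hs => ((hd s hs.1 (J X) Y).continuousWithinAt).mono Icc_subset_Ici_self
        · intro s hs
          have h1 := hd s hs.1.le (J X) Y
          rw [hF s hs.1.le] at h1
          exact h1.mono (fun r hr => (hs.1.le.trans (le_of_lt hr)))
        · exact ((hi1 _).add (hi1 _)).div_const 2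
      rw [intervalIntegral.integral_div, intervalIntegral.integral_add (hi1 _) (hi1 _)] at hftc
      have h0 : w X Y = gt 0 (J X) Y := by
        rw [← hww]; rfl
      show gt t (J X) Y = _
      rw [h0]
      linarith
  rw [← top_le_iff]
  refine le_of_forall_lt fun c hc' => ?_
  induction c with
  | bot => exact lt_of_lt_of_le (by simp) (key 0 le_rfl)
  | coe r =>
    refine lt_of_lt_of_le ?_ (key (max r 0 + 1) (by positivity))
    exact_mod_cast lt_of_le_of_lt (le_max_left r 0) (lt_add_one _)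
  | top => exact absurd hc' (lt_irrefl _)

end PFI
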