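import Pool.Agent.PFL.A14
import Pool.Agent.PFL.B3
import Pool.Agent.PFL.B10

/-!
# [PFL-B11] the frame of left-invariant vector fields on `Γ\G`
-/

open scoped Manifold ContDiff

namespace PFI

open PFL

variable {E : Type*} [NormedAddCommGroup E] [NormedSpace ℝ E] [FiniteDimensional ℝ E]
  {G : Type*} [TopologicalSpace G] [ChartedSpace E G] [Group G]
  [LieGroup 𝓘(ℝ, E) (⊤ : ℕ∞) G] [CompleteSpace E] [LieGroup 𝓘(ℝ, E) (minSmoothness ℝ 3) G]
  {Γ : Type*} [Group Γ] [MulAction Γ G]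

/-- the bracket as a bilinear map -/
noncomputable def brL : Lie E G →ₗ[ℝ] Lie E G →ₗ[ℝ] Lie E G :=
  LinearMap.mk₂ ℝ (fun X Y => ⁅X, Y⁆) add_lie (fun c X Y => smul_lie c X Y) lie_add
    (fun c X Y => lie_smul c X Y)

theorem brL_apply (X Y : Lie E G) : brL X Y = ⁅X, Y⁆ := rfl

theorem good_quot (h : ∀ γ : Γ, ContMDiff 𝓘(ℝ, E) 𝓘(ℝ, E) (⊤ : ℕ∞) (fun x : G => γ • x)) :
    Good (quot (E := E) (G := G) Γ) (brL : Lie E G →ₗ[ℝ] _) (fun γ => AA E (fun x => γ • x))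
      (fun γ => dAA (h γ)) where
  lie := ⟨fun X Y => by rw [brL_apply, brL_apply]; exact (lie_skew X Y).symm,
    fun X Y Z => by simp only [brL_apply]; exact leibniz_lie X Y Z⟩
  bk _ _ := rfl
  D X c x := dd_const X c x
  Sm c := contMDiff_const
  SmT T f hf := by
    have h2 : ContMDiffOn 𝓘(ℝ, ℝ) 𝓘(ℝ, ℝ) (⊤ : ℕ∞) f (Set.Ici 0) := hf.contMDiffOn
    exact h2.comp (contMDiff_fst (I := 𝓘(ℝ, ℝ)) (J := 𝓘(ℝ, E)) (M := ℝ) (N := G)).contMDiffOn
      (fun p hp => hp.1.1)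
  push γ x X X' := AA_push (fun x => γ • x) x X X'
  fm γ :=
    { bij := AA_bij (fun x => γ • x) (fun x => γ⁻¹ • x) (h γ) (h γ⁻¹)
        (fun y => inv_smul_smul γ y) (fun y => smul_inv_smul γ y)
      der := fun x X Z φ => dAA_der (h γ) x X Z φ
      compat := fun x X Y => AA_compat (h γ) x X Y
      second := fun x X Y Z φ => dAA_second (h γ) x X Y Z φ
      prod := fun x X Y Z β => AA_prod (h γ) x X Y Z β
      add := fun x X Y Z φ β => dd_add X (smooth_dAA (h γ) Y Z φ) (smooth_prod (h γ) Y Z β) x }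

end PFI
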