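import Pool.Agent.PFL.B1

/-!
# [PFL-B2] the flow preserves the isometries
-/

open scoped BigOperators Topology
open Set

namespace PFI

open PFL

variable {V G Γ : Type*} [AddCommGroup V] [Module ℝ V]
variable {br : V →ₗ[ℝ] V →ₗ[ℝ] V} {J : V →ₗ[ℝ] V} {g : V →ₗ[ℝ] V →ₗ[ℝ] ℝ}
variable {m : ℕ} {M : Geo V G Γ}
variable {A : Γ → G → V →ₗ[ℝ] V} {dA : Γ → G → V →ₗ[ℝ] V →ₗ[ℝ] V}

theorem gm_add (b : Module.Basis (Fin m) ℝ V) (H H' : Fin m → Fin m → ℝ) (X Y : V) :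
    gm b (H + H') X Y = gm b H X Y + gm b H' X Y := by
  simp only [gm_apply, Pi.add_apply, mul_add, Finset.sum_add_distrib]

theorem gm_smul (b : Module.Basis (Fin m) ℝ V) (c : ℝ) (H : Fin m → Fin m → ℝ) (X Y : V) :
    gm b (c • H) X Y = c * gm b H X Y := by
  simp only [gm_apply, Pi.smul_apply, smul_eq_mul, Finset.mul_sum]
  refine Finset.sum_congr rfl fun i _ => Finset.sum_congr rfl fun j _ => ?_
  ring

theorem gm_zero (b : Module.Basis (Fin m) ℝ V) (X Y : V) : gm b 0 X Y = 0 := by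
  simp only [gm_apply, Pi.zero_apply, mul_zero, Finset.sum_const_zero]

/-- the linear space of symmetric `J`-invariant pluriclosed forms preserved by the isometries -/
def SS (b : Module.Basis (Fin m) ℝ V) (br : V →ₗ[ℝ] V →ₗ[ℝ] V) (J : V →ₗ[ℝ] V)
    (A : Γ → G → V →ₗ[ℝ] V) : Submodule ℝ (Fin m → Fin m → ℝ) where
  carrier := {H | (∀ X Y, gm b H X Y = gm b H Y X) ∧ (∀ X Y, gm b H (J X) (J Y) = gm b H X Y) ∧
    Closed br J (gm b H) ∧ ∀ γ x X Y, gm b H (A γ x X) (A γ x Y) = gm b H X Y}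
  add_mem' := by
    rintro H H' ⟨h1, h2, h3, h4⟩ ⟨k1, k2, k3, k4⟩
    refine ⟨fun X Y => ?_, fun X Y => ?_, fun X Y Z W => ?_, fun γ x X Y => ?_⟩
    · rw [gm_add, gm_add, h1, k1]
    · rw [gm_add, gm_add, h2, k2]
    · have a := h3 X Y Z W
      have a' := k3 X Y Z W
      unfold Cf at a a' ⊢
      simp only [gm_add]
      linarith
    · rw [gm_add, gm_add, h4, k4]
  zero_mem' := by
    refine ⟨fun X Y => ?_, fun X Y => ?_, fun X Y Z W => ?_, fun γ x X Y => ?_⟩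
    · rw [gm_zero, gm_zero]
    · rw [gm_zero, gm_zero]
    · unfold Cf; simp only [gm_zero]; ring
    · rw [gm_zero, gm_zero]
  smul_mem' := by
    rintro c H ⟨h1, h2, h3, h4⟩
    refine ⟨fun X Y => ?_, fun X Y => ?_, fun X Y Z W => ?_, fun γ x X Y => ?_⟩
    · rw [gm_smul, gm_smul, h1]
    · rw [gm_smul, gm_smul, h2]
    · have a := h3 X Y Z W
      unfold Cf at a ⊢
      simp only [gm_smul]
      linear_combination c * a
    · rw [gm_smul, gm_smul, h4]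

theorem mem_SS (b : Module.Basis (Fin m) ℝ V) {H : Fin m → Fin m → ℝ} :
    H ∈ SS b br J A ↔ (∀ X Y, gm b H X Y = gm b H Y X) ∧
      (∀ X Y, gm b H (J X) (J Y) = gm b H X Y) ∧ Closed br J (gm b H) ∧
      ∀ γ x X Y, gm b H (A γ x X) (A γ x Y) = gm b H X Y := Iff.rfl

/-- the right-hand side of the flow preserves the space `SS` -/
theorem rhs_mem (hb : LieB br) (hJ : CStr br J) (b : Module.Basis (Fin m) ℝ V)
    (hD : ∀ X c x, M.D X (fun _ => c) x = 0) (hF : ∀ γ, FM M br (A γ) (dA γ))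
    (hAJ : ∀ γ x X, A γ x (J X) = J (A γ x X)) {H : Fin m → Fin m → ℝ}
    (hS : H ∈ SS b br J A) (hU : H ∈ Up b) : rhs b br J H ∈ SS b br J A := by
  obtain ⟨h1, h2, h3, h4⟩ := (mem_SS b).1 hS
  have hg : Met J (gm b H) := ⟨h1, h2, fun X hX => Up_pos b hU hX⟩
  have hr : gm b (rhs b br J H) = gaM br J (etaL b br J (gm b H)) := by
    refine b.ext fun i => b.ext fun j => ?_
    rw [gm_basis]
    exact Fg_eq_gaM b (b i) (b j)
  obtain ⟨e, he⟩ := exists_orth b hg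
  rw [mem_SS, hr]
  refine ⟨fun X Y => gaM_symm _ X Y, fun X Y => gaM_J hb hJ _ X Y, closed_gaM hb hJ _,
    fun γ x X Y => ?_⟩
  rw [gaM_apply, gaM_apply, ← hAJ, ← hAJ, etaL_apply, etaL_apply, etaL_apply, etaL_apply,
    eta_br_nat hb hJ hg he b hD (hF γ) (hAJ γ) (h4 γ), eta_br_nat hb hJ hg he b hD (hF γ)
    (hAJ γ) (h4 γ)]

/-- long-time existence, preserving the isometries -/
theorem core_inv (hb : LieB br) (hJ : CStr br J) (b : Module.Basis (Fin m) ℝ V)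
    (hD : ∀ X c x, M.D X (fun _ => c) x = 0) (hF : ∀ γ, FM M br (A γ) (dA γ))
    (hAJ : ∀ γ x X, A γ x (J X) = J (A γ x X))
    {g0 : V →ₗ[ℝ] V →ₗ[ℝ] ℝ} (hg0 : Met J g0) (hc0 : Closed br J g0)
    (hi0 : ∀ γ x X Y, g0 (A γ x X) (A γ x Y) = g0 X Y) :
    ∃ gt : ℝ → V →ₗ[ℝ] V →ₗ[ℝ] ℝ, gt 0 = g0 ∧
      (∀ t, 0 ≤ t → Met J (gt t) ∧ Closed br J (gt t) ∧
        ∀ γ x X Y, gt t (A γ x X) (A γ x Y) = gt t X Y) ∧
      (∀ X Y, ContDiffOn ℝ (⊤ : ℕ∞) (fun t => gt t X Y) (Ici 0)) ∧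
      ∀ t, 0 ≤ t → ∀ X Y,
        HasDerivWithinAt (fun t => gt t X Y) (Fg b br J (gt t) X Y) (Ici 0) t := by
  set S := SS b br J A with hSdef
  have hclosed : IsClosed (S : Set (Fin m → Fin m → ℝ)) := S.closed_of_finiteDimensional
  obtain ⟨P, hP⟩ := Submodule.ClosedComplemented.of_finiteDimensional S
  set G0 : Fin m → Fin m → ℝ := fun i j => g0 (b i) (b j) with hG0def
  have hgm0 : gm b G0 = g0 := gm_of b g0
  have hG0U : G0 ∈ Up b := by
    obtain ⟨c, hc, h⟩ := exists_lower b hg0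
    exact ⟨c, hc, fun X => by rw [hgm0]; exact h X⟩
  have hG0S : G0 ∈ S := by
    rw [hSdef, mem_SS, hgm0]
    exact ⟨hg0.symm, hg0.herm, hc0, hi0⟩
  set f : S → S := fun H => P (rhs b br J H) with hf
  set U : Set S := {H | (H : Fin m → Fin m → ℝ) ∈ Up b} with hU
  have hUo : IsOpen U := (isOpen_Up b).preimage continuous_subtype_val
  have hfr : ∀ H ∈ U, ((f H : S) : Fin m → Fin m → ℝ) = rhs b br J H := by
    intro H hH
    have h1 := rhs_mem (M := M) hb hJ b hD hF hAJ H.2 hH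
    have h2 := hP ⟨rhs b br J H, h1⟩
    exact congrArg Subtype.val h2
  have hfs : ∀ n : WithTop ℕ∞, ContDiffOn ℝ n f U := by
    intro n
    have h1 : ContDiffOn ℝ n (rhs b br J) (Up b) := contDiffOn_rhs b
    have h2 : ContDiff ℝ n (S.subtypeL : S → Fin m → Fin m → ℝ) := S.subtypeL.contDiff
    exact P.contDiff.comp_contDiffOn (h1.comp h2.contDiffOn (fun H hH => hH))
  -- solutions in `S` are solutions
  have hsol : ∀ (x : ℝ → S) (I : Set ℝ) (t : ℝ), x t ∈ U → HasDerivWithinAt x (f (x t)) I t →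
      HasDerivWithinAt (fun t => (x t : Fin m → Fin m → ℝ)) (rhs b br J (x t)) I t := by
    intro x I t hx hd
    have h1 := S.subtypeL.hasFDerivAt.comp_hasDerivWithinAt t hd
    rw [← hfr (x t) hx]
    exact h1
  have hap : ∀ T, 0 ≤ T → ∀ s, 0 ≤ s → s ≤ T → ∀ x : ℝ → S, x 0 = ⟨G0, hG0S⟩ →
      (∀ t ∈ Icc 0 s, x t ∈ U) → (∀ t ∈ Icc 0 s, HasDerivWithinAt x (f (x t)) (Icc 0 s) t) →
      ∀ t ∈ Icc 0 s, x t ∈ (Subtype.val ⁻¹' (KT b br J g0 T) : Set S) := by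
    intro T _ s hs hsT x hx0 hxU hxd t ht
    have h0 : (x 0 : Fin m → Fin m → ℝ) = G0 := by rw [hx0]
    exact KT_apriori hb hJ b hg0 hc0 hs hsT (fun t => (x t : Fin m → Fin m → ℝ)) h0
      hxU (fun t ht => hsol x _ t (hxU t ht) (hxd t ht)) t ht
  have h0 : ∀ T, 0 ≤ T → (⟨G0, hG0S⟩ : S) ∈ (Subtype.val ⁻¹' (KT b br J g0 T) : Set S) := by
    intro T hT
    refine hap T hT 0 le_rfl hT (fun _ => ⟨G0, hG0S⟩) rfl (fun t _ => hG0U)
      (fun t ht => ?_) 0 (left_mem_Icc.2 le_rfl)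
    have : Icc (0:ℝ) 0 = {0} := Icc_self 0
    rw [this]
    exact HasFDerivWithinAt.of_subsingleton (by simp)
  obtain ⟨x, hx0, hxU, hxd⟩ := ode_global hUo (hfs 1) (x0 := (⟨G0, hG0S⟩ : S))
    (K := fun T => (Subtype.val ⁻¹' (KT b br J g0 T) : Set S))
    (fun T _ => hclosed.isClosedEmbedding_subtypeVal.isCompact_preimage (KT_compact b g0 T))
    (fun T _ H hH => KT_subset b hg0 T hH) h0 hap
  have hd : ∀ t, 0 ≤ t → HasDerivWithinAt (fun t => (x t : Fin m → Fin m → ℝ))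
      (rhs b br J (x t)) (Ici 0) t := fun t ht => hsol x _ t (hxU t ht) (hxd t ht)
  have hd' : ∀ t, 0 ≤ t → ∀ X Y, HasDerivWithinAt (fun t => gm b (x t) X Y)
      (Fg b br J (gm b (x t)) X Y) (Ici 0) t := by
    intro t ht X Y
    have h1 : ∀ i j, HasDerivWithinAt (fun t => (x t : Fin m → Fin m → ℝ) i j)
        (Fg b br J (gm b (x t)) (b i) (b j)) (Ici 0) t := by
      intro i j
      exact (hasDerivWithinAt_pi.1 ((hasDerivWithinAt_pi.1 (hd t ht)) i)) j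
    rw [Fg_eq_gaM, bil_exp b (gaM br J (etaL b br J (gm b (x t)))) X Y]
    simp only [gm_apply]
    refine HasDerivWithinAt.fun_sum fun i _ => HasDerivWithinAt.fun_sum fun j _ => ?_
    rw [← Fg_eq_gaM]
    exact (h1 i j).const_mul _
  refine ⟨fun t => gm b (x t), ?_, fun t ht => ?_, fun X Y => ?_, hd'⟩
  · show gm b (x 0) = g0
    rw [hx0]
    exact hgm0
  · obtain ⟨h1, h2, h3, h4⟩ := (mem_SS b).1 (x t).2
    exact ⟨⟨h1, h2, fun X hX => Up_pos b (hxU t ht) hX⟩, h3, h4⟩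
  · have hs := ode_smooth_Ici (contDiffOn_rhs (br := br) (J := J) b (n := (⊤ : ℕ∞))) hd hxU
    intro t ht
    have h3 : ContDiffAt ℝ (⊤ : ℕ∞) (fun H => gm b H X Y) (x t : Fin m → Fin m → ℝ) :=
      contDiffAt_gm b X Y _
    have h4 := ContDiffAt.comp_contDiffWithinAt (g := fun H => gm b H X Y)
      (f := fun t => (x t : Fin m → Fin m → ℝ)) t h3 (hs t ht)
    exact h4

end PFI
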