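import Pool.Agent.PFL.IDefs

/-!
# [PFL-B4] derivatives of smooth functions along left-invariant vector fields
-/

open scoped Manifold BigOperators ContDiff
open Bundle

namespace PFI

variable {E : Type*} [NormedAddCommGroup E] [NormedSpace ℝ E]
  {G : Type*} [TopologicalSpace G] [ChartedSpace E G] [Group G]

/-- the derivative along a left-invariant vector field -/
noncomputable def dd (X : Lie E G) (f : G → ℝ) (x : G) : ℝ :=
  mvfderiv 𝓘(ℝ, E) f x (mulInvariantVectorField X x)

theorem quot_D {Γ : Type*} [Group Γ] [MulAction Γ G] (X : Lie E G) (f : G → ℝ) (x : G) :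
    (quot (E := E) (G := G) Γ).D X f x = dd X f x := rfl

/-- smooth functions -/
abbrev SmF (E : Type*) [NormedAddCommGroup E] [NormedSpace ℝ E] {G : Type*} [TopologicalSpace G]
    [ChartedSpace E G] (f : G → ℝ) : Prop := ContMDiff 𝓘(ℝ, E) 𝓘(ℝ, ℝ) (⊤ : ℕ∞) f

theorem SmF.md {f : G → ℝ} (hf : SmF E f) (x : G) : MDifferentiableAt 𝓘(ℝ, E) 𝓘(ℝ, ℝ) f x :=
  (hf x).mdifferentiableAt (by simp)

theorem smF_const (c : ℝ) : SmF E (fun _ : G => c) := contMDiff_const

theorem dd_const (X : Lie E G) (c : ℝ) (x : G) : dd X (fun _ => c) x = 0 := by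
  unfold dd
  rw [mvfderiv_const]
  rfl

theorem dd_add (X : Lie E G) {f h : G → ℝ} (hf : SmF E f) (hh : SmF E h) (x : G) :
    dd X (fun y => f y + h y) x = dd X f x + dd X h x := by
  unfold dd
  have := mvfderiv_add (hf.md x) (hh.md x)
  have h2 := congrArg (fun L => L (mulInvariantVectorField X x)) this
  exact h2

theorem dd_mul (X : Lie E G) {f h : G → ℝ} (hf : SmF E f) (hh : SmF E h) (x : G) :
    dd X (fun y => f y * h y) x = f x * dd X h x + dd X f x * h x := by
  unfold dd
  have := mvfderiv_mul (hf.md x) (hh.md x)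
  have h2 := congrArg (fun L => L (mulInvariantVectorField X x)) this
  have h3 : (f x • mvfderiv 𝓘(ℝ, E) h x + h x • mvfderiv 𝓘(ℝ, E) f x) (mulInvariantVectorField X x)
    = f x * mvfderiv 𝓘(ℝ, E) h x (mulInvariantVectorField X x)
      + mvfderiv 𝓘(ℝ, E) f x (mulInvariantVectorField X x) * h x := by
    rw [mul_comm _ (h x)]; rfl
  rw [← h3]
  exact h2

theorem SmF.add {f h : G → ℝ} (hf : SmF E f) (hh : SmF E h) : SmF E (fun y => f y + h y) :=
  ContMDiff.add hf hh

theorem SmF.mul {f h : G → ℝ} (hf : SmF E f) (hh : SmF E h) : SmF E (fun y => f y * h y) :=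
  ContMDiff.smul hf hh

theorem SmF.sum {ι : Type*} {s : Finset ι} {f : ι → G → ℝ} (hf : ∀ i, SmF E (f i)) :
    SmF E (fun y => ∑ i ∈ s, f i y) := by
  classical
  induction s using Finset.induction_on with
  | empty => simp only [Finset.sum_empty]; exact smF_const 0
  | insert a s ha ih =>
    simp only [Finset.sum_insert ha]
    exact (hf a).add ih

theorem dd_sum (X : Lie E G) {ι : Type*} {s : Finset ι} {f : ι → G → ℝ} (hf : ∀ i, SmF E (f i))
    (x : G) : dd X (fun y => ∑ i ∈ s, f i y) x = ∑ i ∈ s, dd X (f i) x := by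
  classical
  induction s using Finset.induction_on with
  | empty => simp only [Finset.sum_empty]; exact dd_const X 0 x
  | insert a s ha ih =>
    simp only [Finset.sum_insert ha]
    rw [dd_add X (hf a) (SmF.sum hf), ih]

theorem dd_mul_const (X : Lie E G) {f : G → ℝ} (hf : SmF E f) (c : ℝ) (x : G) :
    dd X (fun y => f y * c) x = dd X f x * c := by
  rw [dd_mul X hf (smF_const c), dd_const, mul_zero, zero_add]

theorem dd_add_left (X Y : Lie E G) (f : G → ℝ) (x : G) :
    dd (X + Y) f x = dd X f x + dd Y f x := by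
  unfold dd
  rw [mulInvariantVectorField_add]
  exact map_add (mvfderiv 𝓘(ℝ, E) f x) (mulInvariantVectorField X x) (mulInvariantVectorField Y x)

theorem dd_smul_left (c : ℝ) (X : Lie E G) (f : G → ℝ) (x : G) :
    dd (c • X) f x = c * dd X f x := by
  unfold dd
  rw [mulInvariantVectorField_smul]
  exact map_smul (mvfderiv 𝓘(ℝ, E) f x) c (mulInvariantVectorField X x)

end PFI
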