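import Pool.Agent.PFL.B4

/-!
# [PFL-B5] smoothness of left-invariant vector fields and of the left trivialisation
-/

open scoped Manifold BigOperators ContDiff
open Bundle

namespace PFI

variable {E : Type*} [NormedAddCommGroup E] [NormedSpace ℝ E]
  {G : Type*} [TopologicalSpace G] [ChartedSpace E G] [Group G]
  [LieGroup 𝓘(ℝ, E) (⊤ : ℕ∞) G]

set_option backward.defeqAttrib.useBackward true in
set_option backward.isDefEq.respectTransparency false in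
theorem smooth_inv (v : Lie E G) :
    ContMDiff 𝓘(ℝ, E) (𝓘(ℝ, E).prod 𝓘(ℝ, E)) (⊤ : ℕ∞)
      (fun (g : G) ↦ (mulInvariantVectorField v g : TangentBundle 𝓘(ℝ, E) G)) := by
  have hm : IsManifold 𝓘(ℝ, E) (((⊤ : ℕ∞) : WithTop ℕ∞) + 1) G :=
    inferInstanceAs (IsManifold 𝓘(ℝ, E) ((⊤ : ℕ∞) : WithTop ℕ∞) G)
  let fg : G → TangentBundle 𝓘(ℝ, E) G := fun g ↦ TotalSpace.mk' E g 0
  have sfg : ContMDiff 𝓘(ℝ, E) (𝓘(ℝ, E).prod 𝓘(ℝ, E)) (⊤ : ℕ∞) fg := contMDiff_zeroSection _ _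
  let fv : G → TangentBundle 𝓘(ℝ, E) G := fun _ ↦ TotalSpace.mk' E 1 v
  have sfv : ContMDiff 𝓘(ℝ, E) (𝓘(ℝ, E).prod 𝓘(ℝ, E)) (⊤ : ℕ∞) fv := contMDiff_const
  let F₁ : G → (TangentBundle 𝓘(ℝ, E) G × TangentBundle 𝓘(ℝ, E) G) := fun g ↦ (fg g, fv g)
  have S₁ := sfg.prodMk sfv
  let F₂ : (TangentBundle 𝓘(ℝ, E) G × TangentBundle 𝓘(ℝ, E) G) →
      TangentBundle (𝓘(ℝ, E).prod 𝓘(ℝ, E)) (G × G) :=
    (equivTangentBundleProd 𝓘(ℝ, E) G 𝓘(ℝ, E) G).symm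
  have S₂ : CMDiff (⊤ : ℕ∞) F₂ := contMDiff_equivTangentBundleProd_symm
  let F₃ : TangentBundle (𝓘(ℝ, E).prod 𝓘(ℝ, E)) (G × G) → TangentBundle 𝓘(ℝ, E) G :=
    tangentMap (𝓘(ℝ, E).prod 𝓘(ℝ, E)) 𝓘(ℝ, E) (fun (p : G × G) ↦ p.1 * p.2)
  have S₃ : CMDiff (⊤ : ℕ∞) F₃ := by
    apply ContMDiff.contMDiff_tangentMap _ (m := (⊤ : ℕ∞)) (n := (⊤ : ℕ∞)) le_rfl
    exact contMDiff_mul 𝓘(ℝ, E) (⊤ : ℕ∞)
  let S := (S₃.comp S₂).comp S₁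
  have M : ((⊤ : ℕ∞) : WithTop ℕ∞) ≠ 0 := by simp
  convert! S with g
  · simp [F₂, F₃, fg, fv]
  · simp only [Function.comp_apply, tangentMap, F₃, F₂, fg, fv]
    rw [mfderiv_prod_eq_add_apply ((contMDiff_mul 𝓘(ℝ, E) (⊤ : ℕ∞)).mdifferentiableAt M)]
    simp +instances [mulInvariantVectorField]

theorem smooth_dd (X : Lie E G) {f : G → ℝ} (hf : SmF E f) : SmF E (dd X f) := by
  have h1 := (ContMDiff.contMDiff_tangentMap hf (m := (⊤ : ℕ∞)) le_rfl).comp (smooth_inv X)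
  have h2 := (contMDiff_snd_tangentBundle_modelSpace (n := (⊤ : ℕ∞)) ℝ 𝓘(ℝ, ℝ)).comp h1
  exact h2

end PFI
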