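import Pool.Agent.PFL.B5

/-!
# [PFL-B6] the left trivialisation
-/

open scoped Manifold BigOperators ContDiff
open Bundle

namespace PFI

variable {E : Type*} [NormedAddCommGroup E] [NormedSpace ℝ E]
  {G : Type*} [TopologicalSpace G] [ChartedSpace E G] [Group G]

/-- the left trivialisation: the left-invariant vector field with value `v` at `x` -/
noncomputable def lt (x : G) : TangentSpace 𝓘(ℝ, E) x →ₗ[ℝ] Lie E G :=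
  (mfderiv 𝓘(ℝ, E) 𝓘(ℝ, E) (fun y => x⁻¹ * y) x).toLinearMap

theorem mk_eq {a b : G} (h : a = b) (w : E) :
    (⟨a, w⟩ : TangentBundle 𝓘(ℝ, E) G) = ⟨b, w⟩ := by subst h; rfl

variable [LieGroup 𝓘(ℝ, E) (⊤ : ℕ∞) G]

theorem mdiff_mul_left (a x : G) :
    MDifferentiableAt 𝓘(ℝ, E) 𝓘(ℝ, E) (fun y : G => a * y) x :=
  (contMDiff_mul_left (I := 𝓘(ℝ, E)) (n := (⊤ : ℕ∞)) (a := a)).contMDiffAt.mdifferentiableAt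
    (by simp)

theorem lt_inv (x : G) (X : Lie E G) : lt x (mulInvariantVectorField X x) = X := by
  have h : (fun y : G => x⁻¹ * y) ∘ (fun y => x * y) = id := by
    funext y; simp
  have h2 := mfderiv_comp (I := 𝓘(ℝ, E)) (I' := 𝓘(ℝ, E)) (I'' := 𝓘(ℝ, E)) (1 : G)
    (mdiff_mul_left x⁻¹ (x * 1)) (mdiff_mul_left x (1 : G))
  rw [h, mfderiv_id] at h2
  have h3 : mfderiv 𝓘(ℝ, E) 𝓘(ℝ, E) (fun y : G => x⁻¹ * y) (x * 1)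
      = (mfderiv 𝓘(ℝ, E) 𝓘(ℝ, E) (fun y : G => x⁻¹ * y) x : E →L[ℝ] E) := by
    rw [mul_one]
  have h4 := congrArg (fun L : E →L[ℝ] E => L (X : E)) h2
  have h5 : (X : E) = (mfderiv 𝓘(ℝ, E) 𝓘(ℝ, E) (fun y : G => x⁻¹ * y) (x * 1) : E →L[ℝ] E)
      ((mfderiv 𝓘(ℝ, E) 𝓘(ℝ, E) (fun y : G => x * y) 1 : E →L[ℝ] E) X) := h4
  rw [h3] at h5
  exact h5.symm

theorem inv_lt (x : G) (v : TangentSpace 𝓘(ℝ, E) x) : mulInvariantVectorField (lt x v) x = v := by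
  have h : (fun y : G => x * y) ∘ (fun y => x⁻¹ * y) = id := by
    funext y; simp
  have h2 := mfderiv_comp (I := 𝓘(ℝ, E)) (I' := 𝓘(ℝ, E)) (I'' := 𝓘(ℝ, E)) x
    (mdiff_mul_left x (x⁻¹ * x)) (mdiff_mul_left x⁻¹ x)
  rw [h, mfderiv_id] at h2
  have h3 : mfderiv 𝓘(ℝ, E) 𝓘(ℝ, E) (fun y : G => x * y) (x⁻¹ * x)
      = (mfderiv 𝓘(ℝ, E) 𝓘(ℝ, E) (fun y : G => x * y) 1 : E →L[ℝ] E) := by
    rw [inv_mul_cancel]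
  have h4 := congrArg (fun L : E →L[ℝ] E => L (v : E)) h2
  have h5 : (v : E) = (mfderiv 𝓘(ℝ, E) 𝓘(ℝ, E) (fun y : G => x * y) (x⁻¹ * x) : E →L[ℝ] E)
      ((mfderiv 𝓘(ℝ, E) 𝓘(ℝ, E) (fun y : G => x⁻¹ * y) x : E →L[ℝ] E) v) := h4
  rw [h3] at h5
  exact h5.symm

set_option backward.defeqAttrib.useBackward true in
set_option backward.isDefEq.respectTransparency false in
theorem smooth_lt {s : G → TangentBundle 𝓘(ℝ, E) G}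
    (hs : ContMDiff 𝓘(ℝ, E) (𝓘(ℝ, E).prod 𝓘(ℝ, E)) (⊤ : ℕ∞) s) :
    ContMDiff 𝓘(ℝ, E) (𝓘(ℝ, E).prod 𝓘(ℝ, E)) (⊤ : ℕ∞)
      (fun x => (⟨1, lt (s x).1 (s x).2⟩ : TangentBundle 𝓘(ℝ, E) G)) := by
  have hm : IsManifold 𝓘(ℝ, E) (((⊤ : ℕ∞) : WithTop ℕ∞) + 1) G :=
    inferInstanceAs (IsManifold 𝓘(ℝ, E) ((⊤ : ℕ∞) : WithTop ℕ∞) G)
  let fg : G → TangentBundle 𝓘(ℝ, E) G := fun g ↦ TotalSpace.mk' E ((s g).1⁻¹) 0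
  have sfg : ContMDiff 𝓘(ℝ, E) (𝓘(ℝ, E).prod 𝓘(ℝ, E)) (⊤ : ℕ∞) fg := by
    have h0 : ContMDiff 𝓘(ℝ, E) (𝓘(ℝ, E).prod 𝓘(ℝ, E)) (⊤ : ℕ∞)
      (fun g : G => (⟨g, 0⟩ : TangentBundle 𝓘(ℝ, E) G)) := contMDiff_zeroSection _ _
    have h1 : ContMDiff 𝓘(ℝ, E) 𝓘(ℝ, E) (⊤ : ℕ∞) (fun g => (s g).1⁻¹) := by
      have h2 : ContMDiff 𝓘(ℝ, E) 𝓘(ℝ, E) (⊤ : ℕ∞) (fun g => (s g).1) :=
        (contMDiff_proj (TangentSpace 𝓘(ℝ, E))).comp hs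
      exact h2.inv
    exact h0.comp h1
  let F₁ : G → (TangentBundle 𝓘(ℝ, E) G × TangentBundle 𝓘(ℝ, E) G) := fun g ↦ (fg g, s g)
  have S₁ := sfg.prodMk hs
  let F₂ : (TangentBundle 𝓘(ℝ, E) G × TangentBundle 𝓘(ℝ, E) G) →
      TangentBundle (𝓘(ℝ, E).prod 𝓘(ℝ, E)) (G × G) :=
    (equivTangentBundleProd 𝓘(ℝ, E) G 𝓘(ℝ, E) G).symm
  have S₂ : CMDiff (⊤ : ℕ∞) F₂ := contMDiff_equivTangentBundleProd_symm
  let F₃ : TangentBundle (𝓘(ℝ, E).prod 𝓘(ℝ, E)) (G × G) → TangentBundle 𝓘(ℝ, E) G :=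
    tangentMap (𝓘(ℝ, E).prod 𝓘(ℝ, E)) 𝓘(ℝ, E) (fun (p : G × G) ↦ p.1 * p.2)
  have S₃ : CMDiff (⊤ : ℕ∞) F₃ := by
    apply ContMDiff.contMDiff_tangentMap _ (m := (⊤ : ℕ∞)) (n := (⊤ : ℕ∞)) le_rfl
    exact contMDiff_mul 𝓘(ℝ, E) (⊤ : ℕ∞)
  let S := (S₃.comp S₂).comp S₁
  have M : ((⊤ : ℕ∞) : WithTop ℕ∞) ≠ 0 := by simp
  convert! S with g
  · simp [F₂, F₃, fg]
  · simp only [Function.comp_apply, tangentMap, F₃, F₂, fg]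
    rw [mfderiv_prod_eq_add_apply ((contMDiff_mul 𝓘(ℝ, E) (⊤ : ℕ∞)).mdifferentiableAt M)]
    simp +instances [lt]
    rfl

theorem smooth_fib [FiniteDimensional ℝ E] {v : G → Lie E G}
    (hs : ContMDiff 𝓘(ℝ, E) (𝓘(ℝ, E).prod 𝓘(ℝ, E)) (⊤ : ℕ∞)
      (fun x => (⟨1, v x⟩ : TangentBundle 𝓘(ℝ, E) G))) (φ : Lie E G →ₗ[ℝ] ℝ) :
    SmF E (fun x => φ (v x)) := by
  intro x
  have h := (contMDiffAt_totalSpace.1 (hs x)).2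
  let e := trivializationAt E (TangentSpace 𝓘(ℝ, E) : G → Type _) 1
  have he : (1 : G) ∈ e.baseSet := FiberBundle.mem_baseSet_trivializationAt' 1
  let L : Lie E G ≃L[ℝ] E := e.continuousLinearEquivAt ℝ 1 he
  have h2 : ContMDiffAt 𝓘(ℝ, E) 𝓘(ℝ, E) (⊤ : ℕ∞) (fun x => L (v x)) x := h
  let ψ : E →L[ℝ] ℝ := LinearMap.toContinuousLinearMap (φ ∘ₗ L.symm.toLinearEquiv.toLinearMap)
  have h3 : (fun x => φ (v x)) = fun x => ψ (L (v x)) := by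
    funext y
    have h4 : ψ (L (v y)) = φ (L.symm (L (v y))) := rfl
    rw [h4, L.symm_apply_apply]
  rw [h3]
  exact (ψ.contMDiff (n := (⊤ : ℕ∞))).contMDiffAt.comp x h2

end PFI
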