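import Pool.Agent.PFL.B6

/-!
# [PFL-B7] the commutator of derivatives along left-invariant vector fields
-/

open scoped Manifold BigOperators ContDiff
open Bundle VectorField

namespace PFI

variable {E : Type*} [NormedAddCommGroup E] [NormedSpace ℝ E]
  {G : Type*} [TopologicalSpace G] [ChartedSpace E G] [Group G]
  [LieGroup 𝓘(ℝ, E) (⊤ : ℕ∞) G] [CompleteSpace E] [LieGroup 𝓘(ℝ, E) (minSmoothness ℝ 3) G]

theorem minS_le (k : ℕ) : minSmoothness ℝ k ≤ ((⊤ : ℕ∞) : WithTop ℕ∞) := by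
  rw [minSmoothness_of_isRCLikeNormedField]
  exact WithTop.coe_le_coe.2 (le_top : ((k : ℕ∞)) ≤ ⊤)

/-- smooth vector fields -/
abbrev SmV (U : Π x : G, TangentSpace 𝓘(ℝ, E) x) : Prop :=
  ContMDiff 𝓘(ℝ, E) (𝓘(ℝ, E).prod 𝓘(ℝ, E)) (⊤ : ℕ∞)
    (fun x => (⟨x, U x⟩ : TangentBundle 𝓘(ℝ, E) G))

theorem SmV.smul {U : Π x : G, TangentSpace 𝓘(ℝ, E) x} {h : G → ℝ} (hh : SmF E h) (hU : SmV U) :
    SmV (h • U) := ContMDiff.smul_section hh hU

theorem SmV.md {U : Π x : G, TangentSpace 𝓘(ℝ, E) x} (hU : SmV U) (x : G) :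
    MDifferentiableAt 𝓘(ℝ, E) (𝓘(ℝ, E).prod 𝓘(ℝ, E))
      (fun x => (⟨x, U x⟩ : TangentBundle 𝓘(ℝ, E) G)) x :=
  hU.contMDiffAt.mdifferentiableAt (by simp)

theorem mlb_inv (X Y : Lie E G) : mlieBracket 𝓘(ℝ, E) (mulInvariantVectorField X)
    (mulInvariantVectorField Y) = mulInvariantVectorField (G := G) (I := 𝓘(ℝ, E)) ⁅X, Y⁆ :=
  (mulInvariantVector_mlieBracket X Y).symm

/-- `[X, hZ] = (Xh) Z + h [X, Z]` -/
theorem mlb_smul (X Z : Lie E G) {h : G → ℝ} (hh : SmF E h) :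
    mlieBracket 𝓘(ℝ, E) (mulInvariantVectorField X) (h • mulInvariantVectorField Z)
      = dd X h • mulInvariantVectorField Z + h • mulInvariantVectorField ⁅X, Z⁆ := by
  funext x
  rw [mlieBracket_smul_right (hh.md x) (SmV.md (smooth_inv Z) x), mlb_inv]
  rfl

theorem commut (X Y : Lie E G) {h : G → ℝ} (hh : SmF E h) (x : G) :
    dd X (dd Y h) x - dd Y (dd X h) x = dd ⁅X, Y⁆ h x := by
  by_cases hZ : ∃ Z : Lie E G, Z ≠ 0
  · obtain ⟨Z, hZ⟩ := hZ
    have hs : ∀ W : Lie E G, SmV (mulInvariantVectorField W) := smooth_inv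
    have key := leibniz_identity_mlieBracket_apply (I := 𝓘(ℝ, E)) (x := x)
      (U := mulInvariantVectorField X) (V := mulInvariantVectorField Y)
      (W := h • mulInvariantVectorField Z)
      (((hs X).of_le (minS_le 2)).contMDiffAt) (((hs Y).of_le (minS_le 2)).contMDiffAt)
      ((((hs Z).smul hh).of_le (minS_le 2)).contMDiffAt)
    have hX := smooth_dd X hh
    have hY := smooth_dd Y hh
    rw [mlb_smul Y Z hh, mlb_smul X Z hh, mlb_inv X Y, mlb_smul ⁅X, Y⁆ Z hh,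
      mlieBracket_add_right ((SmV.smul hY (hs Z)).md x) ((SmV.smul hh (hs _)).md x),
      mlieBracket_add_right ((SmV.smul hX (hs Z)).md x) ((SmV.smul hh (hs _)).md x),
      mlb_smul X Z hY, mlb_smul Y Z hX, mlb_smul X ⁅Y, Z⁆ hh, mlb_smul Y ⁅X, Z⁆ hh] at key
    have key2 := congrArg (lt x) key
    simp only [Pi.add_apply, Pi.smul_apply', map_add, map_smul, lt_inv] at key2
    have key3 : (dd X (dd Y h) x - dd Y (dd X h) x - dd ⁅X, Y⁆ h x) • Z = 0 := by
      rw [leibniz_lie X Y Z] at key2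
      rw [← sub_eq_zero] at key2
      rw [← key2]
      module
    rcases smul_eq_zero.1 key3 with h1 | h1
    · linarith
    · exact absurd h1 hZ
  · push Not at hZ
    rw [hZ X, hZ Y, hZ ⁅_, _⁆]
    have h0 : ∀ (f : G → ℝ) x, dd (0 : Lie E G) f x = 0 := by
      intro f x
      have := dd_smul_left (0 : ℝ) (0 : Lie E G) f x
      rwa [zero_smul, zero_mul] at this
    simp only [h0, sub_self]

end PFI
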