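import Pool.Agent.PFL.B7

/-!
# [PFL-B8] the differential of a smooth map in the left-invariant frame
-/

open scoped Manifold BigOperators ContDiff
open Bundle VectorField

namespace PFI

variable {E : Type*} [NormedAddCommGroup E] [NormedSpace ℝ E]
  {G : Type*} [TopologicalSpace G] [ChartedSpace E G] [Group G]

/-- the value of a left-invariant field at `x`, as a linear map -/
noncomputable def ev (x : G) : Lie E G →ₗ[ℝ] TangentSpace 𝓘(ℝ, E) x where
  toFun X := mulInvariantVectorField X x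
  map_add' X Y := by rw [mulInvariantVectorField_add]; rfl
  map_smul' c X := by rw [mulInvariantVectorField_smul]; rfl

/-- the differential of `F` in the left-invariant frame -/
noncomputable def AA (E : Type*) [NormedAddCommGroup E] [NormedSpace ℝ E]
    {G : Type*} [TopologicalSpace G] [ChartedSpace E G] [Group G] (F : G → G) (x : G) :
    Lie E G →ₗ[ℝ] Lie E G :=
  lt (F x) ∘ₗ (mfderiv 𝓘(ℝ, E) 𝓘(ℝ, E) F x).toLinearMap ∘ₗ ev x

theorem AA_apply (F : G → G) (x : G) (X : Lie E G) :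
    AA E F x X = lt (F x) (mfderiv 𝓘(ℝ, E) 𝓘(ℝ, E) F x (mulInvariantVectorField X x)) := rfl

variable [LieGroup 𝓘(ℝ, E) (⊤ : ℕ∞) G]

theorem AA_push (F : G → G) (x : G) (X X' : Lie E G) :
    mfderiv 𝓘(ℝ, E) 𝓘(ℝ, E) F x (mulInvariantVectorField X x) = mulInvariantVectorField X' (F x)
      ↔ X' = AA E F x X := by
  rw [AA_apply]
  constructor
  · intro h
    rw [h, lt_inv]
  · intro h
    rw [h, inv_lt]

/-- smooth maps -/
abbrev SmM (E : Type*) [NormedAddCommGroup E] [NormedSpace ℝ E] {G : Type*} [TopologicalSpace G]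
    [ChartedSpace E G] (F : G → G) : Prop := ContMDiff 𝓘(ℝ, E) 𝓘(ℝ, E) (⊤ : ℕ∞) F

theorem SmM.md {F : G → G} (hF : SmM E F) (x : G) :
    MDifferentiableAt 𝓘(ℝ, E) 𝓘(ℝ, E) F x :=
  hF.contMDiffAt.mdifferentiableAt (by simp)

theorem AA_inv (F K : G → G) (hF : SmM E F) (hK : SmM E K) (h : ∀ y, K (F y) = y) (x : G)
    (X : Lie E G) : AA E K (F x) (AA E F x X) = X := by
  rw [AA_apply, AA_apply, inv_lt]
  have h1 : K ∘ F = id := funext h
  have h2 := mfderiv_comp (I := 𝓘(ℝ, E)) (I' := 𝓘(ℝ, E)) (I'' := 𝓘(ℝ, E)) x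
    (hK.md (F x)) (hF.md x)
  rw [h1, mfderiv_id] at h2
  have h4 := congrArg (fun L : E →L[ℝ] E => L (mulInvariantVectorField X x : E)) h2
  have h5 : (mulInvariantVectorField X x : E) = mfderiv 𝓘(ℝ, E) 𝓘(ℝ, E) K (F x)
      (mfderiv 𝓘(ℝ, E) 𝓘(ℝ, E) F x (mulInvariantVectorField X x)) := h4
  rw [← h5]
  have h6 : ∀ (y : G) (hy : y = x) , lt (E := E) y (mulInvariantVectorField X x : E) = X := by
    intro y hy
    subst hy
    exact lt_inv _ X
  exact h6 _ (h x)

theorem AA_bij (F K : G → G) (hF : SmM E F) (hK : SmM E K) (h : ∀ y, K (F y) = y)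
    (h' : ∀ y, F (K y) = y) (x : G) : Function.Bijective (AA E F x) := by
  constructor
  · exact Function.LeftInverse.injective (g := AA E K (F x)) (AA_inv F K hF hK h x)
  · intro Y
    refine ⟨AA E K (F x) Y, ?_⟩
    have h2 := AA_inv K F hK hF h' (F x) Y
    rwa [h] at h2

variable [FiniteDimensional ℝ E]

theorem smooth_AA {F : G → G} (hF : SmM E F) (X : Lie E G) (φ : Lie E G →ₗ[ℝ] ℝ) :
    SmF E (fun x => φ (AA E F x X)) := by
  have h1 := (ContMDiff.contMDiff_tangentMap hF (m := (⊤ : ℕ∞)) le_rfl).comp (smooth_inv X)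
  exact smooth_fib (smooth_lt h1) φ

/-- the derivative of the differential -/
noncomputable def dAA {F : G → G} (hF : SmM E F) (x : G) :
    Lie E G →ₗ[ℝ] Lie E G →ₗ[ℝ] Lie E G :=
  LinearMap.mk₂ ℝ (fun X Z => ∑ k, dd X (fun y => (Module.finBasis ℝ (Lie E G)).coord k
      (AA E F y Z)) x • Module.finBasis ℝ (Lie E G) k)
    (fun X Y Z => by simp only [dd_add_left, add_smul, Finset.sum_add_distrib])
    (fun c X Z => by simp only [dd_smul_left, mul_smul, Finset.smul_sum])
    (fun X Y Z => by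
      simp only [map_add]
      rw [← Finset.sum_add_distrib]
      refine Finset.sum_congr rfl fun k _ => ?_
      rw [dd_add X (smooth_AA hF Y _) (smooth_AA hF Z _), add_smul])
    (fun c X Z => by
      simp only [map_smul, Finset.smul_sum]
      refine Finset.sum_congr rfl fun k _ => ?_
      have h := dd_mul_const X (smooth_AA hF Z ((Module.finBasis ℝ (Lie E G)).coord k)) c x
      have h2 : (fun y => c • ((Module.finBasis ℝ (Lie E G)).coord k (AA E F y Z)))
          = fun y => ((Module.finBasis ℝ (Lie E G)).coord k (AA E F y Z)) * c := by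
        funext y; rw [smul_eq_mul, mul_comm]
      rw [h2, h, mul_comm, mul_smul])

theorem expand (φ : Lie E G →ₗ[ℝ] ℝ) (v : Lie E G) :
    φ v = ∑ k, (Module.finBasis ℝ (Lie E G)).coord k v * φ (Module.finBasis ℝ (Lie E G) k) := by
  conv_lhs => rw [← (Module.finBasis ℝ (Lie E G)).sum_repr v]
  rw [map_sum]
  refine Finset.sum_congr rfl fun k _ => ?_
  rw [map_smul]; rfl

theorem dAA_der {F : G → G} (hF : SmM E F) (x : G) (X Z : Lie E G) (φ : Lie E G →ₗ[ℝ] ℝ) :
    dd X (fun y => φ (AA E F y Z)) x = φ (dAA hF x X Z) := by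
  have h1 : (fun y => φ (AA E F y Z)) = fun y => ∑ k, (Module.finBasis ℝ (Lie E G)).coord k
      (AA E F y Z) * φ (Module.finBasis ℝ (Lie E G) k) := by
    funext y; exact expand φ _
  rw [h1, dd_sum X (fun k => (smooth_AA hF Z _).mul (smF_const _))]
  have h2 : dAA hF x X Z = ∑ k, dd X (fun y => (Module.finBasis ℝ (Lie E G)).coord k
      (AA E F y Z)) x • Module.finBasis ℝ (Lie E G) k := rfl
  rw [h2, map_sum]
  refine Finset.sum_congr rfl fun k _ => ?_
  rw [dd_mul_const X (smooth_AA hF Z _), map_smul]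
  rfl

theorem smooth_dAA {F : G → G} (hF : SmM E F) (Y Z : Lie E G) (φ : Lie E G →ₗ[ℝ] ℝ) :
    SmF E (fun y => φ (dAA hF y Y Z)) := by
  have h : (fun y => φ (dAA hF y Y Z)) = dd Y (fun y => φ (AA E F y Z)) := by
    funext y; exact (dAA_der hF y Y Z φ).symm
  rw [h]
  exact smooth_dd Y (smooth_AA hF Z φ)

theorem expand2 (β : Lie E G →ₗ[ℝ] Lie E G →ₗ[ℝ] ℝ) (v w : Lie E G) :
    β v w = ∑ k, ∑ l, ((Module.finBasis ℝ (Lie E G)).coord k v *
      (Module.finBasis ℝ (Lie E G)).coord l w) * β (Module.finBasis ℝ (Lie E G) k)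
        (Module.finBasis ℝ (Lie E G) l) := by
  have h1 := expand (β.flip w) v
  have h2 : β v w = β.flip w v := rfl
  rw [h2, h1]
  refine Finset.sum_congr rfl fun k _ => ?_
  have h3 : β.flip w (Module.finBasis ℝ (Lie E G) k) = β (Module.finBasis ℝ (Lie E G) k) w := rfl
  rw [h3, expand (β (Module.finBasis ℝ (Lie E G) k)) w, Finset.mul_sum]
  refine Finset.sum_congr rfl fun l _ => ?_
  ring

theorem smooth_prod {F : G → G} (hF : SmM E F) (Y Z : Lie E G)
    (β : Lie E G →ₗ[ℝ] Lie E G →ₗ[ℝ] ℝ) : SmF E (fun y => β (AA E F y Y) (AA E F y Z)) := by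
  have h1 : (fun y => β (AA E F y Y) (AA E F y Z)) = fun y => ∑ k, ∑ l,
      ((Module.finBasis ℝ (Lie E G)).coord k (AA E F y Y) *
      (Module.finBasis ℝ (Lie E G)).coord l (AA E F y Z)) * β (Module.finBasis ℝ (Lie E G) k)
        (Module.finBasis ℝ (Lie E G) l) := by
    funext y; exact expand2 β _ _
  rw [h1]
  exact SmF.sum fun k => SmF.sum fun l => ((smooth_AA hF Y _).mul (smooth_AA hF Z _)).mul
    (smF_const _)

theorem AA_prod {F : G → G} (hF : SmM E F) (x : G) (X Y Z : Lie E G)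
    (β : Lie E G →ₗ[ℝ] Lie E G →ₗ[ℝ] ℝ) :
    dd X (fun y => β (AA E F y Y) (AA E F y Z)) x
      = β (dAA hF x X Y) (AA E F x Z) + β (AA E F x Y) (dAA hF x X Z) := by
  have h1 : (fun y => β (AA E F y Y) (AA E F y Z)) = fun y => ∑ k, ∑ l,
      ((Module.finBasis ℝ (Lie E G)).coord k (AA E F y Y) *
      (Module.finBasis ℝ (Lie E G)).coord l (AA E F y Z)) * β (Module.finBasis ℝ (Lie E G) k)
        (Module.finBasis ℝ (Lie E G) l) := by
    funext y; exact expand2 β _ _
  rw [h1, dd_sum X (fun k => SmF.sum fun l => ((smooth_AA hF Y _).mul (smooth_AA hF Z _)).mul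
    (smF_const _)), expand2 β (dAA hF x X Y), expand2 β (AA E F x Y), ← Finset.sum_add_distrib]
  refine Finset.sum_congr rfl fun k _ => ?_
  rw [dd_sum X (fun l => ((smooth_AA hF Y _).mul (smooth_AA hF Z _)).mul (smF_const _)),
    ← Finset.sum_add_distrib]
  refine Finset.sum_congr rfl fun l _ => ?_
  rw [dd_mul_const X ((smooth_AA hF Y _).mul (smooth_AA hF Z _)),
    dd_mul X (smooth_AA hF Y _) (smooth_AA hF Z _), dAA_der hF, dAA_der hF]
  ring

end PFI
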