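import Pool.Agent.PFL.B8

/-!
# [PFL-B9] smooth functions separate tangent vectors; compatibility with the bracket
-/

open scoped Manifold BigOperators ContDiff Topology
open Bundle VectorField

namespace PFI

theorem t2 (E : Type*) [NormedAddCommGroup E] [NormedSpace ℝ E]
    (G : Type*) [TopologicalSpace G] [ChartedSpace E G] [Group G]
    [LieGroup 𝓘(ℝ, E) (⊤ : ℕ∞) G] : T2Space G := by
  have h1 : IsTopologicalGroup G := topologicalGroup_of_lieGroup 𝓘(ℝ, E) (⊤ : ℕ∞)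
  have h2 : T1Space G := ChartedSpace.t1Space E G
  infer_instance

variable {E : Type*} [NormedAddCommGroup E] [NormedSpace ℝ E]
  {G : Type*} [TopologicalSpace G] [ChartedSpace E G] [Group G]
  [LieGroup 𝓘(ℝ, E) (⊤ : ℕ∞) G] [FiniteDimensional ℝ E]

/-- smooth functions separate the tangent vectors at a point -/
theorem separate (p : G) {w : TangentSpace 𝓘(ℝ, E) p}
    (h : ∀ f : G → ℝ, SmF E f → mvfderiv 𝓘(ℝ, E) f p w = 0) : w = 0 := by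
  have ht := t2 E G
  have hm1 : IsManifold 𝓘(ℝ, E) 1 G :=
    IsManifold.of_le (n := ((⊤ : ℕ∞) : WithTop ℕ∞)) (by
      exact WithTop.coe_le_coe.2 (le_top : ((1 : ℕ∞)) ≤ ⊤))
  by_contra hw
  have hinv := isInvertible_mfderiv_extChartAt (I := 𝓘(ℝ, E))
    (mem_extChartAt_source (I := 𝓘(ℝ, E)) p)
  have hdiff : MDifferentiableAt 𝓘(ℝ, E) 𝓘(ℝ, E) (extChartAt 𝓘(ℝ, E) p) p :=
    mdifferentiableAt_extChartAt (mem_chart_source E p)
  -- the vector in the chart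
  set u : E := mfderiv 𝓘(ℝ, E) 𝓘(ℝ, E) (extChartAt 𝓘(ℝ, E) p) p w with hu
  have hu0 : u ≠ 0 := by
    intro h0
    obtain ⟨e, he⟩ := hinv
    have h1 : e w = 0 := by
      have h2 : e w = mfderiv 𝓘(ℝ, E) 𝓘(ℝ, E) (extChartAt 𝓘(ℝ, E) p) p w := by
        rw [← he]; rfl
      rw [h2]; exact h0
    exact hw (e.map_eq_zero_iff.1 h1)
  obtain ⟨ℓ, -, hℓ⟩ := exists_dual_vector ℝ u (norm_ne_zero_iff.2 hu0)
  let g : G → ℝ := fun x => ℓ (extChartAt 𝓘(ℝ, E) p x)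
  have hg : ContMDiffOn 𝓘(ℝ, E) 𝓘(ℝ, ℝ) (⊤ : ℕ∞) g (chartAt E p).source :=
    (ℓ.contMDiff (n := ((⊤ : ℕ∞) : WithTop ℕ∞))).comp_contMDiffOn contMDiffOn_extChartAt
  obtain ⟨ρ⟩ := (inferInstance : Nonempty (SmoothBumpFunction 𝓘(ℝ, E) p))
  have hf : SmF E (fun x => ρ x • g x) := ρ.contMDiff_smul hg
  have heq : (fun x => ρ x • g x) =ᶠ[𝓝 p] g := by
    filter_upwards [ρ.eventuallyEq_one] with y hy
    rw [hy]; simp
  have h1 := h _ hf
  have hd : HasMFDerivAt 𝓘(ℝ, E) 𝓘(ℝ, ℝ) g p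
      (ℓ ∘L mfderiv 𝓘(ℝ, E) 𝓘(ℝ, E) (extChartAt 𝓘(ℝ, E) p) p) :=
    (ℓ.hasMFDerivAt (x := extChartAt 𝓘(ℝ, E) p p)).comp p hdiff.hasMFDerivAt
  have hd2 := (hd.congr_of_eventuallyEq heq).mfderiv
  have h2 : mvfderiv 𝓘(ℝ, E) (fun x => ρ x • g x) p w = ℓ u := by
    unfold mvfderiv
    rw [hd2]
    rfl
  rw [h2, hℓ] at h1
  exact hu0 (norm_eq_zero.1 (by exact_mod_cast h1))

end PFI
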