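import Mathlib

/-!
# [PFL] left-invariant pluriclosed flow: the algebraic objects

`V` is a finite-dimensional real vector space with a Lie bracket `br` and an integrable complex
structure `J`; `g` is a `J`-Hermitian inner product.  Everything is the linear algebra of
left-invariant tensors on a Lie group.
-/

open scoped BigOperators

namespace PFL

variable {V : Type*} [AddCommGroup V] [Module ℝ V]

/-- `br` is a Lie bracket -/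
structure LieB (br : V →ₗ[ℝ] V →ₗ[ℝ] V) : Prop where
  skew : ∀ X Y, br X Y = -br Y X
  jac : ∀ X Y Z, br X (br Y Z) = br (br X Y) Z + br Y (br X Z)

/-- `J` is an integrable complex structure (vanishing Nijenhuis tensor) -/
structure CStr (br : V →ₗ[ℝ] V →ₗ[ℝ] V) (J : V →ₗ[ℝ] V) : Prop where
  sq : ∀ X, J (J X) = -X
  int : ∀ X Y, br (J X) (J Y) = br X Y + J (br (J X) Y) + J (br X (J Y))

/-- `g` is a `J`-Hermitian inner product -/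
structure Met (J : V →ₗ[ℝ] V) (g : V →ₗ[ℝ] V →ₗ[ℝ] ℝ) : Prop where
  symm : ∀ X Y, g X Y = g Y X
  herm : ∀ X Y, g (J X) (J Y) = g X Y
  pos : ∀ X, X ≠ 0 → 0 < g X X

/-- the torsion 3-form `C(X,Y,Z) = dω(JX,JY,JZ)`, `ω = g(J·,·)`, of the Bismut connection -/
def Cf (br : V →ₗ[ℝ] V →ₗ[ℝ] V) (J : V →ₗ[ℝ] V) (g : V →ₗ[ℝ] V →ₗ[ℝ] ℝ) (X Y Z : V) : ℝ :=
  -(g (br (J X) (J Y)) Z + g (br (J Y) (J Z)) X + g (br (J Z) (J X)) Y)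

/-- `dC = 0` (`g` is pluriclosed) -/
def Closed (br : V →ₗ[ℝ] V →ₗ[ℝ] V) (J : V →ₗ[ℝ] V) (g : V →ₗ[ℝ] V →ₗ[ℝ] ℝ) : Prop :=
  ∀ X Y Z W, Cf br J g (br X Y) Z W - Cf br J g (br X Z) Y W + Cf br J g (br X W) Y Z
    + Cf br J g (br Y Z) X W - Cf br J g (br Y W) X Z + Cf br J g (br Z W) X Y = 0

/-- `a(X,Y,Z) = g(∇_X Y, Z)`, `∇` the Bismut connection -/
noncomputable def af (br : V →ₗ[ℝ] V →ₗ[ℝ] V) (J : V →ₗ[ℝ] V) (g : V →ₗ[ℝ] V →ₗ[ℝ] ℝ)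
    (X Y Z : V) : ℝ :=
  (g (br X Y) Z - g (br Y Z) X + g (br Z X) Y + Cf br J g X Y Z) / 2

/-- `N(X,Y) = g(∇⁻_X u, Y)`, `∇⁻` the connection with the opposite torsion -/
noncomputable def Nf (br : V →ₗ[ℝ] V →ₗ[ℝ] V) (J : V →ₗ[ℝ] V) (g : V →ₗ[ℝ] V →ₗ[ℝ] ℝ)
    (u X Y : V) : ℝ :=
  af br J g X u Y - Cf br J g X u Y

/-- the `+++` part of the structure tensor of the exact Courant algebroid -/
noncomputable def tf (br : V →ₗ[ℝ] V →ₗ[ℝ] V) (J : V →ₗ[ℝ] V) (g : V →ₗ[ℝ] V →ₗ[ℝ] ℝ)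
    (X Y Z : V) : ℝ :=
  (g (br X Y) Z + g (br Y Z) X + g (br Z X) Y + Cf br J g X Y Z) / 2

variable {m : ℕ}

/-- the trace of the bilinear form `β` with respect to `g`, computed in the basis `b` -/
noncomputable def trg (b : Module.Basis (Fin m) ℝ V) (g : V →ₗ[ℝ] V →ₗ[ℝ] ℝ) (β : V → V → ℝ) : ℝ :=
  ∑ i, ∑ j, (Matrix.of fun i j => g (b i) (b j))⁻¹ i j * β (b i) (b j)

/-- `ζ(X) = (tr (J ad X) + tr (ad (J X))) / 2` -/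
noncomputable def zh (br : V →ₗ[ℝ] V →ₗ[ℝ] V) (J : V →ₗ[ℝ] V) : V →ₗ[ℝ] ℝ :=
  (1 / 2 : ℝ) • ((LinearMap.trace ℝ V ∘ₗ (LinearMap.llcomp ℝ V V V J) ∘ₗ br)
    + (LinearMap.trace ℝ V ∘ₗ br ∘ₗ J))

/-- the 1-form `η` with `ρ_B = dη` -/
noncomputable def eta (b : Module.Basis (Fin m) ℝ V) (br : V →ₗ[ℝ] V →ₗ[ℝ] V) (J : V →ₗ[ℝ] V)
    (g : V →ₗ[ℝ] V →ₗ[ℝ] ℝ) (X : V) : ℝ :=
  zh br J X - (1 / 2) * trg b g (fun Y Z => g (br (J Y) Z) X)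

/-- the right-hand side of the flow: `γ(X,Y) = (η([X,JY]) + η([Y,JX])) / 2` -/
noncomputable def Fg (b : Module.Basis (Fin m) ℝ V) (br : V →ₗ[ℝ] V →ₗ[ℝ] V) (J : V →ₗ[ℝ] V)
    (g : V →ₗ[ℝ] V →ₗ[ℝ] ℝ) (X Y : V) : ℝ :=
  (eta b br J g (br X (J Y)) + eta b br J g (br Y (J X))) / 2

/-- `|η|²` -/
noncomputable def En (b : Module.Basis (Fin m) ℝ V) (br : V →ₗ[ℝ] V →ₗ[ℝ] V) (J : V →ₗ[ℝ] V)
    (g : V →ₗ[ℝ] V →ₗ[ℝ] ℝ) : ℝ :=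
  trg b g (fun X Y => eta b br J g X * eta b br J g Y)

/-- `|[·,·]|²` -/
noncomputable def kap (b : Module.Basis (Fin m) ℝ V) (br : V →ₗ[ℝ] V →ₗ[ℝ] V)
    (g : V →ₗ[ℝ] V →ₗ[ℝ] ℝ) : ℝ :=
  trg b g (fun X Y => trg b g (fun Z W => g (br X Z) (br Y W)))

/-- `e` is `g`-orthonormal -/
def Orth (g : V →ₗ[ℝ] V →ₗ[ℝ] ℝ) (e : Module.Basis (Fin m) ℝ V) : Prop :=
  ∀ i j, g (e i) (e j) = if i = j then 1 else 0

end PFL
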